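import Mathlib
import Pool.Agent.W262.RK.Bas
import Pool.Agent.W505.RK.LS
import Pool.Agent.W655.RK.Full

/-!
# Most quadratic characters of small modulus are not biased on the primes with given weights

Large sieve for real characters; no L-functions.
-/

set_option autoImplicit false

namespace Pool.Agent.U214.PT

open Finset Pool.Agent.W262.RK

open Classical in
/-- the odd squarefree numbers of `(R, 2 R]` -/
noncomputable def OS (R : ℕ) : Finset ℕ := (Ioc R (2 * R)).filter (fun m => Odd m ∧ Squarefree m)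

/-- the sum over the primes of `(2 ^ k, 2 ^ (k + 1)]` -/
noncomputable def blk (h ψ : ℕ → ℝ) (k m : ℕ) : ℝ :=
  ∑ p ∈ PS (2 ^ k) (2 ^ (k + 1)), h p * ψ p * Jr p m

lemma card_OS (R : ℕ) : (OS R).card ≤ R := by
  unfold OS
  refine (card_filter_le _ _).trans ?_
  rw [Nat.card_Ioc]
  omega

/-- the large sieve for one block -/
lemma blk_ls {h ψ : ℕ → ℝ} {B : ℝ} {z k R : ℕ} (hB : 0 ≤ B)
    (H1 : ∀ p : ℕ, p.Prime → z < p → 0 ≤ h p ∧ h p ≤ B / p) (hψ : ∀ p, |ψ p| ≤ 1)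
    (hz : z ≤ 2 ^ k) (hR : R ^ 3 ≤ 2 ^ k) :
    ∑ m ∈ OS R, (blk h ψ k m) ^ 2 ≤ 7 * B ^ 2 := by
  classical
  set c : ℕ → ℝ := fun l => if l ∈ PS (2 ^ k) (2 ^ (k + 1)) then h l * ψ l else 0 with hc
  have h1 := Pool.Agent.W505.RK.ls (OS R) (2 ^ (k + 1) + 1) (2 * R) c (by
    intro d hd
    unfold OS at hd
    rw [mem_filter, mem_Ioc] at hd
    exact ⟨hd.2.1, hd.2.2, hd.1.2⟩)
  have h2 : ∀ m, ∑ l ∈ range (2 ^ (k + 1) + 1), c l * Jr l m = blk h ψ k m := by
    intro m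
    unfold blk
    have hsub : PS (2 ^ k) (2 ^ (k + 1)) ⊆ range (2 ^ (k + 1) + 1) := by
      intro p hp
      rw [mem_range]
      exact Nat.lt_succ_of_le (mem_PS.1 hp).1.2
    rw [← sum_subset hsub]
    · refine sum_congr rfl fun l hl => ?_
      rw [hc]
      simp only [if_pos hl]
    · intro l _ hl
      rw [hc]
      simp only [if_neg hl, zero_mul]
  have h3 : ∑ l ∈ range (2 ^ (k + 1) + 1), c l ^ 2 ≤ B ^ 2 / 2 ^ k := by
    have hsub : PS (2 ^ k) (2 ^ (k + 1)) ⊆ range (2 ^ (k + 1) + 1) := by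
      intro p hp
      rw [mem_range]
      exact Nat.lt_succ_of_le (mem_PS.1 hp).1.2
    rw [← sum_subset hsub]
    · have h4 : ∀ l ∈ PS (2 ^ k) (2 ^ (k + 1)), c l ^ 2 ≤ (B / 2 ^ k) ^ 2 := by
        intro l hl
        rw [hc]
        simp only [if_pos hl]
        obtain ⟨⟨hl1, _⟩, hlp⟩ := mem_PS.1 hl
        have hl0 : (0 : ℝ) < 2 ^ k := by positivity
        obtain ⟨h5, h6⟩ := H1 l hlp (lt_of_le_of_lt hz hl1)
        have h7 : B / l ≤ B / 2 ^ k := by
          apply div_le_div_of_nonneg_left hB hl0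
          exact_mod_cast hl1.le
        have h8 : |h l * ψ l| ≤ B / 2 ^ k := by
          rw [abs_mul, abs_of_nonneg h5]
          calc h l * |ψ l| ≤ h l * 1 := mul_le_mul_of_nonneg_left (hψ l) h5
            _ ≤ B / 2 ^ k := by rw [mul_one]; exact h6.trans h7
        rw [← sq_abs]
        exact pow_le_pow_left₀ (abs_nonneg _) h8 2
      refine (sum_le_sum h4).trans ?_
      rw [sum_const, nsmul_eq_mul]
      have h9 : ((PS (2 ^ k) (2 ^ (k + 1))).card : ℝ) ≤ 2 ^ k := by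
        have : (PS (2 ^ k) (2 ^ (k + 1))).card ≤ 2 ^ k := by
          unfold PS
          refine (card_filter_le _ _).trans ?_
          rw [Nat.card_Ioc, pow_succ]
          omega
        exact_mod_cast this
      calc ((PS (2 ^ k) (2 ^ (k + 1))).card : ℝ) * (B / 2 ^ k) ^ 2
          ≤ 2 ^ k * (B / 2 ^ k) ^ 2 := mul_le_mul_of_nonneg_right h9 (sq_nonneg _)
        _ = B ^ 2 / 2 ^ k := by field_simp
    · intro l _ hl
      rw [hc]
      simp only [if_neg hl]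
      norm_num
  have h4 : (((2 ^ (k + 1) + 1 : ℕ) : ℝ) + (OS R).card * ((2 * R : ℕ) : ℝ) ^ 2) ≤ 7 * 2 ^ k := by
    have h5 : 2 ^ (k + 1) + 1 + (OS R).card * (2 * R) ^ 2 ≤ 7 * 2 ^ k := by
      have h6 := card_OS R
      have h7 : (OS R).card * (2 * R) ^ 2 ≤ 4 * R ^ 3 := by
        calc (OS R).card * (2 * R) ^ 2 ≤ R * (2 * R) ^ 2 := Nat.mul_le_mul_right _ h6
          _ = 4 * R ^ 3 := by ring
      have h8 : 1 ≤ 2 ^ k := Nat.one_le_two_pow
      have h9 : 2 ^ (k + 1) = 2 * 2 ^ k := by rw [pow_succ, mul_comm]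
      omega
    exact_mod_cast h5
  have h5 : ∑ m ∈ OS R, (blk h ψ k m) ^ 2 ≤ 7 * 2 ^ k * (B ^ 2 / 2 ^ k) := by
    calc ∑ m ∈ OS R, (blk h ψ k m) ^ 2
        = ∑ m ∈ OS R, (∑ l ∈ range (2 ^ (k + 1) + 1), c l * Jr l m) ^ 2 :=
          sum_congr rfl fun m _ => by rw [h2 m]
      _ ≤ _ := h1
      _ ≤ 7 * 2 ^ k * (B ^ 2 / 2 ^ k) := by
          apply mul_le_mul h4 h3 (sum_nonneg fun _ _ => sq_nonneg _) (by positivity)
  refine h5.trans (le_of_eq ?_)
  field_simp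

/-- the number of the bad moduli for one block -/
lemma bad_card {h ψ : ℕ → ℝ} {B ε : ℝ} {z k R : ℕ} (hB : 0 ≤ B)
    (H1 : ∀ p : ℕ, p.Prime → z < p → 0 ≤ h p ∧ h p ≤ B / p) (hψ : ∀ p, |ψ p| ≤ 1)
    (hz : z ≤ 2 ^ k) (hR : R ^ 3 ≤ 2 ^ k) (hε : 0 < ε) (hk : 1 ≤ k) :
    (((OS R).filter (fun m => ε / k < |blk h ψ k m|)).card : ℝ) ≤ 7 * B ^ 2 / ε ^ 2 * (k : ℝ) ^ 2 := by
  classical
  have h1 := blk_ls hB H1 hψ hz hR
  have hk0 : (0 : ℝ) < k := by exact_mod_cast hk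
  have h2 : ∑ m ∈ (OS R).filter (fun m => ε / k < |blk h ψ k m|), (ε / k) ^ 2 ≤ 7 * B ^ 2 := by
    refine le_trans ?_ h1
    refine (sum_le_sum fun m hm => ?_).trans
      (sum_le_sum_of_subset_of_nonneg (filter_subset _ _) fun m _ _ => sq_nonneg _)
    rw [← sq_abs (blk h ψ k m)]
    exact pow_le_pow_left₀ (by positivity) (mem_filter.1 hm).2.le 2
  rw [sum_const, nsmul_eq_mul] at h2
  have h3 : (0 : ℝ) < (ε / k) ^ 2 := by positivity
  rw [← le_div_iff₀ h3] at h2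
  refine h2.trans (le_of_eq ?_)
  field_simp

/-- harmonic sums -/
lemma harm {a b : ℕ} (ha : 1 ≤ a) (hab : a ≤ b) :
    ∑ k ∈ Ico a b, (1 : ℝ) / k ≤ 2 * (Real.log b - Real.log a) := by
  induction b, hab using Nat.le_induction with
  | base => simp
  | succ n hn ih =>
    rw [sum_Ico_succ_top hn]
    have hn1 : 1 ≤ n := ha.trans hn
    have hn0 : (1 : ℝ) ≤ n := by exact_mod_cast hn1
    have h1 : Real.log n - Real.log (n + 1) ≤ -(1 / (n + 1)) := by
      rw [← Real.log_div (by linarith) (by linarith)]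
      refine (Real.log_le_sub_one_of_pos (by positivity)).trans (le_of_eq ?_)
      field_simp
      ring
    have h2 : (1 : ℝ) / n ≤ 2 * (1 / (n + 1)) := by
      rw [mul_one_div, div_le_div_iff₀ (by linarith) (by linarith)]
      linarith
    push_cast
    linarith

/-- the blocks -/
lemma sum_blk (h ψ : ℕ → ℝ) (m a b : ℕ) (hab : a ≤ b) :
    ∑ p ∈ PS (2 ^ a) (2 ^ b), h p * ψ p * Jr p m = ∑ k ∈ Ico a b, blk h ψ k m := by
  induction b, hab using Nat.le_induction with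
  | base =>
    have : PS (2 ^ a) (2 ^ a) = ∅ := by
      ext p
      rw [mem_PS]
      constructor
      · rintro ⟨⟨h1, h2⟩, _⟩
        omega
      · intro h
        exact absurd h (notMem_empty p)
    rw [this]
    simp
  | succ n hn ih =>
    rw [sum_Ico_succ_top hn, ← ih]
    unfold blk
    rw [← sum_union]
    · apply sum_congr _ fun _ _ => rfl
      have h1 : 2 ^ a ≤ 2 ^ n := Nat.pow_le_pow_right (by norm_num) hn
      have h2 : 2 ^ n ≤ 2 ^ (n + 1) := Nat.pow_le_pow_right (by norm_num) (by omega)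
      ext p
      rw [mem_union, mem_PS, mem_PS, mem_PS]
      constructor
      · rintro ⟨⟨h3, h4⟩, h5⟩
        by_cases h6 : p ≤ 2 ^ n
        · exact Or.inl ⟨⟨h3, h6⟩, h5⟩
        · exact Or.inr ⟨⟨by omega, h4⟩, h5⟩
      · rintro (⟨⟨h3, h4⟩, h5⟩ | ⟨⟨h3, h4⟩, h5⟩)
        · exact ⟨⟨h3, by omega⟩, h5⟩
        · exact ⟨⟨by omega, h4⟩, h5⟩
    · rw [disjoint_left]
      intro p hp hp'
      have h1 := (mem_PS.1 hp).1.2
      have h2 := (mem_PS.1 hp').1.1
      omega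

/-- **the saving over the odd squarefree moduli of `(R, 2 R]`** -/
theorem sav {h : ℕ → ℝ} {B C0 M θ w : ℝ} {z : ℕ} (hM : 0 < M) (hθ : 0 < θ) (hθ6 : θ ≤ 1 / 6)
    (hw : 0 < w) (hB : 0 ≤ B) (hC0 : 0 ≤ C0)
    (H1 : ∀ p : ℕ, p.Prime → z < p → 0 ≤ h p ∧ h p ≤ B / p)
    (H2 : ∀ x y : ℕ, z ≤ x → 2 ≤ x → x ≤ y →
      M * (Real.log (Real.log y) - Real.log (Real.log x)) - C0 ≤ ∑ p ∈ PS x y, h p) :
    ∃ C : ℝ, 0 ≤ C ∧ ∀ ψ : ℕ → ℝ, (∀ p, |ψ p| ≤ 1) → ∀ R y : ℕ, 1 ≤ R →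
      (R : ℝ) ^ θ ≤ Real.log y →
      ∑ m ∈ OS R, Real.exp (-(w * ∑ p ∈ PS z y, h p * (1 - ψ p * Jr p m))) ≤
        C * (R : ℝ) ^ (1 - min (1 / 2) (w * M * θ / 4)) := by
  classical
  set A : ℝ := 12 / θ + z + 4 with hA
  have hA0 : 0 < A := by positivity
  refine ⟨112 * B ^ 2 / M ^ 2 + Real.exp (w * C0) * (2 * A) ^ (w * M / 2), by positivity,
    fun ψ hψ R y hR hRy => ?_⟩
  have hRr : (1 : ℝ) ≤ R := by exact_mod_cast hR
  have hR0 : (0 : ℝ) < R := by linarith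
  have hRθ : 1 ≤ (R : ℝ) ^ θ := Real.one_le_rpow hRr hθ.le
  have hRθ2 : 1 ≤ (R : ℝ) ^ (θ / 2) := Real.one_le_rpow hRr (by positivity)
  set k1 := ⌊(R : ℝ) ^ θ⌋₊ with hk1
  set k0 := 3 * (Nat.log 2 R + 1) + z + 1 with hk0
  have hk11 : 1 ≤ k1 := by
    rw [hk1, Nat.one_le_floor_iff]
    exact hRθ
  have hk1r : (1 : ℝ) ≤ k1 := by exact_mod_cast hk11
  have hk01 : 1 ≤ k0 := by omega
  have hk0r : (1 : ℝ) ≤ k0 := by exact_mod_cast hk01
  have hk1le : (k1 : ℝ) ≤ (R : ℝ) ^ θ := Nat.floor_le (by linarith)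
  have hk1ge : (R : ℝ) ^ θ ≤ 2 * k1 := by
    have := Nat.lt_floor_add_one ((R : ℝ) ^ θ)
    rw [← hk1] at this
    linarith
  have hR3 : ∀ k, k0 ≤ k → R ^ 3 ≤ 2 ^ k := by
    intro k hk
    have h1 := Nat.lt_pow_succ_log_self (b := 2) (by norm_num) R
    calc R ^ 3 ≤ (2 ^ (Nat.log 2 R + 1)) ^ 3 := Nat.pow_le_pow_left h1.le 3
      _ = 2 ^ (3 * (Nat.log 2 R + 1)) := by rw [← pow_mul, mul_comm]
      _ ≤ 2 ^ k := Nat.pow_le_pow_right (by norm_num) (by omega)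
  have hz2 : ∀ k, k0 ≤ k → z ≤ 2 ^ k := by
    intro k hk
    calc z ≤ 2 ^ z := Nat.lt_two_pow_self.le
      _ ≤ 2 ^ k := Nat.pow_le_pow_right (by norm_num) (by omega)
  have hy0 : (0 : ℝ) < y := by
    have h1 : 0 < Real.log y := by linarith
    by_contra hcon
    have h2 : y = 0 := by
      have : (y : ℝ) ≤ 0 := not_lt.1 hcon
      exact_mod_cast le_antisymm this (Nat.cast_nonneg y)
    rw [h2] at h1
    simp at h1
  have h2y : 2 ^ k1 ≤ y := by
    have h1 : (2 : ℝ) ^ k1 ≤ y := by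
      calc (2 : ℝ) ^ k1 ≤ (Real.exp 1) ^ k1 := by
            apply pow_le_pow_left₀ (by norm_num)
            have := Real.exp_one_gt_d9
            linarith
        _ = Real.exp k1 := by rw [← Real.exp_nat_mul, mul_one]
        _ ≤ Real.exp (Real.log y) := Real.exp_le_exp.2 (hk1le.trans hRy)
        _ = y := Real.exp_log hy0
    exact_mod_cast h1
  have hk0le : (k0 : ℝ) ≤ A * (R : ℝ) ^ (θ / 2) := by
    have h1 : (Nat.log 2 R : ℝ) ≤ 2 * Real.log R := by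
      have h2 : (2 : ℝ) ^ (Nat.log 2 R) ≤ R := by
        exact_mod_cast Nat.pow_log_le_self 2 (by omega)
      have h3 := Real.log_le_log (by positivity) h2
      rw [Real.log_pow] at h3
      have h4 := Real.log_two_gt_d9
      have h5 : (0 : ℝ) ≤ Nat.log 2 R := Nat.cast_nonneg _
      nlinarith
    have h2 : Real.log R ≤ (R : ℝ) ^ (θ / 2) / (θ / 2) :=
      Real.log_le_rpow_div hR0.le (by positivity)
    have h3 : (R : ℝ) ^ (θ / 2) / (θ / 2) = 2 / θ * (R : ℝ) ^ (θ / 2) := by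
      field_simp
    have h4 : (k0 : ℝ) = 3 * ((Nat.log 2 R : ℝ) + 1) + z + 1 := by
      rw [hk0]
      push_cast
      ring
    rw [h4, hA]
    have hz0 : (0 : ℝ) ≤ z := Nat.cast_nonneg z
    rw [h3] at h2
    have h5 : (z + 4 : ℝ) ≤ (z + 4) * (R : ℝ) ^ (θ / 2) := le_mul_of_one_le_right (by linarith) hRθ2
    have h6 : (12 / θ + z + 4) * (R : ℝ) ^ (θ / 2) = 6 * (2 / θ * (R : ℝ) ^ (θ / 2)) +
      (z + 4) * (R : ℝ) ^ (θ / 2) := by ring
    rw [h6]
    linarith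
  -- the terms
  have hterm : ∀ m, ∀ p ∈ PS z y, 0 ≤ h p * (1 - ψ p * Jr p m) := by
    intro m p hp
    obtain ⟨⟨h1, _⟩, h2⟩ := mem_PS.1 hp
    refine mul_nonneg (H1 p h2 h1).1 ?_
    have h3 : |ψ p * Jr p m| ≤ 1 := by
      rw [abs_mul]
      exact mul_le_one₀ (hψ p) (abs_nonneg _) (abs_Jr_le _ _)
    linarith [(abs_le.1 h3).2]
  set T : ℕ → ℝ := fun m => ∑ p ∈ PS z y, h p * (1 - ψ p * Jr p m) with hT
  have hT0 : ∀ m, 0 ≤ T m := fun m => sum_nonneg (hterm m)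
  -- good moduli
  set ε : ℝ := M / 4 with hε
  have hε0 : 0 < ε := by positivity
  set bad : Finset ℕ := (Ico k0 k1).biUnion (fun k => (OS R).filter (fun m => ε / k < |blk h ψ k m|))
    with hbad
  have hgood : ∀ m ∈ (OS R).filter (fun m => m ∉ bad),
      M / 2 * (Real.log k1 - Real.log k0) - C0 ≤ T m := by
    intro m hm
    rw [mem_filter] at hm
    have hb : ∀ k ∈ Ico k0 k1, |blk h ψ k m| ≤ ε / k := by
      intro k hk
      by_contra hcon
      apply hm.2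
      rw [hbad, mem_biUnion]
      exact ⟨k, hk, mem_filter.2 ⟨hm.1, not_le.1 hcon⟩⟩
    rcases Nat.lt_or_ge k1 k0 with hlt | hge
    · have h1 : Real.log k1 ≤ Real.log k0 :=
        Real.log_le_log (by linarith) (by exact_mod_cast hlt.le)
      have h2 := hT0 m
      have h3 : M / 2 * (Real.log k1 - Real.log k0) ≤ 0 :=
        mul_nonpos_of_nonneg_of_nonpos (by positivity) (by linarith)
      linarith
    · have hsub : PS (2 ^ k0) (2 ^ k1) ⊆ PS z y := by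
        intro p hp
        rw [mem_PS] at hp ⊢
        exact ⟨⟨lt_of_le_of_lt (hz2 k0 le_rfl) hp.1.1, hp.1.2.trans h2y⟩, hp.2⟩
      have h1 : ∑ p ∈ PS (2 ^ k0) (2 ^ k1), h p * (1 - ψ p * Jr p m) ≤ T m :=
        sum_le_sum_of_subset_of_nonneg hsub fun p hp _ => hterm m p hp
      have h2 : ∑ p ∈ PS (2 ^ k0) (2 ^ k1), h p * (1 - ψ p * Jr p m) =
          ∑ p ∈ PS (2 ^ k0) (2 ^ k1), h p - ∑ k ∈ Ico k0 k1, blk h ψ k m := by
        rw [← sum_blk h ψ m k0 k1 hge, ← sum_sub_distrib]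
        exact sum_congr rfl fun p _ => by ring
      have h3 : ∑ k ∈ Ico k0 k1, blk h ψ k m ≤ ε * (2 * (Real.log k1 - Real.log k0)) := by
        calc ∑ k ∈ Ico k0 k1, blk h ψ k m ≤ ∑ k ∈ Ico k0 k1, ε * (1 / k) := by
              refine sum_le_sum fun k hk => ?_
              rw [mul_one_div]
              exact (le_abs_self _).trans (hb k hk)
          _ = ε * ∑ k ∈ Ico k0 k1, (1 : ℝ) / k := by rw [mul_sum]
          _ ≤ _ := mul_le_mul_of_nonneg_left (harm hk01 hge) hε0.le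
      have h4 := H2 (2 ^ k0) (2 ^ k1) (hz2 k0 le_rfl)
        (by calc 2 = 2 ^ 1 := (pow_one 2).symm
              _ ≤ 2 ^ k0 := Nat.pow_le_pow_right (by norm_num) hk01)
        (Nat.pow_le_pow_right (by norm_num) hge)
      have h5 : ∀ k : ℕ, 1 ≤ k → Real.log (Real.log ((2 ^ k : ℕ) : ℝ)) =
          Real.log k + Real.log (Real.log 2) := by
        intro k hk
        push_cast
        rw [Real.log_pow, Real.log_mul]
        · exact_mod_cast (by omega : k ≠ 0)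
        · exact (Real.log_pos (by norm_num)).ne'
      rw [h5 k1 hk11, h5 k0 hk01] at h4
      rw [hε] at h3
      linarith
  -- the number of bad moduli
  have hbadc : (bad.card : ℝ) ≤ 112 * B ^ 2 / M ^ 2 * (R : ℝ) ^ (1 / 2 : ℝ) := by
    have h1 : (bad.card : ℝ) ≤ ∑ k ∈ Ico k0 k1, 7 * B ^ 2 / ε ^ 2 * (k1 : ℝ) ^ 2 := by
      have h2 : (bad.card : ℝ) ≤ ∑ k ∈ Ico k0 k1,
          (((OS R).filter (fun m => ε / k < |blk h ψ k m|)).card : ℝ) := by
        exact_mod_cast card_biUnion_le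
      refine h2.trans (sum_le_sum fun k hk => ?_)
      rw [mem_Ico] at hk
      refine (bad_card hB H1 hψ (hz2 k hk.1) (hR3 k hk.1) hε0 (hk01.trans hk.1)).trans ?_
      apply mul_le_mul_of_nonneg_left _ (by positivity)
      exact pow_le_pow_left₀ (Nat.cast_nonneg _) (by exact_mod_cast hk.2.le) 2
    rw [sum_const, nsmul_eq_mul, Nat.card_Ico] at h1
    have h2 : ((k1 - k0 : ℕ) : ℝ) ≤ k1 := by exact_mod_cast Nat.sub_le _ _
    have h3 : (k1 : ℝ) ^ 3 ≤ (R : ℝ) ^ (1 / 2 : ℝ) := by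
      calc (k1 : ℝ) ^ 3 ≤ ((R : ℝ) ^ θ) ^ 3 := pow_le_pow_left₀ (by linarith) hk1le 3
        _ = (R : ℝ) ^ (θ * 3) := by rw [Real.rpow_mul hR0.le]; norm_num
        _ ≤ (R : ℝ) ^ (1 / 2 : ℝ) := Real.rpow_le_rpow_of_exponent_le hRr (by linarith)
    have h4 : 7 * B ^ 2 / ε ^ 2 = 112 * B ^ 2 / M ^ 2 := by
      rw [hε]
      field_simp
      ring
    rw [h4] at h1
    calc (bad.card : ℝ) ≤ ((k1 - k0 : ℕ) : ℝ) * (112 * B ^ 2 / M ^ 2 * (k1 : ℝ) ^ 2) := h1
      _ ≤ (k1 : ℝ) * (112 * B ^ 2 / M ^ 2 * (k1 : ℝ) ^ 2) :=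
          mul_le_mul_of_nonneg_right h2 (by positivity)
      _ = 112 * B ^ 2 / M ^ 2 * (k1 : ℝ) ^ 3 := by ring
      _ ≤ _ := mul_le_mul_of_nonneg_left h3 (by positivity)
  -- the value at the good moduli
  have hval : ∀ m ∈ (OS R).filter (fun m => m ∉ bad), Real.exp (-(w * T m)) ≤
      Real.exp (w * C0) * ((2 * A) ^ (w * M / 2) * (R : ℝ) ^ (-(w * M * θ / 4))) := by
    intro m hm
    have h1 := hgood m hm
    have h2 : -(w * T m) ≤ w * C0 + (w * M / 2) * (Real.log k0 - Real.log k1) := by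
      have := mul_le_mul_of_nonneg_left h1 hw.le
      nlinarith
    have h3 : Real.log k0 - Real.log k1 ≤ Real.log (2 * A * (R : ℝ) ^ (-(θ / 2))) := by
      rw [← Real.log_div (by linarith) (by linarith)]
      apply Real.log_le_log (by positivity)
      rw [div_le_iff₀ (by linarith)]
      have h4 : (R : ℝ) ^ (θ / 2) = (R : ℝ) ^ (-(θ / 2)) * (R : ℝ) ^ θ := by
        rw [← Real.rpow_add hR0]
        congr 1
        ring
      have h5 : 0 < (R : ℝ) ^ (-(θ / 2)) := Real.rpow_pos_of_pos hR0 _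
      calc (k0 : ℝ) ≤ A * (R : ℝ) ^ (θ / 2) := hk0le
        _ = A * (R : ℝ) ^ (-(θ / 2)) * (R : ℝ) ^ θ := by rw [h4]; ring
        _ ≤ A * (R : ℝ) ^ (-(θ / 2)) * (2 * k1) :=
            mul_le_mul_of_nonneg_left hk1ge (by positivity)
        _ = 2 * A * (R : ℝ) ^ (-(θ / 2)) * k1 := by ring
    have h6 : 0 < 2 * A * (R : ℝ) ^ (-(θ / 2)) := by
      have := Real.rpow_pos_of_pos hR0 (-(θ / 2))
      positivity
    calc Real.exp (-(w * T m))
        ≤ Real.exp (w * C0 + (w * M / 2) * Real.log (2 * A * (R : ℝ) ^ (-(θ / 2)))) := by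
          apply Real.exp_le_exp.2
          have := mul_le_mul_of_nonneg_left h3 (by positivity : 0 ≤ w * M / 2)
          linarith
      _ = Real.exp (w * C0) * (2 * A * (R : ℝ) ^ (-(θ / 2))) ^ (w * M / 2) := by
          rw [Real.exp_add, Real.rpow_def_of_pos h6]
          congr 2
          ring
      _ = Real.exp (w * C0) * ((2 * A) ^ (w * M / 2) * (R : ℝ) ^ (-(w * M * θ / 4))) := by
          rw [Real.mul_rpow (by positivity) (Real.rpow_nonneg hR0.le _), ← Real.rpow_mul hR0.le]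
          congr 3
          ring
  -- conclusion
  set c : ℝ := min (1 / 2) (w * M * θ / 4) with hc
  have hc1 : c ≤ 1 / 2 := min_le_left _ _
  have hc2 : c ≤ w * M * θ / 4 := min_le_right _ _
  have hbd : ∑ m ∈ (OS R).filter (fun m => m ∈ bad), Real.exp (-(w * T m)) ≤
      112 * B ^ 2 / M ^ 2 * (R : ℝ) ^ (1 - c) := by
    calc ∑ m ∈ (OS R).filter (fun m => m ∈ bad), Real.exp (-(w * T m))
        ≤ ∑ m ∈ (OS R).filter (fun m => m ∈ bad), (1 : ℝ) := by
          refine sum_le_sum fun m _ => ?_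
          rw [Real.exp_le_one_iff, neg_nonpos]
          exact mul_nonneg hw.le (hT0 m)
      _ = (((OS R).filter (fun m => m ∈ bad)).card : ℝ) := by simp
      _ ≤ (bad.card : ℝ) := by
          exact_mod_cast card_le_card (fun m hm => (mem_filter.1 hm).2)
      _ ≤ 112 * B ^ 2 / M ^ 2 * (R : ℝ) ^ (1 / 2 : ℝ) := hbadc
      _ ≤ _ := mul_le_mul_of_nonneg_left
          (Real.rpow_le_rpow_of_exponent_le hRr (by linarith)) (by positivity)
  have hgd : ∑ m ∈ (OS R).filter (fun m => m ∉ bad), Real.exp (-(w * T m)) ≤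
      Real.exp (w * C0) * (2 * A) ^ (w * M / 2) * (R : ℝ) ^ (1 - c) := by
    refine (sum_le_sum hval).trans ?_
    rw [sum_const, nsmul_eq_mul]
    have h1 : ((((OS R).filter (fun m => m ∉ bad)).card : ℕ) : ℝ) ≤ R := by
      exact_mod_cast (card_filter_le _ _).trans (card_OS R)
    have h2 : 0 ≤ (R : ℝ) ^ (-(w * M * θ / 4)) := Real.rpow_nonneg hR0.le _
    calc _ ≤ (R : ℝ) * (Real.exp (w * C0) * ((2 * A) ^ (w * M / 2) *
          (R : ℝ) ^ (-(w * M * θ / 4)))) := mul_le_mul_of_nonneg_right h1 (by positivity)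
      _ = Real.exp (w * C0) * (2 * A) ^ (w * M / 2) *
          ((R : ℝ) ^ (1 : ℝ) * (R : ℝ) ^ (-(w * M * θ / 4))) := by rw [Real.rpow_one]; ring
      _ = Real.exp (w * C0) * (2 * A) ^ (w * M / 2) * (R : ℝ) ^ (1 + -(w * M * θ / 4)) := by
          rw [← Real.rpow_add hR0]
      _ ≤ _ := mul_le_mul_of_nonneg_left
          (Real.rpow_le_rpow_of_exponent_le hRr (by linarith)) (by positivity)
  rw [← sum_filter_add_sum_filter_not (OS R) (fun m => m ∈ bad), add_mul]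
  exact add_le_add hbd hgd

end Pool.Agent.U214.PT
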