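import Mathlib
import Pool.Agent.W655.RK.Ep
import Pool.Agent.U214.PT.Sav

/-!
# Weights on the primes
-/

set_option autoImplicit false

namespace Pool.Agent.U214.PT

open Finset Pool.Agent.W262.RK
open Pool.Agent.W655.RK (PS_prime PS_lt PS_le sum_mult prod_le_exp sum_inv_sq chr chr_prod chr_abs
  exp_small prod_primes_squarefree)

/-- the multiplicative function with the values `h p` -/
noncomputable def gh (h : ℕ → ℝ) (d : ℕ) : ℝ := ∏ p ∈ d.primeFactors, h p

/-- the weights: `0 ≤ h p ≤ B / p`, with `∑ h p = M log log y + O(C0)` -/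
structure Wt (h : ℕ → ℝ) (B C0 M : ℝ) (z : ℕ) : Prop where
  M0 : 0 < M
  B0 : 0 ≤ B
  C00 : 0 ≤ C0
  nn : ∀ p : ℕ, p.Prime → z < p → 0 ≤ h p
  le : ∀ p : ℕ, p.Prime → z < p → h p ≤ B / p
  up : ∀ y : ℕ, 2 ≤ y → ∑ p ∈ PS z y, h p ≤ M * Real.log (Real.log y) + C0
  lo : ∀ x y : ℕ, z ≤ x → 2 ≤ x → x ≤ y →
    M * (Real.log (Real.log y) - Real.log (Real.log x)) - C0 ≤ ∑ p ∈ PS x y, h p

lemma Wt.mono {h : ℕ → ℝ} {B C0 M : ℝ} {z z' : ℕ} (H : Wt h B C0 M z) (hz : z ≤ z') :
    Wt h B C0 M z' where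
  M0 := H.M0
  B0 := H.B0
  C00 := H.C00
  nn := fun p hp h1 => H.nn p hp (by omega)
  le := fun p hp h1 => H.le p hp (by omega)
  up := fun y hy => by
    refine (sum_le_sum_of_subset_of_nonneg ?_ fun p hp _ => ?_).trans (H.up y hy)
    · intro p hp
      rw [mem_PS] at hp ⊢
      exact ⟨⟨by omega, hp.1.2⟩, hp.2⟩
    · exact H.nn p (PS_prime hp) (PS_lt hp)
  lo := fun x y h1 h2 h3 => H.lo x y (hz.trans h1) h2 h3

lemma gh_one (h : ℕ → ℝ) : gh h 1 = 1 := by simp [gh]

lemma gh_mul (h : ℕ → ℝ) {a b : ℕ} (hab : a.Coprime b) : gh h (a * b) = gh h a * gh h b := by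
  unfold gh
  rw [hab.primeFactors_mul, prod_union hab.disjoint_primeFactors]

variable {h : ℕ → ℝ} {B C0 M : ℝ} {z : ℕ}

lemma pf_sub {y d : ℕ} (hd : d ∈ (PP z y).divisors) : d.primeFactors ⊆ PS z y := by
  rw [← PP_primeFactors z y]
  exact Nat.primeFactors_mono (Nat.dvd_of_mem_divisors hd) (Nat.mem_divisors.1 hd).2

lemma gh_nonneg (H : Wt h B C0 M z) {w : ℝ} (hw : 0 ≤ w) {y d : ℕ}
    (hd : d ∈ (PP z y).divisors) : 0 ≤ gh (fun p => w * h p) d :=
  prod_nonneg fun p hp => mul_nonneg hw (H.nn p (PS_prime (pf_sub hd hp)) (PS_lt (pf_sub hd hp)))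

lemma wh_le (H : Wt h B C0 M z) {w : ℝ} (hw : 0 ≤ w) (hwB : w * B ≤ 1) {p : ℕ} (hp : p.Prime)
    (hz : z < p) : w * h p ≤ 1 / p := by
  calc w * h p ≤ w * (B / p) := mul_le_mul_of_nonneg_left (H.le p hp hz) hw
    _ = (w * B) / p := by ring
    _ ≤ 1 / p := div_le_div_of_nonneg_right hwB (Nat.cast_nonneg p)

lemma gh_le (H : Wt h B C0 M z) {w : ℝ} (hw : 0 ≤ w) (hwB : w * B ≤ 1) {y d : ℕ}
    (hd : d ∈ (PP z y).divisors) : gh (fun p => w * h p) d ≤ 1 / (d : ℝ) := by
  have hsq := dv_squarefree hd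
  have h0 : (1 : ℝ) / d = ∏ p ∈ d.primeFactors, (1 / (p : ℝ)) := by
    rw [prod_div_distrib, prod_const_one]
    congr 1
    rw [← Nat.cast_prod, Nat.prod_primeFactors_of_squarefree hsq]
  rw [h0]
  unfold gh
  refine prod_le_prod (fun p hp => ?_) fun p hp => ?_
  · exact mul_nonneg hw (H.nn p (PS_prime (pf_sub hd hp)) (PS_lt (pf_sub hd hp)))
  · exact wh_le H hw hwB (PS_prime (pf_sub hd hp)) (PS_lt (pf_sub hd hp))

lemma gh_hh (f : ℕ → ℝ) (d : ℕ) : gh f d * hh d =
    ∏ p ∈ d.primeFactors, (f p * (1 + 2 / (p : ℝ))) := by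
  unfold gh hh
  rw [Finset.prod_mul_distrib]

/-- the sums of the weights over all, the small and the large divisors -/
theorem fullW (H : Wt h B C0 M z) {w : ℝ} (hw : 0 < w) (hwB : w * B ≤ 1) (hz : 3 ≤ z) (N : ℕ)
    (hN : 3 * (w * M) ≤ N) : ∃ C : ℝ, 0 ≤ C ∧
  (∀ y, z < y → ∑ d ∈ (PP z y).divisors, gh (fun p => w * h p) d * hh d ≤
    C * (Real.log y) ^ (w * M)) ∧
  (∀ y V : ℕ, z < y → 2 ≤ V →
    ∑ d ∈ (PP z y).divisors.filter (fun d => d ≤ V), gh (fun p => w * h p) d * hh d ≤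
      C * (Real.log V) ^ (w * M)) ∧
  (∀ y Y : ℕ, z < y → 1 ≤ Y →
    ∑ d ∈ (PP z y).divisors.filter (fun d => Y < d), gh (fun p => w * h p) d * hh d ≤
      C * Real.exp (-(Real.log Y / Real.log y)) * (Real.log y) ^ N) := by
  obtain ⟨K, hK, hsq⟩ := sum_inv_sq
  have hM := H.M0
  have hC0 := H.C00
  set φ : ℕ → ℝ := fun p => w * h p * (1 + 2 / (p : ℝ)) with hφ
  set B' : ℝ := w * C0 + 2 * K with hB
  have hB0 : 0 ≤ B' := by positivity
  have hwn : ∀ p : ℕ, p.Prime → z < p → 0 ≤ w * h p := fun p hp h1 =>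
    mul_nonneg hw.le (H.nn p hp h1)
  have hφ0 : ∀ y, ∀ p ∈ PS z y, 0 ≤ φ p := fun y p hp =>
    mul_nonneg (hwn p (PS_prime hp) (PS_lt hp)) (by positivity)
  have hφ1 : ∀ y, ∀ p ∈ PS z y, φ p ≤ w * h p + 2 * (1 / (p : ℝ) ^ 2) := by
    intro y p hp
    have h1 := wh_le H hw.le hwB (PS_prime hp) (PS_lt hp)
    have hp0 : (0 : ℝ) < p := by exact_mod_cast (PS_prime hp).pos
    have h2 : w * h p * (2 / p) ≤ 1 / p * (2 / p) := mul_le_mul_of_nonneg_right h1 (by positivity)
    have h3 : 1 / (p : ℝ) * (2 / p) = 2 * (1 / (p : ℝ) ^ 2) := by field_simp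
    rw [hφ]
    simp only
    rw [mul_add, mul_one]
    linarith
  have hsum : ∀ y : ℕ, 2 ≤ y → ∑ p ∈ PS z y, φ p ≤ w * M * Real.log (Real.log y) + B' := by
    intro y hy
    calc ∑ p ∈ PS z y, φ p ≤ ∑ p ∈ PS z y, (w * h p + 2 * (1 / (p : ℝ) ^ 2)) :=
          Finset.sum_le_sum (hφ1 y)
      _ = w * ∑ p ∈ PS z y, h p + 2 * ∑ p ∈ PS z y, 1 / (p : ℝ) ^ 2 := by
          rw [Finset.sum_add_distrib, Finset.mul_sum, Finset.mul_sum]
      _ ≤ w * (M * Real.log (Real.log y) + C0) + 2 * K := by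
          refine add_le_add (mul_le_mul_of_nonneg_left (H.up y hy) hw.le)
            (mul_le_mul_of_nonneg_left (hsq _) (by positivity))
      _ = _ := by rw [hB]; ring
  have hlog : ∀ y : ℕ, 2 ≤ y → 0 < Real.log y := fun y hy =>
    Real.log_pos (by exact_mod_cast (by omega : 1 < y))
  have main : ∀ y : ℕ, 2 ≤ y → ∑ d ∈ (PP z y).divisors, gh (fun p => w * h p) d * hh d ≤
      Real.exp B' * (Real.log y) ^ (w * M) := by
    intro y hy
    simp only [gh_hh]
    unfold PP
    rw [sum_mult (PS z y) (fun p hp => PS_prime hp) φ]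
    refine (prod_le_exp _ _ fun p hp => by have := hφ0 y p hp; linarith).trans ?_
    rw [Real.rpow_def_of_pos (hlog y hy), ← Real.exp_add, Real.exp_le_exp]
    have := hsum y hy
    linarith
  have hnn : ∀ d : ℕ, (∀ p ∈ d.primeFactors, z < p) → 0 ≤ gh (fun p => w * h p) d * hh d := by
    intro d hd
    rw [gh_hh]
    exact Finset.prod_nonneg fun p hp => mul_nonneg
      (hwn p (Nat.prime_of_mem_primeFactors hp) (hd p hp)) (by positivity)
  refine ⟨Real.exp (3 * (B' + 1)), (Real.exp_pos _).le, ?_, ?_, ?_⟩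
  · intro y hy
    refine (main y (by omega)).trans ?_
    refine mul_le_mul_of_nonneg_right ?_ (Real.rpow_nonneg (hlog y (by omega)).le _)
    rw [Real.exp_le_exp]
    linarith
  · intro y V hy hV
    have hsub : (PP z y).divisors.filter (fun d => d ≤ V) ⊆ (PP z (min y V)).divisors := by
      intro d hd
      rw [mem_filter] at hd
      have h1 := pf_sub hd.1
      have hd0 : d ≠ 0 := (Nat.pos_of_mem_divisors hd.1).ne'
      have h2 : Squarefree d := dv_squarefree hd.1
      rw [Nat.mem_divisors]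
      refine ⟨?_, PP_ne_zero _ _⟩
      rw [← Nat.prod_primeFactors_of_squarefree h2]
      refine Finset.prod_dvd_prod_of_subset _ _ _ fun p hp => ?_
      have h3 := h1 hp
      have h4 : p ≤ d := Nat.le_of_mem_primeFactors hp
      exact mem_filter.2 ⟨mem_Ioc.2 ⟨PS_lt h3, le_min (PS_le h3) (h4.trans hd.2)⟩, PS_prime h3⟩
    have h1 : ∑ d ∈ (PP z y).divisors.filter (fun d => d ≤ V), gh (fun p => w * h p) d * hh d ≤
        ∑ d ∈ (PP z (min y V)).divisors, gh (fun p => w * h p) d * hh d := by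
      refine Finset.sum_le_sum_of_subset_of_nonneg hsub fun d hd _ => hnn d fun p hp => ?_
      exact PS_lt (pf_sub hd hp)
    have hmin2 : 2 ≤ min y V := le_min (by omega) hV
    refine h1.trans ((main _ hmin2).trans ?_)
    have h2 : (Real.log (min y V : ℕ)) ^ (w * M) ≤ (Real.log V) ^ (w * M) := by
      refine Real.rpow_le_rpow (hlog _ hmin2).le ?_ (by positivity)
      exact Real.log_le_log (by exact_mod_cast (by omega : 0 < min y V))
        (by exact_mod_cast min_le_right y V)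
    refine mul_le_mul ?_ h2 (Real.rpow_nonneg (hlog _ hmin2).le _) (Real.exp_pos _).le
    rw [Real.exp_le_exp]
    linarith
  · intro y Y hy hY
    have hy3 : 3 ≤ y := by omega
    have hly := hlog y (by omega)
    have hly1 : 1 ≤ Real.log y := by
      rw [Real.le_log_iff_exp_le (by positivity)]
      have := Real.exp_one_lt_d9
      have h3 : (3:ℝ) ≤ y := by exact_mod_cast hy3
      linarith
    have hY0 : (0:ℝ) < Y := by exact_mod_cast hY
    set ψ : ℕ → ℝ := fun p => φ p * Real.exp (Real.log p / Real.log y) with hψ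
    have hterm : ∀ d ∈ (PP z y).divisors.filter (fun d => Y < d), gh (fun p => w * h p) d * hh d ≤
        Real.exp (-(Real.log Y / Real.log y)) * ∏ p ∈ d.primeFactors, ψ p := by
      intro d hd
      rw [mem_filter] at hd
      have h1 := pf_sub hd.1
      have hd0 : 0 < d := Nat.pos_of_mem_divisors hd.1
      have h2 : Squarefree d := dv_squarefree hd.1
      have h3 : ∏ p ∈ d.primeFactors, Real.exp (Real.log p / Real.log y) =
          Real.exp (Real.log d / Real.log y) := by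
        rw [← Real.exp_sum, ← Finset.sum_div, ← Real.log_prod]
        · congr 3
          conv_rhs => rw [← Nat.prod_primeFactors_of_squarefree h2]
          push_cast
          rfl
        · intro p hp
          exact_mod_cast (Nat.prime_of_mem_primeFactors hp).ne_zero
      rw [hψ, Finset.prod_mul_distrib, h3, gh_hh]
      have h4 : 0 ≤ ∏ p ∈ d.primeFactors, φ p :=
        Finset.prod_nonneg fun p hp => hφ0 y p (h1 hp)
      have h5 : 1 ≤ Real.exp (-(Real.log Y / Real.log y)) * Real.exp (Real.log d / Real.log y) := by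
        rw [← Real.exp_add]
        apply Real.one_le_exp
        rw [neg_add_eq_sub, ← sub_div]
        refine div_nonneg (sub_nonneg.2 (Real.log_le_log hY0 ?_)) hly.le
        exact_mod_cast hd.2.le
      calc ∏ p ∈ d.primeFactors, φ p = (∏ p ∈ d.primeFactors, φ p) * 1 := (mul_one _).symm
        _ ≤ (∏ p ∈ d.primeFactors, φ p) * (Real.exp (-(Real.log Y / Real.log y)) *
            Real.exp (Real.log d / Real.log y)) := mul_le_mul_of_nonneg_left h5 h4
        _ = _ := by ring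
    have hψ0 : ∀ p ∈ PS z y, 0 ≤ ψ p := fun p hp => mul_nonneg (hφ0 y p hp) (Real.exp_pos _).le
    have hψe : ∀ p ∈ PS z y, ψ p ≤ φ p * Real.exp 1 := by
      intro p hp
      refine mul_le_mul_of_nonneg_left ?_ (hφ0 y p hp)
      rw [Real.exp_le_exp, div_le_one hly]
      exact Real.log_le_log (by exact_mod_cast (PS_prime hp).pos) (by exact_mod_cast PS_le hp)
    calc ∑ d ∈ (PP z y).divisors.filter (fun d => Y < d), gh (fun p => w * h p) d * hh d
        ≤ ∑ d ∈ (PP z y).divisors.filter (fun d => Y < d),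
            Real.exp (-(Real.log Y / Real.log y)) * ∏ p ∈ d.primeFactors, ψ p :=
          Finset.sum_le_sum hterm
      _ ≤ ∑ d ∈ (PP z y).divisors,
            Real.exp (-(Real.log Y / Real.log y)) * ∏ p ∈ d.primeFactors, ψ p := by
          refine Finset.sum_le_sum_of_subset_of_nonneg (filter_subset _ _) fun d hd _ => ?_
          exact mul_nonneg (Real.exp_pos _).le (Finset.prod_nonneg fun p hp => hψ0 p (pf_sub hd hp))
      _ = Real.exp (-(Real.log Y / Real.log y)) * ∏ p ∈ PS z y, (1 + ψ p) := by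
          rw [← Finset.mul_sum]
          congr 1
          exact sum_mult (PS z y) (fun p hp => PS_prime hp) ψ
      _ ≤ Real.exp (-(Real.log Y / Real.log y)) *
            (Real.exp (3 * (B' + 1)) * (Real.log y) ^ N) := by
          refine mul_le_mul_of_nonneg_left ?_ (Real.exp_pos _).le
          refine (prod_le_exp _ _ fun p hp => by have := hψ0 p hp; linarith).trans ?_
          have h6 : (Real.log y) ^ N = Real.exp (N * Real.log (Real.log y)) := by
            rw [← Real.rpow_natCast, Real.rpow_def_of_pos hly, mul_comm]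
          rw [h6, ← Real.exp_add, Real.exp_le_exp]
          have h7 : ∑ p ∈ PS z y, ψ p ≤ (w * M * Real.log (Real.log y) + B') * Real.exp 1 := by
            calc ∑ p ∈ PS z y, ψ p ≤ ∑ p ∈ PS z y, φ p * Real.exp 1 := Finset.sum_le_sum hψe
              _ = (∑ p ∈ PS z y, φ p) * Real.exp 1 := by rw [Finset.sum_mul]
              _ ≤ _ := mul_le_mul_of_nonneg_right (hsum y (by omega)) (Real.exp_pos _).le
          have h8 : 0 ≤ Real.log (Real.log y) := Real.log_nonneg hly1
          have h9 := Real.exp_one_lt_d9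
          have h10 : w * M * Real.exp 1 ≤ N := by
            have : 0 < w * M := by positivity
            nlinarith [Real.exp_pos 1]
          have h11 : w * M * Real.log (Real.log y) * Real.exp 1 ≤ N * Real.log (Real.log y) := by
            calc w * M * Real.log (Real.log y) * Real.exp 1 =
                (w * M * Real.exp 1) * Real.log (Real.log y) := by ring
              _ ≤ _ := mul_le_mul_of_nonneg_right h10 h8
          have h12 : B' * Real.exp 1 ≤ 3 * B' := by nlinarith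
          linarith
      _ = _ := by ring

/-- the twisted Euler product -/
theorem epW (H : Wt h B C0 M z) {w : ℝ} (hw : 0 < w) (hwB : w * B ≤ 1) (hz : 3 ≤ z) (κ : ℤ)
    (y R r : ℕ) (e : Bool) (hy : z < y) (hR : R ≠ 0) :
    |∑ d ∈ (PP z y).divisors.filter (fun d => d.Coprime R),
        gh (fun p => w * h p) d * (Jr d r * Jr κ d * x4 e d)| ≤
      Real.exp (w * C0) * (Real.log y) ^ (w * M) *
        Real.exp (-(w * ∑ p ∈ PS z y, h p * (1 - Jr p r * Jr κ p * x4 e p))) * hh R := by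
  classical
  have hlog : 0 < Real.log y := Real.log_pos (by exact_mod_cast (by omega : 1 < y))
  set S' := (PS z y).filter (fun p => ¬ p ∣ R) with hS'
  have hS'p : ∀ p ∈ S', p.Prime := fun p hp => PS_prime (mem_filter.1 hp).1
  have hset : (PP z y).divisors.filter (fun d => d.Coprime R) = (∏ p ∈ S', p).divisors := by
    have hsq1 := prod_primes_squarefree (PS z y) fun p hp => PS_prime hp
    have hsq2 := prod_primes_squarefree S' hS'p
    ext d
    rw [mem_filter, Nat.mem_divisors, Nat.mem_divisors]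
    constructor
    · rintro ⟨⟨hd, -⟩, hc⟩
      refine ⟨?_, hsq2.ne_zero⟩
      have hsd : Squarefree d := hsq1.squarefree_of_dvd hd
      rw [← Nat.prod_primeFactors_of_squarefree hsd]
      refine Finset.prod_dvd_prod_of_subset _ _ _ fun p hp => ?_
      have hpp := Nat.prime_of_mem_primeFactors hp
      have hpd := Nat.dvd_of_mem_primeFactors hp
      have h1 : p ∈ PS z y := by
        rw [← Nat.primeFactors_prod (s := PS z y) fun p hp => PS_prime hp]
        exact Nat.primeFactors_mono hd hsq1.ne_zero hp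
      refine mem_filter.2 ⟨h1, fun hpR => ?_⟩
      have := Nat.dvd_gcd hpd hpR
      rw [hc.gcd_eq_one] at this
      exact hpp.one_lt.ne' (Nat.dvd_one.1 this)
    · rintro ⟨hd, -⟩
      refine ⟨⟨hd.trans (Finset.prod_dvd_prod_of_subset _ _ _ (filter_subset _ _)),
        hsq1.ne_zero⟩, ?_⟩
      refine Nat.Coprime.coprime_dvd_left hd ?_
      exact Nat.Coprime.prod_left fun p hp =>
        ((hS'p p hp).coprime_iff_not_dvd).2 (mem_filter.1 hp).2
  set φ : ℕ → ℝ := fun p => w * h p * chr κ r e p with hφ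
  have hsum : ∑ d ∈ (PP z y).divisors.filter (fun d => d.Coprime R),
      gh (fun p => w * h p) d * (Jr d r * Jr κ d * x4 e d) = ∏ p ∈ S', (1 + φ p) := by
    rw [hset, ← sum_mult S' hS'p φ]
    refine Finset.sum_congr rfl fun d hd => ?_
    have hsd : Squarefree d :=
      (prod_primes_squarefree S' hS'p).squarefree_of_dvd (Nat.dvd_of_mem_divisors hd)
    show gh (fun p => w * h p) d * chr κ r e d = _
    have h1 : chr κ r e d = ∏ p ∈ d.primeFactors, chr κ r e p := by
      rw [← chr_prod κ r e _ fun p hp => Nat.prime_of_mem_primeFactors hp,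
        Nat.prod_primeFactors_of_squarefree hsd]
    rw [h1, gh, ← Finset.prod_mul_distrib]
  rw [hsum]
  have hwh : ∀ p ∈ PS z y, 0 ≤ w * h p ∧ w * h p ≤ 1 / p ∧ (1 : ℝ) / p ≤ 1 / 2 := by
    intro p hp
    refine ⟨mul_nonneg hw.le (H.nn p (PS_prime hp) (PS_lt hp)),
      wh_le H hw.le hwB (PS_prime hp) (PS_lt hp), ?_⟩
    apply one_div_le_one_div_of_le (by norm_num)
    exact_mod_cast (PS_prime hp).two_le
  have habs : ∀ p ∈ PS z y, |φ p| ≤ w * h p := by
    intro p hp
    rw [hφ]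
    simp only
    rw [abs_mul, abs_of_nonneg (hwh p hp).1]
    exact mul_le_of_le_one_right (hwh p hp).1 (chr_abs κ r e p)
  have hfac : ∀ p ∈ S', 0 ≤ 1 + φ p := by
    intro p hp
    have h1 := (abs_le.1 (habs p (mem_filter.1 hp).1)).1
    obtain ⟨h2, h3, h4⟩ := hwh p (mem_filter.1 hp).1
    linarith
  rw [abs_of_nonneg (Finset.prod_nonneg hfac)]
  refine (prod_le_exp S' φ hfac).trans ?_
  have hexp : ∑ p ∈ S', φ p ≤ (w * C0 + w * M * Real.log (Real.log y) +
      -(w * ∑ p ∈ PS z y, h p * (1 - Jr p r * Jr κ p * x4 e p))) +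
      ∑ p ∈ (PS z y).filter (fun p => p ∣ R), w * h p := by
    have hsplit := Finset.sum_filter_add_sum_filter_not (PS z y) (fun p => p ∣ R) φ
    have h1 : -∑ p ∈ (PS z y).filter (fun p => p ∣ R), w * h p ≤
        ∑ p ∈ (PS z y).filter (fun p => p ∣ R), φ p := by
      rw [← Finset.sum_neg_distrib]
      exact Finset.sum_le_sum fun p hp => (abs_le.1 (habs p (mem_filter.1 hp).1)).1
    have h2 : ∑ p ∈ PS z y, φ p = w * ∑ p ∈ PS z y, h p -
        w * ∑ p ∈ PS z y, h p * (1 - Jr p r * Jr κ p * x4 e p) := by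
      rw [← mul_sub, ← sum_sub_distrib, mul_sum]
      refine sum_congr rfl fun p _ => ?_
      rw [hφ]
      simp only
      unfold chr
      ring
    have h3 := mul_le_mul_of_nonneg_left (H.up y (by omega)) hw.le
    have h4 : w * (M * Real.log (Real.log y) + C0) = w * C0 + w * M * Real.log (Real.log y) := by
      ring
    linarith
  have hhh : Real.exp (∑ p ∈ (PS z y).filter (fun p => p ∣ R), w * h p) ≤ hh R := by
    rw [Real.exp_sum]
    unfold hh
    have hsub : (PS z y).filter (fun p => p ∣ R) ⊆ R.primeFactors := by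
      intro p hp
      rw [mem_filter] at hp
      exact Nat.mem_primeFactors.2 ⟨PS_prime hp.1, hp.2, hR⟩
    calc ∏ p ∈ (PS z y).filter (fun p => p ∣ R), Real.exp (w * h p)
        ≤ ∏ p ∈ (PS z y).filter (fun p => p ∣ R), (1 + 2 / (p : ℝ)) := by
          refine Finset.prod_le_prod (fun p _ => (Real.exp_pos _).le) fun p hp => ?_
          obtain ⟨h2, h3, h4⟩ := hwh p (mem_filter.1 hp).1
          refine (exp_small _ h2 (h3.trans h4)).trans ?_
          have h5 : 2 / (p : ℝ) = 2 * (1 / p) := by ring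
          rw [h5]
          linarith
      _ ≤ ∏ p ∈ R.primeFactors, (1 + 2 / (p : ℝ)) := by
          refine Finset.prod_le_prod_of_subset_of_one_le hsub (fun p _ => by positivity)
            fun p _ _ => ?_
          have : (0:ℝ) ≤ 2 / (p : ℝ) := by positivity
          linarith
  calc Real.exp (∑ p ∈ S', φ p) ≤ Real.exp ((w * C0 + w * M * Real.log (Real.log y) +
      -(w * ∑ p ∈ PS z y, h p * (1 - Jr p r * Jr κ p * x4 e p))) +
      ∑ p ∈ (PS z y).filter (fun p => p ∣ R), w * h p) := Real.exp_le_exp.2 hexp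
    _ = Real.exp (w * C0) * (Real.log y) ^ (w * M) *
        Real.exp (-(w * ∑ p ∈ PS z y, h p * (1 - Jr p r * Jr κ p * x4 e p))) *
        Real.exp (∑ p ∈ (PS z y).filter (fun p => p ∣ R), w * h p) := by
        rw [Real.rpow_def_of_pos hlog, ← Real.exp_add, ← Real.exp_add, ← Real.exp_add]
        congr 1
        ring
    _ ≤ _ := mul_le_mul_of_nonneg_left hhh (by positivity)

/-- `hh` is small -/
lemma hh_le {η : ℝ} (hη : 0 < η) (hz : 2 / η ≤ z) (hz3 : 3 ≤ z) {y m : ℕ}
    (hm : m ∈ (PP z y).divisors) : hh m ≤ (m : ℝ) ^ η := by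
  have h0 : (m : ℝ) ^ η = ∏ p ∈ m.primeFactors, (p : ℝ) ^ η := by
    conv_lhs => rw [← Nat.prod_primeFactors_of_squarefree (dv_squarefree hm)]
    push_cast
    rw [← Real.finsetProd_rpow _ _ fun p _ => Nat.cast_nonneg p]
  rw [h0]
  unfold hh
  refine prod_le_prod (fun p _ => by positivity) fun p hp => ?_
  have h1 := PS_lt (pf_sub hm hp)
  have hp3 : (3 : ℝ) ≤ p := by exact_mod_cast (by omega : 3 ≤ p)
  have hp0 : (0 : ℝ) < p := by linarith
  have hzp : (z : ℝ) ≤ p := by exact_mod_cast h1.le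
  have h2 : 2 / (p : ℝ) ≤ η := by
    have h3 : 2 / η ≤ p := hz.trans hzp
    rw [div_le_iff₀ hη] at h3
    rw [div_le_iff₀ hp0]
    linarith
  have hl : 1 ≤ Real.log p := by
    rw [Real.le_log_iff_exp_le hp0]
    have := Real.exp_one_lt_d9
    linarith
  rw [Real.rpow_def_of_pos hp0]
  have h4 := Real.add_one_le_exp (Real.log p * η)
  have h5 : η ≤ Real.log p * η := le_mul_of_one_le_left hη.le hl
  linarith

/-- **the weighted saving** -/
theorem sav2 {θ w : ℝ} (H : Wt h B C0 M z) (hθ : 0 < θ) (hθ6 : θ ≤ 1 / 6) (hw : 0 < w)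
    (hz : 8 / min (1 / 2) (w * M * θ / 4) ≤ z) (hz3 : 3 ≤ z) :
    ∃ C : ℝ, 0 ≤ C ∧ ∀ ψ : ℕ → ℝ, (∀ p, |ψ p| ≤ 1) → ∀ V y m0 : ℕ, z < y → 1 ≤ m0 →
      (V : ℝ) ^ θ ≤ Real.log y →
      ∑ m ∈ (PP z y).divisors.filter (fun m => 1 < m ∧ m0 ≤ m ∧ m ≤ V), hh m / m *
        Real.exp (-(w * ∑ p ∈ PS z y, h p * (1 - ψ p * Jr p m))) ≤
        C * (m0 : ℝ) ^ (-(min (1 / 2) (w * M * θ / 4) / 2)) := by
  classical
  have hM := H.M0
  obtain ⟨C, hC0, hC⟩ := sav hM hθ hθ6 hw H.B0 H.C00 (fun p hp h1 => ⟨H.nn p hp h1, H.le p hp h1⟩)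
    H.lo
  set c : ℝ := min (1 / 2) (w * M * θ / 4) with hc
  have hc0 : 0 < c := lt_min (by norm_num) (by positivity)
  have hc1 : c ≤ 1 / 2 := min_le_left _ _
  set q : ℝ := (2 : ℝ) ^ (-(c / 4)) with hq
  have hq0 : 0 < q := by positivity
  have hq1 : q < 1 := Real.rpow_lt_one_of_one_lt_of_neg (by norm_num) (by linarith)
  refine ⟨C * 2 ^ (c / 4) * 2 ^ (c / 2) / (1 - q), by
    have : 0 < 1 - q := by linarith
    positivity, fun ψ hψ V y m0 hy hm0 hV => ?_⟩
  set F : ℕ → ℝ := fun m => hh m / m *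
        Real.exp (-(w * ∑ p ∈ PS z y, h p * (1 - ψ p * Jr p m))) with hF
  have hF0 : ∀ m, 0 ≤ F m := fun m => mul_nonneg (div_nonneg (hh_nonneg m) (Nat.cast_nonneg m))
    (Real.exp_pos _).le
  set S := (PP z y).divisors.filter (fun m => 1 < m ∧ m0 ≤ m ∧ m ≤ V) with hS
  set N := V with hN
  set D : ℕ → Finset ℕ := fun j => S.filter (fun m => m ∈ OS (2 ^ j)) with hD
  have hcov : S ⊆ (range N).biUnion D := by
    intro m hm
    have hm' := mem_filter.1 hm
    obtain ⟨hm1, hm2, hm3, hm4⟩ := hm'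
    have h1 : 2 ^ Nat.log 2 (m - 1) ≤ m - 1 := Nat.pow_log_le_self 2 (by omega)
    have h2 := Nat.lt_pow_succ_log_self (b := 2) (by norm_num) (m - 1)
    rw [mem_biUnion]
    refine ⟨Nat.log 2 (m - 1), ?_, ?_⟩
    · rw [mem_range]
      have h3 : Nat.log 2 (m - 1) < 2 ^ Nat.log 2 (m - 1) := Nat.lt_two_pow_self
      omega
    · rw [hD, mem_filter]
      refine ⟨hm, ?_⟩
      unfold OS
      rw [mem_filter, mem_Ioc]
      refine ⟨⟨by omega, ?_⟩, dv_odd (by omega) hm1, dv_squarefree hm1⟩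
      rw [pow_succ] at h2
      omega
  have hblock : ∀ j ∈ range N, ∑ m ∈ D j, F m ≤
      (C * 2 ^ (c / 4) * 2 ^ (c / 2) * (m0 : ℝ) ^ (-(c / 2))) * q ^ j := by
    intro j _
    rcases (D j).eq_empty_or_nonempty with hE | hE
    · rw [hE, sum_empty]
      positivity
    obtain ⟨m1, hm1⟩ := hE
    rw [hD, mem_filter] at hm1
    obtain ⟨hm1S, hm1O⟩ := hm1
    have hm1' := mem_filter.1 hm1S
    unfold OS at hm1O
    rw [mem_filter, mem_Ioc] at hm1O
    set R : ℕ := 2 ^ j with hR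
    have hR1 : 1 ≤ R := Nat.one_le_two_pow
    have hRr : (1 : ℝ) ≤ R := by exact_mod_cast hR1
    have hR0 : (0 : ℝ) < R := by linarith
    have hRV : (R : ℝ) ^ θ ≤ Real.log y := by
      refine le_trans ?_ hV
      apply Real.rpow_le_rpow hR0.le _ hθ.le
      exact_mod_cast (by omega : R ≤ V)
    have hm0R : (m0 : ℝ) ≤ 2 * R := by exact_mod_cast (by omega : m0 ≤ 2 * R)
    have h1 : ∀ m ∈ D j, F m ≤ (2 * (R : ℝ)) ^ (c / 4) / R *
        Real.exp (-(w * ∑ p ∈ PS z y, h p * (1 - ψ p * Jr p m))) := by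
      intro m hm
      rw [hD, mem_filter] at hm
      have hmS := mem_filter.1 hm.1
      have hmO := hm.2
      unfold OS at hmO
      rw [mem_filter, mem_Ioc] at hmO
      have h2 : hh m ≤ (m : ℝ) ^ (c / 4) := hh_le (by positivity) (by
        refine le_trans (le_of_eq ?_) hz
        field_simp
        norm_num) hz3 hmS.1
      have h3 : (m : ℝ) ^ (c / 4) ≤ (2 * (R : ℝ)) ^ (c / 4) := by
        apply Real.rpow_le_rpow (Nat.cast_nonneg m) _ (by positivity)
        exact_mod_cast hmO.1.2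
      have h4 : hh m / m ≤ (2 * (R : ℝ)) ^ (c / 4) / R := by
        apply div_le_div₀ (by positivity) (h2.trans h3) hR0
        exact_mod_cast hmO.1.1.le
      exact mul_le_mul_of_nonneg_right h4 (Real.exp_pos _).le
    refine (sum_le_sum h1).trans ?_
    rw [← mul_sum]
    have h2 : ∑ m ∈ D j, Real.exp (-(w * ∑ p ∈ PS z y, h p * (1 - ψ p * Jr p m))) ≤
        C * (R : ℝ) ^ (1 - c) := by
      refine le_trans ?_ (hC ψ hψ R y hR1 hRV)
      refine sum_le_sum_of_subset_of_nonneg ?_ fun m _ _ => (Real.exp_pos _).le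
      intro m hm
      exact (mem_filter.1 hm).2
    have e1 : q ^ j = (R : ℝ) ^ (-(c / 4)) := by
      rw [hq, hR]
      push_cast
      rw [← Real.rpow_natCast, ← Real.rpow_mul (by norm_num), ← Real.rpow_natCast 2 j,
        ← Real.rpow_mul (by norm_num)]
      congr 1
      ring
    have e2 : (R : ℝ) ^ (-(c / 2)) ≤ 2 ^ (c / 2) * (m0 : ℝ) ^ (-(c / 2)) := by
      have hm00 : (0 : ℝ) < m0 := by exact_mod_cast hm0
      have h3 : (2 * (R : ℝ)) ^ (-(c / 2)) ≤ (m0 : ℝ) ^ (-(c / 2)) :=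
        Real.rpow_le_rpow_of_nonpos hm00 hm0R (by linarith)
      rw [Real.mul_rpow (by norm_num) hR0.le] at h3
      calc (R : ℝ) ^ (-(c / 2)) = 2 ^ (c / 2) * ((2 : ℝ) ^ (-(c / 2)) * (R : ℝ) ^ (-(c / 2))) := by
            rw [← mul_assoc, ← Real.rpow_add (by norm_num)]
            simp
        _ ≤ _ := mul_le_mul_of_nonneg_left h3 (by positivity)
    calc (2 * (R : ℝ)) ^ (c / 4) / R *
          ∑ m ∈ D j, Real.exp (-(w * ∑ p ∈ PS z y, h p * (1 - ψ p * Jr p m)))
        ≤ (2 * (R : ℝ)) ^ (c / 4) / R * (C * (R : ℝ) ^ (1 - c)) :=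
          mul_le_mul_of_nonneg_left h2 (by positivity)
      _ = C * 2 ^ (c / 4) * ((R : ℝ) ^ (c / 4) * (R : ℝ) ^ (-1 : ℝ) * (R : ℝ) ^ (1 - c)) := by
          rw [Real.mul_rpow (by norm_num) hR0.le, Real.rpow_neg_one]
          ring
      _ = C * 2 ^ (c / 4) * ((R : ℝ) ^ (-(c / 2)) * (R : ℝ) ^ (-(c / 4))) := by
          rw [← Real.rpow_add hR0, ← Real.rpow_add hR0, ← Real.rpow_add hR0]
          congr 2
          ring
      _ ≤ C * 2 ^ (c / 4) * ((2 ^ (c / 2) * (m0 : ℝ) ^ (-(c / 2))) * (R : ℝ) ^ (-(c / 4))) := by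
          apply mul_le_mul_of_nonneg_left _ (by positivity)
          exact mul_le_mul_of_nonneg_right e2 (Real.rpow_nonneg hR0.le _)
      _ = _ := by rw [e1]; ring
  have hgeo : ∑ j ∈ range N, q ^ j ≤ 1 / (1 - q) := by
    rw [geom_sum_eq hq1.ne]
    have h1 : 0 < 1 - q := by linarith
    have h2 : (q ^ N - 1) / (q - 1) = (1 - q ^ N) / (1 - q) := by
      rw [← neg_div_neg_eq]
      congr 1 <;> ring
    rw [h2]
    apply div_le_div_of_nonneg_right _ h1.le
    have : 0 ≤ q ^ N := by positivity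
    linarith
  calc ∑ m ∈ S, F m ≤ ∑ m ∈ S, ∑ j ∈ range N, (if m ∈ D j then F m else 0) := by
        refine sum_le_sum fun m hm => ?_
        obtain ⟨j, hj, hmj⟩ := mem_biUnion.1 (hcov hm)
        refine le_trans (le_of_eq ?_) (single_le_sum
          (f := fun j => if m ∈ D j then F m else 0) (fun i _ => ?_) hj)
        · simp only [hmj, if_true]
        · split_ifs
          · exact hF0 m
          · exact le_refl _
    _ = ∑ j ∈ range N, ∑ m ∈ D j, F m := by
        rw [sum_comm]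
        refine sum_congr rfl fun j _ => ?_
        rw [← sum_filter]
        congr 1
        ext m
        simp only [hD, mem_filter]
        tauto
    _ ≤ ∑ j ∈ range N, (C * 2 ^ (c / 4) * 2 ^ (c / 2) * (m0 : ℝ) ^ (-(c / 2))) * q ^ j :=
        sum_le_sum hblock
    _ = (C * 2 ^ (c / 4) * 2 ^ (c / 2) * (m0 : ℝ) ^ (-(c / 2))) * ∑ j ∈ range N, q ^ j := by
        rw [mul_sum]
    _ ≤ (C * 2 ^ (c / 4) * 2 ^ (c / 2) * (m0 : ℝ) ^ (-(c / 2))) * (1 / (1 - q)) :=
        mul_le_mul_of_nonneg_left hgeo (by positivity)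
    _ = _ := by ring

end Pool.Agent.U214.PT
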