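import Mathlib
import Pool.Agent.U214.PT.Sieve
import Pool.Agent.W372.RK2.CNT4
import Pool.Agent.W307.RT.Defs

/-!
# The number of `t` with prescribed small prime factors and signs of a polynomial value
-/

set_option autoImplicit false

namespace Pool.Agent.U214.PT

open Finset Polynomial
open Pool.Agent.W262.RK (PS PP mem_PS dv_prime dv_squarefree dv_pos dv_ne_zero PP_ne_zero)
open Pool.Agent.H474R2.PG (rho)
open Pool.Agent.W372.RK2 (sq_pow_dvd card_W WW)

/-- the weight -/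
noncomputable def hr (f : ℤ[X]) (p : ℕ) : ℝ := (rho f p : ℝ) / ((p : ℝ) - rho f p)

/-- the product of the primes of `(z, y]` dividing `F` exactly once -/
def t1 (z y : ℕ) (F : ℤ) : ℕ :=
  ∏ p ∈ (PS z y).filter (fun p : ℕ => (p : ℤ) ∣ F ∧ ¬ (p : ℤ) ^ 2 ∣ F), p

/-- the product of the primes of `(z, y]` whose square divides `F` -/
def t2 (z y : ℕ) (F : ℤ) : ℕ := ∏ p ∈ (PS z y).filter (fun p : ℕ => (p : ℤ) ^ 2 ∣ F), p

/-- the primes with negative sign -/
def ngs (F : ℤ) (s : ℕ) : Finset ℕ := s.primeFactors.filter (fun p => jacobiSym (F / p) p = -1)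

lemma dvd_t1 {z y : ℕ} {F : ℤ} {p : ℕ} (hp : p.Prime) :
    p ∣ t1 z y F ↔ p ∈ PS z y ∧ (p : ℤ) ∣ F ∧ ¬ (p : ℤ) ^ 2 ∣ F := by
  unfold t1
  constructor
  · intro h
    obtain ⟨q, hq, hpq⟩ := (hp.prime.dvd_finsetProd_iff _).1 h
    rw [mem_filter] at hq
    rw [(Nat.prime_dvd_prime_iff_eq hp (mem_PS.1 hq.1).2).1 hpq]
    exact hq
  · intro h
    exact dvd_prod_of_mem _ (mem_filter.2 h)

lemma dvd_t2 {z y : ℕ} {F : ℤ} {p : ℕ} (hp : p.Prime) :
    p ∣ t2 z y F ↔ p ∈ PS z y ∧ (p : ℤ) ^ 2 ∣ F := by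
  unfold t2
  constructor
  · intro h
    obtain ⟨q, hq, hpq⟩ := (hp.prime.dvd_finsetProd_iff _).1 h
    rw [mem_filter] at hq
    rw [(Nat.prime_dvd_prime_iff_eq hp (mem_PS.1 hq.1).2).1 hpq]
    exact hq
  · intro h
    exact dvd_prod_of_mem _ (mem_filter.2 h)

lemma lift_inj {f : ℤ[X]} {p : ℕ} (hp : p.Prime) {x x' : ℤ} (h1 : (p : ℤ) ∣ x - x')
    (h2 : (p : ℤ) ^ 2 ∣ f.eval x - f.eval x') (h3 : ¬ (p : ℤ) ∣ (derivative f).eval x') :
    (p : ℤ) ^ 2 ∣ x - x' := by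
  obtain ⟨k, hk⟩ := h1
  obtain ⟨c, hc⟩ := f.binomExpansion x' (p * k)
  have e : x = x' + p * k := by linarith
  rw [e, hc] at h2
  have h4 : (p : ℤ) ^ 2 ∣ (derivative f).eval x' * (p * k) := by
    have h5 : f.eval x' + (derivative f).eval x' * (p * k) + c * (p * k) ^ 2 - f.eval x' =
        (derivative f).eval x' * (p * k) + (p : ℤ) ^ 2 * (c * k ^ 2) := by ring
    rw [h5] at h2
    exact (Int.dvd_add_left (Dvd.intro _ rfl)).1 h2
  have h5 : (p : ℤ) ∣ (derivative f).eval x' * k := by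
    rw [sq, show (derivative f).eval x' * ((p : ℤ) * k) = p * ((derivative f).eval x' * k) by
      ring] at h4
    exact Int.dvd_of_mul_dvd_mul_left (by exact_mod_cast hp.ne_zero) h4
  rcases (Nat.prime_iff_prime_int.1 hp).dvd_or_dvd h5 with h6 | h6
  · exact absurd h6 h3
  · rw [hk, sq]
    exact mul_dvd_mul_left _ h6

/-- the facts about the counted `t` -/
structure Gt (f : ℤ[X]) (z y s v u : ℕ) (t : ℤ) : Prop where
  hs : t1 z y (f.eval t) = s
  hv : t2 z y (f.eval t) = v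
  hu : (u : ℤ) ∣ f.eval t

variable {f : ℤ[X]} {d z y Y s v u : ℕ} {t t' : ℤ}

lemma Gt.fs (g : Gt f z y s v u t) {p : ℕ} (hp : p.Prime) (h : p ∣ s) :
    p ∈ PS z y ∧ (p : ℤ) ∣ f.eval t ∧ ¬ (p : ℤ) ^ 2 ∣ f.eval t := by
  rw [← g.hs] at h
  exact (dvd_t1 hp).1 h

lemma Gt.fv (g : Gt f z y s v u t) {p : ℕ} (hp : p.Prime) (h : p ∣ v) :
    p ∈ PS z y ∧ (p : ℤ) ^ 2 ∣ f.eval t := by
  rw [← g.hv] at h
  exact (dvd_t2 hp).1 h

lemma Gt.fu (g : Gt f z y s v u t) (hu : u ∈ (PP y Y).divisors) {p : ℕ} (hp : p.Prime)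
    (h : p ∣ u) : y < p ∧ (p : ℤ) ∣ f.eval t :=
  ⟨(dv_prime hu hp h).1, (Int.natCast_dvd_natCast.2 h).trans g.hu⟩

lemma Gt.cop (g : Gt f z y s v u t) : s.Coprime v := by
  apply Nat.coprime_of_dvd
  intro p hp hps hpv
  exact (g.fs hp hps).2.2 (g.fv hp hpv).2

lemma Gt.copu (g : Gt f z y s v u t) (hs : s ∈ (PP z y).divisors) (hv : v ∈ (PP z y).divisors)
    (hu : u ∈ (PP y Y).divisors) : (s * v).Coprime u := by
  apply Nat.coprime_of_dvd
  intro p hp hps hpu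
  have h1 := (g.fu hu hp hpu).1
  have h2 : p ≤ y := by
    rcases hp.dvd_mul.1 hps with h | h
    · exact (dv_prime hs hp h).2
    · exact (dv_prime hv hp h).2
  omega

/-- two counted `t` with the same residues are congruent -/
lemma congr_of (hf : Pg f d z) (hzy : z < y) (hs : s ∈ (PP z y).divisors)
    (hv : v ∈ (PP z y).divisors) (hu : u ∈ (PP y Y).divisors) (g : Gt f z y s v u t)
    (g' : Gt f z y s v u t') (h1 : ∀ p : ℕ, p.Prime → p ∣ s * v * u → (p : ℤ) ∣ t - t')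
    (h2 : ∀ p : ℕ, p.Prime → p ∣ s → (p : ℤ) ^ 2 ∣ f.eval t - f.eval t') :
    ((s ^ 2 * v ^ 2 * u : ℕ) : ℤ) ∣ t - t' := by
  have a1 : ((s ^ 2 : ℕ) : ℤ) ∣ t - t' := by
    rw [Nat.cast_pow]
    refine sq_pow_dvd (dv_squarefree hs) 2 _ fun p hp hps => ?_
    refine lift_inj hp (h1 p hp ((hps.mul_right v).mul_right u)) (h2 p hp hps) ?_
    exact hf.der p hp (mem_PS.1 (g'.fs hp hps).1).1.1 t' (g'.fs hp hps).2.1
  have a2 : ((v ^ 2 : ℕ) : ℤ) ∣ t - t' := by
    rw [Nat.cast_pow]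
    refine sq_pow_dvd (dv_squarefree hv) 2 _ fun p hp hpv => ?_
    refine lift_inj hp (h1 p hp ((hpv.mul_left s).mul_right u))
      (dvd_sub (g.fv hp hpv).2 (g'.fv hp hpv).2) ?_
    exact hf.der p hp (mem_PS.1 (g'.fv hp hpv).1).1.1 t'
      ((dvd_pow_self (p : ℤ) two_ne_zero).trans (g'.fv hp hpv).2)
  have a3 : (u : ℤ) ∣ t - t' := by
    have := sq_pow_dvd (dv_squarefree hu) 1 (t - t') fun p hp hpu => by
      rw [pow_one]
      exact h1 p hp (hpu.mul_left _)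
    rwa [pow_one] at this
  have c1 : IsCoprime ((s ^ 2 : ℕ) : ℤ) ((v ^ 2 : ℕ) : ℤ) :=
    Nat.isCoprime_iff_coprime.2 (g.cop.pow 2 2)
  have c2 : IsCoprime ((s ^ 2 * v ^ 2 : ℕ) : ℤ) (u : ℤ) := by
    rw [← mul_pow]
    exact Nat.isCoprime_iff_coprime.2 ((g.copu hs hv hu).pow_left 2)
  rw [Nat.cast_mul]
  refine c2.mul_dvd ?_ a3
  rw [Nat.cast_mul]
  exact c1.mul_dvd a1 a2

/-- the residues -/
noncomputable def Ph (f : ℤ[X]) (s v u : ℕ) (t : ℕ) (p : (s * v * u).primeFactors) : ℕ × ℕ :=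
  (t % p.1, if p.1 ∣ s then ((f.eval (t : ℤ) / (p.1 : ℤ)) % (p.1 : ℤ)).toNat else 0)

/-- the possible residues -/
noncomputable def Wt' (f : ℤ[X]) (s : ℕ) (E : Finset ℕ) (p : ℕ) : Finset (ℕ × ℕ) :=
  ((range p).filter (fun a : ℕ => (p : ℤ) ∣ f.eval (a : ℤ))) ×ˢ (if p ∣ s then WW E p else {0})

lemma eval_mod (f : ℤ[X]) (p t : ℕ) : (p : ℤ) ∣ f.eval ((t % p : ℕ) : ℤ) ↔
    (p : ℤ) ∣ f.eval (t : ℤ) := by
  rw [dvd_iff_z, dvd_iff_z]
  push_cast
  exact Iff.rfl

lemma Ph_mem {t : ℕ} (hs : s ∈ (PP z y).divisors) (hv : v ∈ (PP z y).divisors)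
    (hu : u ∈ (PP y Y).divisors) (g : Gt f z y s v u (t : ℤ)) {E : Finset ℕ}
    (hE : ngs (f.eval (t : ℤ)) s = E) :
    Ph f s v u t ∈ Fintype.piFinset (fun p : (s * v * u).primeFactors => Wt' f s E p.1) := by
  rw [Fintype.mem_piFinset]
  rintro ⟨p, hp3⟩
  have hp : p.Prime := Nat.prime_of_mem_primeFactors hp3
  have hpd : (p : ℤ) ∣ f.eval (t : ℤ) := by
    rcases hp.dvd_mul.1 (Nat.dvd_of_mem_primeFactors hp3) with h | h
    · rcases hp.dvd_mul.1 h with h | h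
      · exact (g.fs hp h).2.1
      · exact (dvd_pow_self (p : ℤ) two_ne_zero).trans (g.fv hp h).2
    · exact (g.fu hu hp h).2
  have hpos : (0 : ℤ) < p := by exact_mod_cast hp.pos
  unfold Wt' Ph
  rw [mem_product]
  constructor
  · simp only
    rw [mem_filter, mem_range, eval_mod]
    exact ⟨Nat.mod_lt _ hp.pos, hpd⟩
  · simp only
    by_cases hps : p ∣ s
    · rw [if_pos hps, if_pos hps]
      have h0 : 0 ≤ (f.eval (t : ℤ) / (p : ℤ)) % (p : ℤ) := Int.emod_nonneg _ hpos.ne'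
      obtain ⟨hP, hd, hd2⟩ := g.fs hp hps
      unfold WW
      rw [mem_filter, mem_range]
      constructor
      · have h1 := Int.emod_lt_of_pos (f.eval (t : ℤ) / (p : ℤ)) hpos
        omega
      · rw [Int.toNat_of_nonneg h0, ← jacobiSym.mod_left]
        split_ifs with hpE
        · rw [← hE] at hpE
          unfold ngs at hpE
          exact (mem_filter.1 hpE).2
        · have h1 : jacobiSym (f.eval (t : ℤ) / (p : ℤ)) p ≠ -1 := by
            intro h
            apply hpE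
            rw [← hE]
            unfold ngs
            exact mem_filter.2 ⟨Nat.mem_primeFactors.2 ⟨hp, hps, dv_ne_zero hs⟩, h⟩
          have h2 : jacobiSym (f.eval (t : ℤ) / (p : ℤ)) p ≠ 0 := by
            have : NeZero p := ⟨hp.ne_zero⟩
            rw [Ne, jacobiSym.eq_zero_iff_not_coprime, not_not, Int.gcd_comm]
            rw [Int.gcd_eq_natAbs, Int.natAbs_natCast]
            apply (hp.coprime_iff_not_dvd).2
            intro h
            apply hd2
            have h3 : (p : ℤ) ∣ f.eval (t : ℤ) / (p : ℤ) := Int.natCast_dvd.2 h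
            have h4 : f.eval (t : ℤ) = p * (f.eval (t : ℤ) / p) := (Int.mul_ediv_cancel' hd).symm
            rw [h4, sq]
            exact mul_dvd_mul_left _ h3
          rcases jacobiSym.trichotomy (f.eval (t : ℤ) / (p : ℤ)) p with h | h | h
          · exact absurd h h2
          · exact h
          · exact absurd h h1
    · rw [if_neg hps, if_neg hps, mem_singleton]

lemma Ph_congr {t t' : ℕ} (hf : Pg f d z) (hzy : z < y) (hs : s ∈ (PP z y).divisors)
    (hv : v ∈ (PP z y).divisors) (hu : u ∈ (PP y Y).divisors) (g : Gt f z y s v u (t : ℤ))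
    (g' : Gt f z y s v u (t' : ℤ)) (h : Ph f s v u t = Ph f s v u t') :
    ((s ^ 2 * v ^ 2 * u : ℕ) : ℤ) ∣ (t : ℤ) - t' := by
  have hne : s * v * u ≠ 0 := by
    have h1 := dv_ne_zero hs
    have h2 := dv_ne_zero hv
    have h3 := dv_ne_zero hu
    positivity
  refine congr_of hf hzy hs hv hu g g' (fun p hp hpd => ?_) (fun p hp hps => ?_)
  · have h1 := congrFun h ⟨p, Nat.mem_primeFactors.2 ⟨hp, hpd, hne⟩⟩
    unfold Ph at h1
    have h2 : t % p = t' % p := congrArg Prod.fst h1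
    have h3 : t ≡ t' [MOD p] := h2
    have h4 := (Nat.modEq_iff_dvd.1 h3.symm)
    exact h4
  · have h1 := congrFun h ⟨p, Nat.mem_primeFactors.2 ⟨hp, (hps.mul_right v).mul_right u, hne⟩⟩
    unfold Ph at h1
    have h2 : (if p ∣ s then ((f.eval (t : ℤ) / (p : ℤ)) % (p : ℤ)).toNat else 0) =
      (if p ∣ s then ((f.eval (t' : ℤ) / (p : ℤ)) % (p : ℤ)).toNat else 0) :=
      congrArg Prod.snd h1
    rw [if_pos hps, if_pos hps] at h2
    have hpos : (0 : ℤ) < p := by exact_mod_cast hp.pos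
    have h3 : (f.eval (t : ℤ) / (p : ℤ)) % (p : ℤ) = (f.eval (t' : ℤ) / (p : ℤ)) % (p : ℤ) := by
      have h4 := Int.emod_nonneg (f.eval (t : ℤ) / (p : ℤ)) hpos.ne'
      have h5 := Int.emod_nonneg (f.eval (t' : ℤ) / (p : ℤ)) hpos.ne'
      omega
    have h6 : (p : ℤ) ∣ f.eval (t : ℤ) / (p : ℤ) - f.eval (t' : ℤ) / (p : ℤ) :=
      Int.ModEq.dvd (Eq.symm h3)
    have h7 : f.eval (t : ℤ) = p * (f.eval (t : ℤ) / p) :=
      (Int.mul_ediv_cancel' (g.fs hp hps).2.1).symm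
    have h8 : f.eval (t' : ℤ) = p * (f.eval (t' : ℤ) / p) :=
      (Int.mul_ediv_cancel' (g'.fs hp hps).2.1).symm
    rw [h7, h8, ← mul_sub, sq]
    exact mul_dvd_mul_left _ h6

/-- products over the primes of `s v u` -/
lemma prod_svu (c1 : s.Coprime v) (c2 : (s * v).Coprime u) (F : ℕ → ℝ) :
    ∏ p ∈ (s * v * u).primeFactors, F p =
      (∏ p ∈ s.primeFactors, F p) * (∏ p ∈ v.primeFactors, F p) * ∏ p ∈ u.primeFactors, F p := by
  rw [c2.primeFactors_mul, prod_union c2.disjoint_primeFactors, c1.primeFactors_mul,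
    prod_union c1.disjoint_primeFactors]

lemma cast_pf {a b n : ℕ} (h : n ∈ (PP a b).divisors) : (n : ℝ) = ∏ p ∈ n.primeFactors, (p : ℝ) := by
  rw [← Nat.cast_prod, Nat.prod_primeFactors_of_squarefree (dv_squarefree h)]

lemma card_Ph (hz : 2 ≤ z) (g : Gt f z y s v u t) (hs : s ∈ (PP z y).divisors)
    (hv : v ∈ (PP z y).divisors) (hu : u ∈ (PP y Y).divisors) (E : Finset ℕ) :
    ((Fintype.piFinset (fun p : (s * v * u).primeFactors => Wt' f s E p.1)).card : ℝ) ≤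
      (∏ p ∈ s.primeFactors, ((rho f p : ℝ) * ((1 / 2) * p))) *
        (∏ p ∈ v.primeFactors, (rho f p : ℝ)) * ∏ p ∈ u.primeFactors, (rho f p : ℝ) := by
  rw [Fintype.card_piFinset]
  have h0 : ∏ p : (s * v * u).primeFactors, (Wt' f s E p.1).card =
      ∏ p ∈ (s * v * u).primeFactors, (Wt' f s E p).card :=
    prod_coe_sort (s * v * u).primeFactors (fun p => (Wt' f s E p).card)
  have hcard : ∀ p, (Wt' f s E p).card = rho f p * (if p ∣ s then WW E p else {0}).card := by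
    intro p
    unfold Wt' rho
    rw [card_product]
  rw [h0, Nat.cast_prod, prod_svu g.cop (g.copu hs hv hu)]
  have hnd : ∀ p : ℕ, p.Prime → (p ∣ v ∨ p ∣ u) → ¬ p ∣ s := by
    rintro p hp (h | h) h'
    · exact (g.fs hp h').2.2 (g.fv hp h).2
    · have h1 := (g.fu hu hp h).1
      have h2 := (dv_prime hs hp h').2
      omega
  refine mul_le_mul (mul_le_mul ?_ ?_ (prod_nonneg fun p _ => Nat.cast_nonneg _)
    (prod_nonneg fun p _ => by positivity)) ?_ (prod_nonneg fun p _ => Nat.cast_nonneg _) ?_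
  · refine prod_le_prod (fun p _ => Nat.cast_nonneg _) fun p hp => ?_
    have hpp := Nat.prime_of_mem_primeFactors hp
    have hps := Nat.dvd_of_mem_primeFactors hp
    have hpz := (dv_prime hs hpp hps).1
    rw [hcard, if_pos hps, Nat.cast_mul]
    refine mul_le_mul_of_nonneg_left ?_ (Nat.cast_nonneg _)
    have h2 := card_W hpp (by omega) (if p ∈ E then -1 else 1) (by split_ifs <;> simp)
    have h3 : 2 * (WW E p).card ≤ p := by
      unfold WW
      omega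
    have h4 : (2 : ℝ) * ((WW E p).card : ℝ) ≤ p := by exact_mod_cast h3
    linarith
  · refine prod_le_prod (fun p _ => Nat.cast_nonneg _) fun p hp => ?_
    rw [hcard, if_neg (hnd p (Nat.prime_of_mem_primeFactors hp)
      (Or.inl (Nat.dvd_of_mem_primeFactors hp))), card_singleton, mul_one]
  · refine prod_le_prod (fun p _ => Nat.cast_nonneg _) fun p hp => ?_
    rw [hcard, if_neg (hnd p (Nat.prime_of_mem_primeFactors hp)
      (Or.inr (Nat.dvd_of_mem_primeFactors hp))), card_singleton, mul_one]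
  · exact mul_nonneg (prod_nonneg fun p _ => by positivity)
      (prod_nonneg fun p _ => Nat.cast_nonneg _)

/-- the primes of the modulus -/
lemma mod_primes (hs : s ∈ (PP z y).divisors) (hv : v ∈ (PP z y).divisors)
    (hu : u ∈ (PP y Y).divisors) :
    (s ^ 2 * v ^ 2 * u).primeFactors.filter (fun p => p ∈ PS z y) =
      (s * v).primeFactors := by
  have h1 := dv_ne_zero hs
  have h2 := dv_ne_zero hv
  have h3 := dv_ne_zero hu
  have h4 : s ^ 2 * v ^ 2 * u ≠ 0 := by positivity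
  have h5 : s * v ≠ 0 := by positivity
  ext p
  rw [mem_filter, Nat.mem_primeFactors, Nat.mem_primeFactors]
  constructor
  · rintro ⟨⟨hp, hpm, -⟩, hpP⟩
    refine ⟨hp, ?_, h5⟩
    rcases hp.dvd_mul.1 hpm with h | h
    · rw [← mul_pow] at h
      exact hp.dvd_of_dvd_pow h
    · exfalso
      have a1 := (dv_prime hu hp h).1
      have a2 := (mem_PS.1 hpP).1.2
      omega
  · rintro ⟨hp, hpm, -⟩
    refine ⟨⟨hp, ?_, h4⟩, ?_⟩
    · rw [← mul_pow]
      exact (hpm.pow two_ne_zero).mul_right u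
    · rcases hp.dvd_mul.1 hpm with h | h
      · exact mem_PS.2 ⟨dv_prime hs hp h, hp⟩
      · exact mem_PS.2 ⟨dv_prime hv hp h, hp⟩

/-- **the count** -/
theorem cntp {f : ℤ[X]} {d z Me : ℕ} {C1 : ℝ} (hf : Pg f d z) (hC1 : 0 ≤ C1)
    (hP : ∀ y : ℕ, 3 ≤ y → z < y → ∏ p ∈ PS z y, (1 - (rho f p : ℝ) / p) ≤
      C1 / (Real.log y) ^ Me) : ∃ (C : ℝ) (K y0 : ℕ), 0 ≤ C ∧ 1 ≤ K ∧
    ∀ X y Y : ℕ, y0 ≤ y → z < y → y ^ K ≤ X → ∀ s ∈ (PP z y).divisors,
      ∀ v ∈ (PP z y).divisors, ∀ u ∈ (PP y Y).divisors, (s * v * u) ^ 8 ≤ X →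
      ∀ E : Finset ℕ, (((Icc 1 X).filter (fun t : ℕ => t1 z y (f.eval (t : ℤ)) = s ∧
        t2 z y (f.eval (t : ℤ)) = v ∧ (u : ℤ) ∣ f.eval (t : ℤ) ∧
        ngs (f.eval (t : ℤ)) s = E)).card : ℝ) ≤
        C * X * (1 / 2) ^ s.primeFactors.card * gh (hr f) s * (gh (hr f) v / v) *
          ((d : ℝ) ^ u.primeFactors.card / u) / (Real.log y) ^ Me := by
  classical
  obtain ⟨C, K, y0, hC, hK, hSV⟩ := svp hf hC1 hP
  refine ⟨C, K, y0, hC, hK, ?_⟩
  intro X y Y hy0 hzy hX s hs v hv u hu hsvu E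
  have hz : 2 ≤ z := by have := hf.zd; omega
  have hlog : 0 ≤ (Real.log y) ^ Me := pow_nonneg (Real.log_natCast_nonneg y) _
  have hsub : ∀ p : ℕ, p.Prime → z < p → 0 < (p : ℝ) - rho f p := by
    intro p hp hzp
    have h1 := hf.rho p hp hzp
    have h2 := hf.zd
    have h3 : ((rho f p : ℕ) : ℝ) < p := by exact_mod_cast (by omega : rho f p < p)
    linarith
  have hgh : ∀ n ∈ (PP z y).divisors, 0 ≤ gh (hr f) n := by
    intro n hn
    unfold gh hr
    refine prod_nonneg fun p hp => div_nonneg (Nat.cast_nonneg _) (hsub p ?_ ?_).le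
    · exact Nat.prime_of_mem_primeFactors hp
    · exact (dv_prime hn (Nat.prime_of_mem_primeFactors hp) (Nat.dvd_of_mem_primeFactors hp)).1
  have hgs := hgh s hs
  have hgv := hgh v hv
  obtain ⟨T, hT⟩ : ∃ T, T = (Icc 1 X).filter (fun t : ℕ => t1 z y (f.eval (t : ℤ)) = s ∧
        t2 z y (f.eval (t : ℤ)) = v ∧ (u : ℤ) ∣ f.eval (t : ℤ) ∧
        ngs (f.eval (t : ℤ)) s = E) := ⟨_, rfl⟩
  rw [← hT]
  have hgood : ∀ t ∈ T, Gt f z y s v u (t : ℤ) ∧ ngs (f.eval (t : ℤ)) s = E := by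
    intro t ht
    rw [hT, mem_filter] at ht
    exact ⟨⟨ht.2.1, ht.2.2.1, ht.2.2.2.1⟩, ht.2.2.2.2⟩
  rcases T.eq_empty_or_nonempty with hTe | ⟨t0, ht0⟩
  · rw [hTe, card_empty, Nat.cast_zero]
    positivity
  obtain ⟨m, hm⟩ : ∃ m, m = s ^ 2 * v ^ 2 * u := ⟨_, rfl⟩
  have hs1 := dv_pos hs
  have hv1 := dv_pos hv
  have hu1 := dv_pos hu
  have hm1 : 1 ≤ m := by rw [hm]; exact Nat.succ_le_of_lt (by positivity)
  have hm4 : m ^ 4 ≤ X := by
    refine le_trans ?_ hsvu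
    have h1 : m ≤ (s * v * u) ^ 2 := by
      rw [hm]
      calc s ^ 2 * v ^ 2 * u ≤ s ^ 2 * v ^ 2 * (u * u) := by
            apply Nat.mul_le_mul_left
            nlinarith
        _ = (s * v * u) ^ 2 := by ring
    calc m ^ 4 ≤ ((s * v * u) ^ 2) ^ 4 := Nat.pow_le_pow_left h1 4
      _ = (s * v * u) ^ 8 := by rw [← pow_mul]
  have hsq := (hgood t0 ht0).1
  obtain ⟨B, hBdef⟩ : ∃ B, B = C * (X / m) * (∏ p ∈ m.primeFactors.filter (fun p => p ∈ PS z y),
        (p : ℝ) / ((p : ℝ) - rho f p)) / (Real.log y) ^ Me := ⟨_, rfl⟩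
  have hfib : ∀ φ : (s * v * u).primeFactors → ℕ × ℕ,
      ((T.filter (fun t : ℕ => Ph f s v u t = φ)).card : ℝ) ≤ B := by
    intro φ
    rcases (T.filter (fun t : ℕ => Ph f s v u t = φ)).eq_empty_or_nonempty with
      he | ⟨r, hr⟩
    · rw [he, card_empty, Nat.cast_zero, hBdef]
      exact le_trans (Nat.cast_nonneg _) (hSV X y hy0 hzy hX m 0 hm1 hm4)
    · rw [hBdef]
      refine le_trans ?_ (hSV X y hy0 hzy hX m r hm1 hm4)
      rw [Nat.cast_le]
      apply card_le_card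
      intro t ht
      rw [mem_filter] at ht hr
      have g := (hgood t ht.1).1
      have g' := (hgood r hr.1).1
      have htX : t ∈ Icc 1 X := by
        have := ht.1
        rw [hT] at this
        exact (mem_filter.1 this).1
      rw [mem_filter]
      refine ⟨htX, ?_, ?_⟩
      · have h1 := Ph_congr hf hzy hs hv hu g g' (ht.2.trans hr.2.symm)
        rw [← hm] at h1
        exact ((Nat.modEq_iff_dvd.2 h1)).symm
      · intro p hpP hpm hpf
        have hp := (mem_PS.1 hpP).2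
        apply hpm
        rw [hm]
        by_cases h2 : (p : ℤ) ^ 2 ∣ f.eval (t : ℤ)
        · have h3 : p ∣ v := by
            rw [← g.hv]
            exact (dvd_t2 hp).2 ⟨hpP, h2⟩
          exact ((h3.pow two_ne_zero).mul_left _).mul_right _
        · have h3 : p ∣ s := by
            rw [← g.hs]
            exact (dvd_t1 hp).2 ⟨hpP, hpf, h2⟩
          exact ((h3.pow two_ne_zero).mul_right _).mul_right _
  have hB0 : 0 ≤ B := by
    rw [hBdef]
    exact le_trans (Nat.cast_nonneg _) (hSV X y hy0 hzy hX m 0 hm1 hm4)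
  have hcard : (T.card : ℝ) ≤
      ((Fintype.piFinset (fun p : (s * v * u).primeFactors => Wt' f s E p.1)).card : ℝ) * B := by
    rw [card_eq_sum_card_fiberwise (f := fun t : ℕ => Ph f s v u t)
      (t := Fintype.piFinset (fun p : (s * v * u).primeFactors => Wt' f s E p.1))
      (fun t ht => Ph_mem hs hv hu (hgood t ht).1 (hgood t ht).2)]
    rw [Nat.cast_sum]
    refine (sum_le_sum fun φ _ => hfib φ).trans ?_
    rw [sum_const, nsmul_eq_mul]
  refine hcard.trans ((mul_le_mul_of_nonneg_right (card_Ph hz hsq hs hv hu E) hB0).trans ?_)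
  have hmp : ∏ p ∈ m.primeFactors.filter (fun p => p ∈ PS z y),
      (p : ℝ) / ((p : ℝ) - rho f p) =
      (∏ p ∈ s.primeFactors, (p : ℝ) / ((p : ℝ) - rho f p)) *
        ∏ p ∈ v.primeFactors, (p : ℝ) / ((p : ℝ) - rho f p) := by
    rw [hm, mod_primes hs hv hu, hsq.cop.primeFactors_mul,
      prod_union hsq.cop.disjoint_primeFactors]
  have hu' : ∏ p ∈ u.primeFactors, (rho f p : ℝ) ≤ (d : ℝ) ^ u.primeFactors.card := by
    rw [← prod_const]
    refine prod_le_prod (fun p _ => Nat.cast_nonneg _) fun p hp => ?_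
    have h1 := dv_prime hu (Nat.prime_of_mem_primeFactors hp) (Nat.dvd_of_mem_primeFactors hp)
    exact_mod_cast hf.rho p (Nat.prime_of_mem_primeFactors hp) (by omega)
  have es : (∏ p ∈ s.primeFactors, ((rho f p : ℝ) * ((1 / 2) * p))) *
      (∏ p ∈ s.primeFactors, (p : ℝ) / ((p : ℝ) - rho f p)) =
      (1 / 2) ^ s.primeFactors.card * (s : ℝ) ^ 2 * gh (hr f) s := by
    rw [cast_pf hs, ← prod_pow]
    unfold gh hr
    rw [← prod_const, ← prod_mul_distrib, ← prod_mul_distrib, ← prod_mul_distrib]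
    refine prod_congr rfl fun p hp => ?_
    ring
  have ev : (∏ p ∈ v.primeFactors, (rho f p : ℝ)) *
      (∏ p ∈ v.primeFactors, (p : ℝ) / ((p : ℝ) - rho f p)) = (v : ℝ) * gh (hr f) v := by
    rw [cast_pf hv]
    unfold gh hr
    rw [← prod_mul_distrib, ← prod_mul_distrib]
    refine prod_congr rfl fun p hp => ?_
    ring
  have hs0 : (s : ℝ) ≠ 0 := by positivity
  have hv0 : (v : ℝ) ≠ 0 := by positivity
  have hu0 : (u : ℝ) ≠ 0 := by positivity
  have hmc : (m : ℝ) = (s : ℝ) ^ 2 * (v : ℝ) ^ 2 * u := by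
    rw [hm]
    push_cast
    ring
  rw [hBdef, hmp, hmc]
  obtain ⟨a, ha⟩ : ∃ a, a = ∏ p ∈ s.primeFactors, ((rho f p : ℝ) * ((1 / 2) * p)) := ⟨_, rfl⟩
  obtain ⟨a', ha'⟩ : ∃ a', a' = ∏ p ∈ s.primeFactors, (p : ℝ) / ((p : ℝ) - rho f p) := ⟨_, rfl⟩
  obtain ⟨b, hb⟩ : ∃ b, b = ∏ p ∈ v.primeFactors, (rho f p : ℝ) := ⟨_, rfl⟩
  obtain ⟨b', hb'⟩ : ∃ b', b' = ∏ p ∈ v.primeFactors, (p : ℝ) / ((p : ℝ) - rho f p) := ⟨_, rfl⟩
  rw [← ha, ← ha'] at es
  rw [← hb, ← hb'] at ev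
  rw [← ha, ← hb, ← ha', ← hb']
  calc a * b * (∏ p ∈ u.primeFactors, (rho f p : ℝ)) *
        (C * (X / ((s : ℝ) ^ 2 * (v : ℝ) ^ 2 * u)) * (a' * b') / (Real.log y) ^ Me)
      = C * X * ((a * a') * (b * b')) * (∏ p ∈ u.primeFactors, (rho f p : ℝ)) /
          ((s : ℝ) ^ 2 * (v : ℝ) ^ 2 * u) / (Real.log y) ^ Me := by ring
    _ = C * X * (1 / 2) ^ s.primeFactors.card * gh (hr f) s * (gh (hr f) v / v) *
          ((∏ p ∈ u.primeFactors, (rho f p : ℝ)) / u) / (Real.log y) ^ Me := by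
        rw [es, ev]
        field_simp
    _ ≤ _ := by
        apply div_le_div_of_nonneg_right _ hlog
        apply mul_le_mul_of_nonneg_left _ (by positivity)
        exact div_le_div_of_nonneg_right hu' (Nat.cast_nonneg u)

end Pool.Agent.U214.PT
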