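import Mathlib
import Pool.Agent.H474R2.GE.FA
import Pool.Agent.U214.PT.Cnt

/-!
# Mertens' theorem for the roots of a separable polynomial
-/

set_option autoImplicit false

namespace Pool.Agent.U214.PT

open Finset Polynomial
open Pool.Agent.W262.RK (PS mem_PS)
open Pool.Agent.H474R2.PG (rho PR Sg)
open Pool.Agent.H474R2.GE (mertens_rho)

/-- no double roots, with integers -/
def Sep (f : ℤ[X]) : Prop :=
  ∃ N : ℤ, N ≠ 0 ∧ ∃ A B : ℤ[X], A * f + B * derivative f = C N

lemma mem_PR {w : ℝ} {p : ℕ} : p ∈ PR w ↔ (1 ≤ p ∧ p ≤ ⌊w⌋₊) ∧ p.Prime := by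
  unfold PR
  rw [mem_filter, mem_Icc]

lemma Sg_close {r r' : ℕ → ℕ} (B : ℕ) (h : ∀ p : ℕ, p.Prime → B < p → r p = r' p) :
    ∃ c : ℝ, 0 ≤ c ∧ ∀ w : ℝ, |Sg r w - Sg r' w| ≤ c := by
  refine ⟨∑ p ∈ PR B, |(r p : ℝ) / p - (r' p : ℝ) / p|, sum_nonneg fun p _ => abs_nonneg _,
    fun w => ?_⟩
  unfold Sg
  rw [← sum_sub_distrib]
  refine (abs_sum_le_sum_abs _ _).trans ?_
  rw [← sum_filter_add_sum_filter_not (PR w) (fun p => p ≤ B)]
  have h1 : ∑ p ∈ (PR w).filter (fun p => ¬ p ≤ B), |(r p : ℝ) / p - (r' p : ℝ) / p| = 0 := by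
    refine sum_eq_zero fun p hp => ?_
    rw [mem_filter] at hp
    rw [h p (mem_PR.1 hp.1).2 (not_le.1 hp.2), sub_self, abs_zero]
  rw [h1, add_zero]
  refine sum_le_sum_of_subset_of_nonneg ?_ fun p _ _ => abs_nonneg _
  intro p hp
  rw [mem_filter, mem_PR] at hp
  rw [mem_PR, Nat.floor_natCast]
  exact ⟨⟨hp.1.1.1, hp.2⟩, hp.1.2⟩

lemma dvd_of_sep {f : ℤ[X]} {N : ℤ} {A B : ℤ[X]} (h : A * f + B * derivative f = C N) {p : ℤ}
    {t : ℤ} (h1 : p ∣ f.eval t) (h2 : p ∣ (derivative f).eval t) : p ∣ N := by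
  have h3 := congrArg (eval t) h
  rw [eval_add, eval_mul, eval_mul, eval_C] at h3
  rw [← h3]
  exact dvd_add (h1.mul_left _) (h2.mul_left _)

lemma rho_mul {f g : ℤ[X]} {p : ℕ} (hp : p.Prime)
    (h : ∀ t : ℤ, (p : ℤ) ∣ f.eval t → (p : ℤ) ∣ g.eval t → False) :
    rho (f * g) p = rho f p + rho g p := by
  unfold rho
  rw [← card_union_of_disjoint, ← filter_or]
  · congr 1
    refine filter_congr fun a _ => ?_
    rw [eval_mul]
    constructor
    · intro h1
      exact (Nat.prime_iff_prime_int.1 hp).dvd_or_dvd h1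
    · rintro (h1 | h1)
      · exact h1.mul_right _
      · exact h1.mul_left _
  · rw [disjoint_filter]
    intro a _ h1 h2
    exact h _ h1 h2

lemma rho_C_mul {c : ℤ} {g : ℤ[X]} {p : ℕ} (hp : p.Prime) (h : ¬ (p : ℤ) ∣ c) :
    rho (C c * g) p = rho g p := by
  rw [rho_mul hp (fun t h1 _ => h (by rwa [eval_C] at h1))]
  have : rho (C c) p = 0 := by
    unfold rho
    rw [card_eq_zero, filter_eq_empty_iff]
    intro a _ h1
    rw [eval_C] at h1
    exact h h1
  rw [this, zero_add]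

/-- Mertens' theorem for separable polynomials -/
theorem mert_sep (f : ℤ[X]) : Sep f → ∃ M : ℕ, (0 < f.natDegree → 0 < M) ∧ ∃ c : ℝ, 0 ≤ c ∧
    ∀ w : ℝ, 3 ≤ w → |Sg (rho f) w - M * Real.log (Real.log w)| ≤ c := by
  refine WfDvdMonoid.induction_on_irreducible f ?_ ?_ ?_
  · rintro ⟨N, hN, A, B, h⟩
    exfalso
    rw [derivative_zero, mul_zero, mul_zero, add_zero] at h
    exact hN (C_eq_zero.1 h.symm)
  · intro u hu _
    obtain ⟨r, hr, hru⟩ := Polynomial.isUnit_iff.1 hu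
    refine ⟨0, fun h => ?_, 0, le_rfl, fun w _ => ?_⟩
    · rw [← hru, natDegree_C] at h
      exact absurd h (lt_irrefl 0)
    · have h0 : ∀ p ∈ PR w, (rho u p : ℝ) / p = 0 := by
        intro p hp
        have hp' := (mem_PR.1 hp).2
        have : rho u p = 0 := by
          unfold rho
          rw [card_eq_zero, filter_eq_empty_iff]
          intro a _ h1
          rw [← hru, eval_C] at h1
          have h2 := isUnit_of_dvd_unit h1 hr
          rw [Int.isUnit_iff_natAbs_eq, Int.natAbs_natCast] at h2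
          exact hp'.one_lt.ne' h2
        rw [this]
        simp
      unfold Sg
      rw [sum_eq_zero h0]
      simp
  · intro a i ha hi ih hsep
    obtain ⟨N, hN, A, B, h⟩ := hsep
    rw [derivative_mul] at h
    have hsa : Sep a := ⟨N, hN, A * i + B * derivative i, B * i, by rw [← h]; ring⟩
    obtain ⟨M, hM, c, hc, hMc⟩ := ih hsa
    rcases Nat.eq_zero_or_pos i.natDegree with hd | hd
    · obtain ⟨k, hk⟩ := natDegree_eq_zero.1 hd
      have hk0 : k ≠ 0 := by
        rintro rfl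
        rw [C_0] at hk
        exact hi.ne_zero hk.symm
      obtain ⟨c', hc', hcl⟩ := Sg_close (r := rho (i * a)) (r' := rho a) k.natAbs
        (fun p hp hpk => by
          rw [← hk]
          refine rho_C_mul hp fun hd => ?_
          have := Nat.le_of_dvd (Int.natAbs_pos.2 hk0) (Int.natCast_dvd.1 hd)
          omega)
      refine ⟨M, fun h1 => hM ?_, c + c', by positivity, fun w hw => ?_⟩
      · rwa [natDegree_mul hi.ne_zero ha, hd, zero_add] at h1
      · have h1 := hMc w hw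
        have h2 := hcl w
        rw [abs_le] at h1 h2 ⊢
        constructor <;> linarith
    · obtain ⟨C1, hC1, hm⟩ := mertens_rho i hi hd
      obtain ⟨c', hc', hcl⟩ := Sg_close (r := rho (i * a)) (r' := fun p => rho i p + rho a p)
        N.natAbs (fun p hp hpN => by
          refine rho_mul hp fun t h1 h2 => ?_
          have h3 : (p : ℤ) ∣ N := by
            refine dvd_of_sep (f := i * a) (A := A) (B := B) (by rw [derivative_mul]; exact h)
              (t := t) ?_ ?_
            · rw [eval_mul]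
              exact h1.mul_right _
            · rw [derivative_mul, eval_add, eval_mul, eval_mul]
              exact dvd_add (h2.mul_left _) (h1.mul_right _)
          have := Nat.le_of_dvd (Int.natAbs_pos.2 hN) (Int.natCast_dvd.1 h3)
          omega)
      refine ⟨M + 1, fun _ => Nat.succ_pos M, c + c' + C1, by positivity, fun w hw => ?_⟩
      have h1 := hMc w hw
      have h2 := hcl w
      have h3 := hm w hw
      have h4 : Sg (fun p => rho i p + rho a p) w = Sg (rho i) w + Sg (rho a) w := by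
        unfold Sg
        rw [← sum_add_distrib]
        refine sum_congr rfl fun p _ => ?_
        push_cast
        ring
      rw [h4] at h2
      push_cast
      rw [abs_le] at h1 h2 h3 ⊢
      constructor <;> linarith

/-- sums over intervals of primes -/
lemma Sg_diff (r : ℕ → ℕ) {x y : ℕ} (hxy : x ≤ y) :
    ∑ p ∈ PS x y, (r p : ℝ) / p = Sg r y - Sg r x := by
  unfold Sg
  have e1 : PR (y : ℝ) = PR (x : ℝ) ∪ PS x y := by
    ext p
    rw [mem_union, mem_PR, mem_PR, mem_PS, Nat.floor_natCast, Nat.floor_natCast]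
    constructor
    · rintro ⟨⟨h1, h2⟩, h3⟩
      by_cases h4 : p ≤ x
      · exact Or.inl ⟨⟨h1, h4⟩, h3⟩
      · exact Or.inr ⟨⟨by omega, h2⟩, h3⟩
    · rintro (⟨⟨h1, h2⟩, h3⟩ | ⟨⟨h1, h2⟩, h3⟩)
      · exact ⟨⟨h1, h2.trans hxy⟩, h3⟩
      · exact ⟨⟨h3.one_lt.le, h2⟩, h3⟩
  have e2 : Disjoint (PR (x : ℝ)) (PS x y) := by
    rw [disjoint_left]
    intro p hp hp'
    rw [mem_PR, Nat.floor_natCast] at hp
    rw [mem_PS] at hp'
    omega
  rw [e1, sum_union e2]
  ring

/-- **the input for the sums** -/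
theorem pg_wt {f : ℤ[X]} (hs : Sep f) (hd : 0 < f.natDegree) :
    ∃ (z1 Me : ℕ) (C0 : ℝ), Pg f f.natDegree z1 ∧ Wt (hr f) (2 * f.natDegree) C0 Me z1 ∧
      ∀ z, z1 ≤ z → ∃ C1 : ℝ, 0 ≤ C1 ∧ ∀ y : ℕ, 3 ≤ y → z < y →
        ∏ p ∈ PS z y, (1 - (rho f p : ℝ) / p) ≤ C1 / (Real.log y) ^ Me := by
  obtain ⟨M, hM, c, hc, hMc⟩ := mert_sep f hs
  have hM1 : 0 < M := hM hd
  have hMr : (0 : ℝ) < M := by exact_mod_cast hM1
  obtain ⟨N, hN, A, B, hAB⟩ := hs
  obtain ⟨B0, hB0⟩ := Pool.Agent.H474R2.PG.rho_le f (fun h => by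
    rw [h, natDegree_zero] at hd; exact absurd hd (lt_irrefl 0))
  obtain ⟨d, hdd⟩ : ∃ d, d = f.natDegree := ⟨_, rfl⟩
  rw [← hdd] at hB0 hd ⊢
  obtain ⟨z1, hz1⟩ : ∃ z1, z1 = 2 * d + 3 + N.natAbs + B0 := ⟨_, rfl⟩
  have hrho : ∀ p : ℕ, p.Prime → z1 < p → rho f p ≤ d := fun p hp h => hB0 p hp (by omega)
  have hPg : Pg f d z1 := by
    refine ⟨by omega, hrho, fun p hp hz t h1 h2 => ?_⟩
    have h3 := dvd_of_sep hAB h1 h2
    have := Nat.le_of_dvd (Int.natAbs_pos.2 hN) (Int.natCast_dvd.1 h3)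
    omega
  -- the weights
  have hd0 : (0 : ℝ) ≤ d := Nat.cast_nonneg d
  have hbas : ∀ p : ℕ, p.Prime → z1 < p → (0 : ℝ) < p ∧ (rho f p : ℝ) ≤ d ∧
      (p : ℝ) / 2 ≤ (p : ℝ) - rho f p := by
    intro p hp h
    have h1 := hrho p hp h
    have h2 : (rho f p : ℝ) ≤ d := by exact_mod_cast h1
    have h3 : 2 * (d : ℝ) ≤ p := by exact_mod_cast (by omega : 2 * d ≤ p)
    exact ⟨by exact_mod_cast hp.pos, h2, by linarith⟩
  have hnn : ∀ p : ℕ, p.Prime → z1 < p → 0 ≤ hr f p := by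
    intro p hp h
    obtain ⟨h1, h2, h3⟩ := hbas p hp h
    unfold hr
    exact div_nonneg (Nat.cast_nonneg _) (by linarith)
  have hle : ∀ p : ℕ, p.Prime → z1 < p → hr f p ≤ 2 * d / p := by
    intro p hp h
    obtain ⟨h1, h2, h3⟩ := hbas p hp h
    unfold hr
    rw [div_le_div_iff₀ (by linarith) h1]
    nlinarith [(Nat.cast_nonneg (rho f p) : (0 : ℝ) ≤ rho f p)]
  have hup : ∀ p : ℕ, p.Prime → z1 < p → hr f p ≤ (rho f p : ℝ) / p + 2 * d ^ 2 * (1 / (p : ℝ) ^ 2) := by
    intro p hp h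
    obtain ⟨h1, h2, h3⟩ := hbas p hp h
    have hr0 : (0 : ℝ) ≤ rho f p := Nat.cast_nonneg _
    have h4 : 0 < (p : ℝ) - rho f p := by linarith
    have e : hr f p = (rho f p : ℝ) / p + (rho f p : ℝ) ^ 2 / (p * ((p : ℝ) - rho f p)) := by
      unfold hr
      field_simp
      ring
    rw [e]
    have h5 : (rho f p : ℝ) ^ 2 / (p * ((p : ℝ) - rho f p)) ≤ 2 * d ^ 2 * (1 / (p : ℝ) ^ 2) := by
      calc (rho f p : ℝ) ^ 2 / (p * ((p : ℝ) - rho f p)) ≤ (d : ℝ) ^ 2 / (p * (p / 2)) := by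
            apply div_le_div₀ (by positivity) (pow_le_pow_left₀ hr0 h2 2) (by positivity)
            exact mul_le_mul_of_nonneg_left h3 h1.le
        _ = _ := by field_simp
    linarith
  have hlow : ∀ p : ℕ, p.Prime → z1 < p → (rho f p : ℝ) / p ≤ hr f p := by
    intro p hp h
    obtain ⟨h1, h2, h3⟩ := hbas p hp h
    have hr0 : (0 : ℝ) ≤ rho f p := Nat.cast_nonneg _
    unfold hr
    apply div_le_div_of_nonneg_left hr0 (by linarith)
    linarith
  have hlog3 : ∀ x : ℕ, 3 ≤ x → 1 < Real.log x := by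
    intro x hx
    have hxr : (3 : ℝ) ≤ x := by exact_mod_cast hx
    rw [Real.lt_log_iff_exp_lt (by linarith)]
    have := Real.exp_one_lt_d9
    linarith
  have hll : ∀ x : ℕ, 3 ≤ x → 0 ≤ Real.log (Real.log x) := fun x hx =>
    Real.log_nonneg (hlog3 x hx).le
  have hSg : ∀ x y : ℕ, 3 ≤ x → x ≤ y →
      |∑ p ∈ PS x y, (rho f p : ℝ) / p - M * (Real.log (Real.log y) - Real.log (Real.log x))| ≤
        2 * c := by
    intro x y hx hxy
    rw [Sg_diff _ hxy]
    have h1 := hMc x (by exact_mod_cast hx)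
    have h2 := hMc y (by exact_mod_cast (by omega : 3 ≤ y))
    rw [abs_le] at h1 h2 ⊢
    constructor <;> linarith
  obtain ⟨K, hK, hsq⟩ := Pool.Agent.W655.RK.sum_inv_sq
  obtain ⟨C0, hC0⟩ : ∃ C0 : ℝ, C0 = 2 * c + 2 * d ^ 2 * K + M := ⟨_, rfl⟩
  have hC00 : 0 ≤ C0 := by rw [hC0]; positivity
  refine ⟨z1, M, C0, hPg, ⟨hMr, by positivity, hC00, hnn, hle, fun y hy => ?_,
    fun x y hx hx2 hxy => ?_⟩, fun z hz => ?_⟩
  · rcases Nat.lt_or_ge z1 y with hzy | hzy
    · have h1 : ∑ p ∈ PS z1 y, hr f p ≤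
          ∑ p ∈ PS z1 y, ((rho f p : ℝ) / p + 2 * d ^ 2 * (1 / (p : ℝ) ^ 2)) :=
        sum_le_sum fun p hp => hup p (mem_PS.1 hp).2 (mem_PS.1 hp).1.1
      rw [sum_add_distrib, ← mul_sum] at h1
      have h2 := (abs_le.1 (hSg z1 y (by omega) hzy.le)).2
      have h3 := hll z1 (by omega)
      have h4 : 2 * (d : ℝ) ^ 2 * ∑ p ∈ PS z1 y, 1 / (p : ℝ) ^ 2 ≤ 2 * d ^ 2 * K :=
        mul_le_mul_of_nonneg_left (hsq _) (by positivity)
      have h5 : 0 ≤ (M : ℝ) * Real.log (Real.log z1) := mul_nonneg hMr.le h3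
      rw [mul_sub] at h2
      rw [hC0]
      linarith
    · have h1 : PS z1 y = ∅ := by
        ext p
        rw [mem_PS]
        simp only [notMem_empty, iff_false, not_and]
        intro h
        omega
      rw [h1, sum_empty]
      have hl2 : 1 / 2 ≤ Real.log y := by
        have h2 : Real.log 2 ≤ Real.log y :=
          Real.log_le_log (by norm_num) (by exact_mod_cast hy)
        have := Real.log_two_gt_d9
        linarith
      have h3 : -1 ≤ Real.log (Real.log y) := by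
        have h4 : Real.log (1 / 2) ≤ Real.log (Real.log y) :=
          Real.log_le_log (by norm_num) hl2
        have h5 : Real.log (1 / 2) = -Real.log 2 := by
          rw [one_div, Real.log_inv]
        have := Real.log_two_lt_d9
        linarith
      have h4 : (M : ℝ) * (-1) ≤ M * Real.log (Real.log y) :=
        mul_le_mul_of_nonneg_left h3 hMr.le
      have h5 : 0 ≤ 2 * c + 2 * (d : ℝ) ^ 2 * K := by positivity
      rw [hC0]
      linarith
  · have h1 : ∑ p ∈ PS x y, (rho f p : ℝ) / p ≤ ∑ p ∈ PS x y, hr f p :=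
      sum_le_sum fun p hp => hlow p (mem_PS.1 hp).2 (by have := (mem_PS.1 hp).1.1; omega)
    have h2 := (abs_le.1 (hSg x y (by omega) hxy)).1
    have h5 : 0 ≤ 2 * (d : ℝ) ^ 2 * K + M := by positivity
    rw [hC0]
    linarith
  · have hlz := hlog3 z (by omega)
    refine ⟨Real.exp (2 * c) * (Real.log z) ^ M, by positivity, fun y hy3 hzy => ?_⟩
    have hly := hlog3 y hy3
    have h1 : ∏ p ∈ PS z y, (1 - (rho f p : ℝ) / p) ≤
        Real.exp (-∑ p ∈ PS z y, (rho f p : ℝ) / p) := by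
      rw [← sum_neg_distrib, Real.exp_sum]
      refine prod_le_prod (fun p hp => ?_) (fun p hp => ?_)
      · obtain ⟨h1, h2, h3⟩ := hbas p (mem_PS.1 hp).2 (by have := (mem_PS.1 hp).1.1; omega)
        have : (rho f p : ℝ) / p ≤ 1 := by
          rw [div_le_one h1]
          linarith
        linarith
      · have := Real.add_one_le_exp (-((rho f p : ℝ) / p))
        linarith
    refine h1.trans ?_
    have h2 := (abs_le.1 (hSg z y (by omega) hzy.le)).1
    calc Real.exp (-∑ p ∈ PS z y, (rho f p : ℝ) / p)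
        ≤ Real.exp (2 * c + M * Real.log (Real.log z) - M * Real.log (Real.log y)) := by
          apply Real.exp_le_exp.2
          linarith
      _ = Real.exp (2 * c) * (Real.log z) ^ M / (Real.log y) ^ M := by
          have e1 : Real.exp (M * Real.log (Real.log z)) = (Real.log z) ^ M := by
            rw [mul_comm, Real.exp_mul, Real.exp_log (by linarith), Real.rpow_natCast]
          have e2 : Real.exp (M * Real.log (Real.log y)) = (Real.log y) ^ M := by
            rw [mul_comm, Real.exp_mul, Real.exp_log (by linarith), Real.rpow_natCast]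
          rw [Real.exp_sub, Real.exp_add, e1, e2]

end Pool.Agent.U214.PT
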