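import Mathlib
import Pool.Agent.W262.RK.F4c
import Pool.Agent.U214.PT.Cnt

/-!
# The rank of the twist by `F` is bounded by the local count
-/

set_option autoImplicit false

namespace Pool.Agent.U214.PT

open Finset Pool.Agent.W262.RK
open Pool.Agent.W307.RT (S1 S2)

/-- the class -/
def c3 : Unit → Fin 4 := fun _ => 3

/-- the constants -/
def kab (a b : ℤ) : Unit → Fin 3 → ℤ := fun _ k => if k = 0 then a else if k = 1 then b else a - b

/-- the large primes do not divide the constants -/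
def Bab (a b : ℤ) (z : ℕ) : Prop :=
  2 ≤ z ∧ ∀ p : ℕ, p.Prime → z < p → ¬ (p : ℤ) ∣ a ∧ ¬ (p : ℤ) ∣ b ∧ ¬ (p : ℤ) ∣ a - b

lemma P3u (s : Unit → ℕ) : P3 c3 s = (s ()).primeFactors := by
  unfold P3 c3
  simp

/-- the number of the primes outside `t1` -/
lemma badP {a b : ℤ} {z y X K e : ℕ} (hB : Bab a b z) {F : ℤ} (h0 : F ≠ 0)
    (hb : F.natAbs ≤ X ^ e) (he : 1 ≤ e) (hy : 1 ≤ y) (hK : X < (y + 1) ^ K) :
    ((2 * (a * F) * (b * F) * (a * F - b * F)).natAbs.primeFactors.filter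
        (fun q => ¬ q ∣ t1 z y F)).card ≤ z + e * K + (t2 z y F).primeFactors.card := by
  have hsub : ((2 * (a * F) * (b * F) * (a * F - b * F)).natAbs.primeFactors.filter
      (fun q => ¬ q ∣ t1 z y F)) ⊆
      ((Icc 1 z) ∪ (F.natAbs.primeFactors.filter (y < ·))) ∪ (t2 z y F).primeFactors := by
    intro q hq
    rw [mem_filter] at hq
    have hp := Nat.prime_of_mem_primeFactors hq.1
    have hdv := Nat.dvd_of_mem_primeFactors hq.1
    rw [mem_union, mem_union, mem_Icc]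
    rcases Nat.lt_or_ge z q with h | h
    swap
    · exact Or.inl (Or.inl ⟨hp.one_lt.le, h⟩)
    · have hqi : Prime (q : ℤ) := Nat.prime_iff_prime_int.1 hp
      have hdv2 : (q : ℤ) ∣ 2 * (a * F) * (b * F) * (a * F - b * F) :=
        Int.natCast_dvd.2 hdv
      obtain ⟨ha, hb', hab⟩ := hB.2 q hp h
      have hqF : (q : ℤ) ∣ F := by
        rcases hqi.dvd_or_dvd hdv2 with h1 | h1
        · rcases hqi.dvd_or_dvd h1 with h2 | h2
          · rcases hqi.dvd_or_dvd h2 with h3 | h3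
            · exfalso
              have h4 : q ∣ 2 := by exact_mod_cast h3
              have h5 := Nat.le_of_dvd (by norm_num) h4
              have := hB.1
              omega
            · rcases hqi.dvd_or_dvd h3 with h4 | h4
              · exact absurd h4 ha
              · exact h4
          · rcases hqi.dvd_or_dvd h2 with h4 | h4
            · exact absurd h4 hb'
            · exact h4
        · rw [← sub_mul] at h1
          rcases hqi.dvd_or_dvd h1 with h4 | h4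
          · exact absurd h4 hab
          · exact h4
      rcases Nat.lt_or_ge y q with hyq | hyq
      · left; right
        rw [mem_filter, Nat.mem_primeFactors]
        exact ⟨⟨hp, Int.natCast_dvd.1 hqF, Int.natAbs_ne_zero.2 h0⟩, hyq⟩
      · right
        have hPS : q ∈ PS z y := mem_PS.2 ⟨⟨h, hyq⟩, hp⟩
        have hsq : (q : ℤ) ^ 2 ∣ F := by
          by_contra hcon
          exact hq.2 ((dvd_t1 hp).2 ⟨hPS, hqF, hcon⟩)
        rw [Nat.mem_primeFactors]
        refine ⟨hp, (dvd_t2 hp).2 ⟨hPS, hsq⟩, ?_⟩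
        unfold t2
        exact prod_ne_zero_iff.2 fun p hp => (mem_PS.1 (mem_filter.1 hp).1).2.ne_zero
  have hone : (F.natAbs.primeFactors.filter (y < ·)).card ≤ e * K := by
    obtain ⟨S, hS⟩ : ∃ S, S = F.natAbs.primeFactors.filter (y < ·) := ⟨_, rfl⟩
    rw [← hS]
    have h1 : (y + 1) ^ S.card ≤ ∏ q ∈ S, q :=
      Finset.pow_card_le_prod _ _ _ (fun q hq => by
        rw [hS] at hq
        have := (mem_filter.1 hq).2
        omega)
    have h2 : ∏ q ∈ S, q ∣ F.natAbs := by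
      rw [hS]
      exact (prod_dvd_prod_of_subset _ _ _ (filter_subset _ _)).trans
        (Nat.prod_primeFactors_dvd _)
    have h3 : ∏ q ∈ S, q ≤ F.natAbs :=
      Nat.le_of_dvd (Nat.pos_of_ne_zero (Int.natAbs_ne_zero.2 h0)) h2
    have h4 : (y + 1) ^ S.card < (y + 1) ^ (e * K) := by
      calc (y + 1) ^ S.card ≤ X ^ e := h1.trans (h3.trans hb)
        _ < ((y + 1) ^ K) ^ e := Nat.pow_lt_pow_left hK (by omega)
        _ = (y + 1) ^ (e * K) := by rw [← pow_mul, mul_comm]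
    exact ((Nat.pow_lt_pow_iff_right (by omega)).1 h4).le
  refine (card_le_card hsub).trans ((card_union_le _ _).trans (add_le_add
    ((card_union_le _ _).trans (add_le_add ?_ hone)) le_rfl))
  simp

lemma kab_nd {a b : ℤ} {z : ℕ} (hB : Bab a b z) {p : ℕ} (hp : p.Prime) (hz : z < p) (j : Unit)
    (k : Fin 3) : ¬ (p : ℤ) ∣ kab a b j k := by
  obtain ⟨h1, h2, h3⟩ := hB.2 p hp hz
  unfold kab
  split_ifs
  · exact h1
  · exact h2
  · exact h3

/-- the local hypotheses hold -/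
lemma locP {a b : ℤ} {z : ℕ} (hB : Bab a b z) {p : ℕ} (hp : p.Prime) (hz : z < p) {F : ℤ}
    (hj : (p : ℤ) ∣ F) (hj2 : ¬ (p : ℤ) ^ 2 ∣ F) {neg : Bool}
    (hneg : neg = true ↔ jacobiSym (F / p) p = -1) :
    LocH 3 (kab a b ()) neg p (a * F) (b * F) := by
  have hpi : Prime (p : ℤ) := Nat.prime_iff_prime_int.1 hp
  have hp0 : (p : ℤ) ≠ 0 := hpi.ne_zero
  obtain ⟨ha, hb, hab⟩ := hB.2 p hp hz
  have hd : ∀ c : ℤ, ¬ (p : ℤ) ∣ c → (p : ℤ) ∣ c * F ∧ ¬ (p : ℤ) ^ 2 ∣ c * F := by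
    intro c hc
    refine ⟨hj.mul_left _, fun h => hj2 ?_⟩
    exact (IsCoprime.pow_left ((Prime.coprime_iff_not_dvd hpi).2 hc)).dvd_of_dvd_mul_left h
  have hJ : jacobiSym (F / p) p = if neg = true then -1 else 1 := by
    split_ifs with h5
    · exact hneg.1 h5
    · have h6 : jacobiSym (F / p) p ≠ -1 := fun h7 => h5 (hneg.2 h7)
      have h7 : (F / p).gcd p = 1 := by
        rw [← Int.isCoprime_iff_gcd_eq_one]
        refine IsCoprime.symm ((Prime.coprime_iff_not_dvd hpi).2 fun h8 => hj2 ?_)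
        obtain ⟨q, hq⟩ := hj
        rw [hq, Int.mul_ediv_cancel_left _ hpi.ne_zero] at h8
        rw [hq, pow_two]
        exact mul_dvd_mul_left _ h8
      rcases jacobiSym.eq_one_or_neg_one h7 with h8 | h8
      · exact h8
      · exact absurd h8 h6
  have hsy : ∀ c : ℤ, ¬ (p : ℤ) ∣ c → jacobiSym (c * (c * F / p)) p = jacobiSym (F / p) p := by
    intro c hc
    obtain ⟨q, hq⟩ := hj
    have e1 : c * F / p = q * c := by
      rw [hq, mul_left_comm, Int.mul_ediv_cancel_left _ hp0, mul_comm]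
    have e2 : F / p = q := by rw [hq, Int.mul_ediv_cancel_left _ hp0]
    rw [e1, e2]
    have h1 : c * (q * c) = q * (1 * c * c) := by ring
    rw [h1]
    exact symb_sq hp 1 (by rw [one_mul]) (fun h => by
      have := Int.natAbs_dvd_natAbs.2 h
      simp at this
      exact hp.one_lt.ne' this) hc
  unfold LocH
  rw [if_neg (by decide), if_neg (by decide), if_neg (by decide)]
  refine ⟨(hd a ha).1, (hd b hb).1, (hd a ha).2, (hd b hb).2, ?_, ?_, ?_, ?_⟩
  · rw [← sub_mul]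
    exact (hd _ hab).2
  · rw [show kab a b () 0 = a from rfl, hsy a ha, hJ]
  · rw [show kab a b () 1 = b from rfl, hsy b hb, hJ]
  · rw [← sub_mul, show kab a b () 2 = a - b from rfl, hsy (a - b) hab, hJ]

lemma t1_mem {z y : ℕ} (F : ℤ) : t1 z y F ∈ (PP z y).divisors := by
  rw [Nat.mem_divisors]
  exact ⟨prod_dvd_prod_of_subset _ _ _ (filter_subset _ _), PP_ne_zero z y⟩

lemma t2_mem {z y : ℕ} (F : ℤ) : t2 z y F ∈ (PP z y).divisors := by
  rw [Nat.mem_divisors]
  exact ⟨prod_dvd_prod_of_subset _ _ _ (filter_subset _ _), PP_ne_zero z y⟩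

/-- the rank is bounded by the local count -/
lemma rankP {a b : ℤ} {z y X k e : ℕ} (hB : Bab a b z) (ha : a ≠ 0) (hb : b ≠ 0) (hab : a ≠ b)
    {F : ℤ} (h0 : F ≠ 0) (hF : F.natAbs ≤ X ^ e) (he : 1 ≤ e) (hy : 1 ≤ y)
    (hk : X < (y + 1) ^ k) :
    2 ^ Module.finrank ℤ (EAB (a * F) (b * F)).toAffine.Point ≤
      4 ^ (z + 2) * (4 ^ e) ^ k * 4 ^ (t2 z y F).primeFactors.card *
        NL (t1 z y F) (LLs c3 (kab a b) (fun _ => t1 z y F) (ngs F (t1 z y F))) := by
  have hz2 := hB.1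
  have hmd : t1 z y F ∣ PP z y := Nat.dvd_of_mem_divisors (t1_mem F)
  have hPSof : ∀ p : ℕ, p.Prime → p ∣ t1 z y F → p ∈ PS z y := fun p hp h =>
    (prime_dvd_PP hp).1 (h.trans hmd)
  have hnκ : ∀ p : ℕ, p.Prime → p ∣ t1 z y F → ∀ j k, ¬ (p : ℤ) ∣ kab a b j k := by
    intro p hp h j k
    exact kab_nd hB hp (mem_PS.1 (hPSof p hp h)).1.1 j k
  have hodd : ∀ p : ℕ, p.Prime → p ∣ t1 z y F → p ≠ 2 := by
    intro p hp h
    have h1 := (mem_PS.1 (hPSof p hp h)).1.1
    omega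
  have hA : a * F ≠ 0 := mul_ne_zero ha h0
  have hB' : b * F ≠ 0 := mul_ne_zero hb h0
  have hAB : a * F ≠ b * F := fun h => hab (mul_right_cancel₀ h0 h)
  have hd := Pool.Agent.W214.RK2.desc4 (t1 z y F)
    (LLs c3 (kab a b) (fun _ => t1 z y F) (ngs F (t1 z y F)))
    (a * F) (b * F) hA hB' hAB
    (by
      rw [← Nat.not_even_iff_odd, even_iff_two_dvd]
      intro h
      exact hodd 2 Nat.prime_two h rfl)
    ((PP_squarefree z y).squarefree_of_dvd hmd)
    (fun p hp hpd => ⟨fun j hj => (Pool.Agent.W342.RK2.xcl _ _ _ p hp (hodd p hp hpd)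
        (hnκ p hp hpd j)).1,
      fun a1 b1 c1 d1 a2 b2 c2 d2 e1 e2 j hj =>
        (Pool.Agent.W342.RK2.xcl _ _ _ p hp (hodd p hp hpd) (hnκ p hp hpd j)).2
          a1 b1 c1 d1 a2 b2 c2 d2 (e1 j hj) (e2 j hj)⟩)
    (fun p hp hpd x x' hx' hcurve e1 e2 he1 he2 hsq1 hsq2 j hj => by
      have hpp : p.Prime := Fact.out
      have hjs := (dvd_t1 hpp).1 hpd
      have hzp := (mem_PS.1 hjs.1).1.1
      refine Pool.Agent.W342.RK2.locl 3 (kab a b j) _ p _ _ (hodd p hpp hpd)
        (hnκ p hpp hpd j) (locP hB hpp hzp hjs.2.1 hjs.2.2 ?_) x x' hx' hcurve e1 e2 he1 he2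
        hsq1 hsq2
      rw [decide_eq_true_eq]
      unfold ngs
      rw [mem_filter, Nat.mem_primeFactors]
      constructor
      · exact fun h => h.2
      · intro h5
        exact ⟨⟨hpp, hpd, dv_ne_zero (t1_mem F)⟩, h5⟩)
  refine hd.trans (Nat.mul_le_mul_right _ ?_)
  have hc := badP hB h0 hF he hy hk
  calc 4 ^ (((2 * (a * F) * (b * F) * (a * F - b * F)).natAbs.primeFactors.filter
        (fun q => ¬ q ∣ t1 z y F)).card + 2)
      ≤ 4 ^ ((z + 2) + e * k + (t2 z y F).primeFactors.card) :=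
        Nat.pow_le_pow_right (by norm_num) (by omega)
    _ = _ := by
        rw [pow_add, pow_add, pow_mul]

end Pool.Agent.U214.PT
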