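import Mathlib
import Pool.Agent.U214.PT.Wt
import Pool.Agent.W262.RK.AT4

/-! # The abstract bound with general weights -/

set_option autoImplicit false

namespace Pool.Agent.U214.PT

open Finset Pool.Agent.W262.RK Pool.Agent.W262.RK.AT

namespace AG

variable {ι : Type} [Fintype ι] [DecidableEq ι]

open Classical in
/-- the summand -/
noncomputable def HG (g : ι → ℕ → ℝ) (L : ι → ι → Bool) (κ : ι → ℤ) (d : ι → ℕ) : ℝ :=
  if (∀ i j, i ≠ j → (d i).Coprime (d j)) then (∏ i, g i (d i)) * Sym L κ d else 0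

lemma total_eq (g : ι → ℕ → ℝ) (L : ι → ι → Bool) (κ : ι → ℤ) (z y : ℕ) :
    ∑ d ∈ Tup ι z y, (∏ i, g i (d i)) * Sym L κ d =
      ∑ d ∈ Fintype.piFinset (fun _ : ι => (PP z y).divisors), HG g L κ d := by
  unfold Tup HG
  rw [sum_filter]

lemma HG_zero {g : ι → ℕ → ℝ} {L : ι → ι → Bool} {κ : ι → ℤ} {d : ι → ℕ}
    (h : ¬ (∀ i j, i ≠ j → (d i).Coprime (d j))) : HG g L κ d = 0 := by
  unfold HG
  rw [if_neg h]

/-- the bounds used (for fixed `z`) -/
structure Bd (g : ι → ℕ → ℝ) (ex : ι → ℝ) (N z : ℕ) (C : ℝ) : Prop where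
  w0 : ∀ i, 0 < ex i
  w1 : ∀ i, ex i ≤ N
  N1 : 1 ≤ N
  z3 : 3 ≤ z
  C1 : 1 ≤ C
  g0 : ∀ i (y m : ℕ), m ∈ (PP z y).divisors → 0 ≤ g i m
  g1 : ∀ i, g i 1 = 1
  gl : ∀ i (y m : ℕ), m ∈ (PP z y).divisors → g i m ≤ 1 / (m : ℝ)
  F1 : ∀ i y, z < y → ∑ d ∈ (PP z y).divisors, g i d * hh d ≤ C * (Real.log y) ^ (ex i)
  F2 : ∀ i (y V : ℕ), z < y → 2 ≤ V →
    ∑ d ∈ (PP z y).divisors.filter (fun d => d ≤ V), g i d * hh d ≤ C * (Real.log V) ^ (ex i)
  F3 : ∀ i (y Y : ℕ), z < y → 1 ≤ Y →
    ∑ d ∈ (PP z y).divisors.filter (fun d => Y < d), g i d * hh d ≤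
      C * Real.exp (-(Real.log Y / Real.log y)) * (Real.log y) ^ N

/-- the exponential saving -/
noncomputable def ph (h : ℕ → ℝ) (wi : ℝ) (κi : ℤ) (z y r : ℕ) (e : Bool) : ℝ :=
  Real.exp (-(wi * ∑ p ∈ PS z y, h p * (1 - Jr p r * Jr κi p * x4 e p)))

lemma ph_pos (h : ℕ → ℝ) (wi : ℝ) (κi : ℤ) (z y r : ℕ) (e : Bool) : 0 < ph h wi κi z y r e :=
  Real.exp_pos _

/-- the twisted Euler products -/
def EE (g : ι → ℕ → ℝ) (h : ℕ → ℝ) (w ex : ι → ℝ) (κ : ι → ℤ) (z : ℕ) (C : ℝ) : Prop :=
  ∀ i (y R r : ℕ) (e : Bool), z < y → R ≠ 0 →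
    |∑ d ∈ (PP z y).divisors.filter (fun d => d.Coprime R),
        g i d * (Jr d r * Jr (κ i) d * x4 e d)| ≤
      C * (Real.log y) ^ (ex i) * ph h (w i) (κ i) z y r e * hh R

variable {g : ι → ℕ → ℝ} {h : ℕ → ℝ} {w ex : ι → ℝ} {L : ι → ι → Bool} {κ : ι → ℤ} {N z : ℕ}
  {C : ℝ}

lemma Bd.z2 (hB : Bd g ex N z C) : 2 ≤ z := by have := hB.z3; omega

lemma abs_HG_le (hB : Bd g ex N z C) {y : ℕ} {d : ι → ℕ} (hd : ∀ i, d i ∈ (PP z y).divisors) :
    |HG g L κ d| ≤ ∏ i, g i (d i) := by
  have h0 : 0 ≤ ∏ i, g i (d i) := prod_nonneg fun i _ => hB.g0 i _ _ (hd i)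
  unfold HG
  split_ifs
  · rw [abs_mul, abs_of_nonneg h0]
    exact mul_le_of_le_one_right h0 (abs_Sym_le _ _ _)
  · simpa using h0

/-- trivial bound -/
lemma triv (hB : Bd g ex N z C) {y : ℕ} {t : ι → Finset ℕ} (ht : ∀ i, t i ⊆ (PP z y).divisors) :
    |∑ d ∈ Fintype.piFinset t, HG g L κ d| ≤ ∏ i, ∑ m ∈ t i, g i m := by
  rw [prod_univ_sum]
  refine (abs_sum_le_sum_abs _ _).trans (sum_le_sum fun d hd => ?_)
  rw [Fintype.mem_piFinset] at hd
  exact abs_HG_le hB fun i => ht i (hd i)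

lemma gl_hh (hB : Bd g ex N z C) (i : ι) {y m : ℕ} (hm : m ∈ (PP z y).divisors) :
    g i m ≤ g i m * hh m :=
  le_mul_of_one_le_right (hB.g0 i _ _ hm) (one_le_hh m)

/-- the summand as a function of one variable -/
lemma HG_update {g : ι → ℕ → ℝ} {L : ι → ι → Bool} {κ : ι → ℤ} {z y : ℕ} (i : ι)
    (hL : L i i = false) (hz : 2 ≤ z) {e : ι → ℕ} (he : ∀ b, e b ∈ (PP z y).divisors) :
    (∀ m, HG g L κ (Function.update e i m) = 0) ∨
      (∀ a b, a ≠ i → b ≠ i → a ≠ b → (e a).Coprime (e b)) ∧ ∃ t : Bool, ∀ m ∈ (PP z y).divisors,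
      HG g L κ (Function.update e i m) =
        if m.Coprime (∏ b ∈ univ.erase i, e b) then
          ((∏ b ∈ univ.erase i, g b (e b)) * RR L κ i e) *
            (g i m * (Jr m (lk L i e) * Jr (κ i) m * x4 t m)) else 0 := by
  classical
  by_cases hcop : ∀ a b, a ≠ i → b ≠ i → a ≠ b → (e a).Coprime (e b)
  · right
    refine ⟨hcop, ?_⟩
    obtain ⟨t, ht⟩ := XX_char L i e (fun b => dv_odd hz (he b))
    refine ⟨t, fun m hm => ?_⟩
    have hiff : m.Coprime (∏ b ∈ univ.erase i, e b) ↔ ∀ b, b ≠ i → m.Coprime (e b) := by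
      rw [Nat.coprime_prod_right_iff]
      simp
    have hiff2 : (∀ a b, a ≠ b → (Function.update e i m a).Coprime (Function.update e i m b)) ↔
        ∀ b, b ≠ i → m.Coprime (e b) := by
      constructor
      · intro h b hb
        have := h i b (Ne.symm hb)
        rwa [Function.update_self, Function.update_of_ne hb] at this
      · intro h a b hab
        by_cases ha : a = i
        · subst ha
          rw [Function.update_self, Function.update_of_ne (Ne.symm hab)]
          exact h b (Ne.symm hab)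
        · by_cases hb : b = i
          · subst hb
            rw [Function.update_self, Function.update_of_ne ha]
            exact (h a ha).symm
          · rw [Function.update_of_ne ha, Function.update_of_ne hb]
            exact hcop a b ha hb hab
    unfold HG
    by_cases h : ∀ b, b ≠ i → m.Coprime (e b)
    · rw [if_pos (hiff2.2 h), if_pos (hiff.2 h), sym_update L κ i hL, ht m (dv_odd hz hm) h,
        ← mul_prod_erase univ _ (mem_univ i), Function.update_self]
      have : ∏ b ∈ univ.erase i, g b (Function.update e i m b) =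
          ∏ b ∈ univ.erase i, g b (e b) := by
        apply prod_congr rfl
        intro b hb
        rw [Function.update_of_ne (mem_erase.1 hb).1]
      rw [this]
      ring
    · rw [if_neg (fun h' => h (hiff2.1 h')), if_neg (fun h' => h (hiff.1 h'))]
  · left
    intro m
    unfold HG
    rw [if_neg]
    intro h
    apply hcop
    intro a b ha hb hab
    have := h a b hab
    rwa [Function.update_of_ne ha, Function.update_of_ne hb] at this

/-- the sum over one large variable -/
lemma inner (hB : Bd g ex N z C) (hE : EE g h w ex κ z C) (i : ι) (hL : L i i = false) {y V Y : ℕ}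
    (hy : z < y) (hV : 2 ≤ V) (hVY : V ≤ Y) {e : ι → ℕ} (he : ∀ b, e b ∈ (PP z y).divisors) :
    |∑ m ∈ (PP z y).divisors.filter (fun m => V < m ∧ m ≤ Y), HG g L κ (Function.update e i m)| ≤
      (∏ b ∈ univ.erase i, g b (e b) * hh (e b)) *
        (C * (Real.log y) ^ (ex i) * ∑ t : Bool, ph h (w i) (κ i) z y (lk L i e) t +
          C * (Real.log V) ^ (ex i) +
          C * Real.exp (-(Real.log Y / Real.log y)) * (Real.log y) ^ N) := by
  have hC0 : 0 ≤ C := zero_le_one.trans hB.C1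
  have hV' : 0 ≤ Real.log V := Real.log_natCast_nonneg V
  have hly : 0 ≤ Real.log y := Real.log_natCast_nonneg y
  have hΦ : 0 ≤ ∑ t : Bool, ph h (w i) (κ i) z y (lk L i e) t :=
    sum_nonneg fun t _ => (ph_pos _ _ _ _ _ _ _).le
  have hP0 : 0 ≤ ∏ b ∈ univ.erase i, g b (e b) * hh (e b) :=
    prod_nonneg fun b _ => mul_nonneg (hB.g0 b _ _ (he b)) (hh_nonneg _)
  have hB0 : 0 ≤ C * (Real.log y) ^ (ex i) * ∑ t : Bool, ph h (w i) (κ i) z y (lk L i e) t + C * (Real.log V) ^ (ex i) +
      C * Real.exp (-(Real.log Y / Real.log y)) * (Real.log y) ^ N := by positivity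
  rcases HG_update (g := g) (κ := κ) i hL hB.z2 he with h0 | ⟨hcop, t, ht⟩
  · rw [sum_eq_zero fun m _ => h0 m, abs_zero]
    exact mul_nonneg hP0 hB0
  · set R := ∏ b ∈ univ.erase i, e b with hR
    set P := ∏ b ∈ univ.erase i, g b (e b) with hP
    set f : ℕ → ℝ := fun m => g i m * (Jr m (lk L i e) * Jr (κ i) m * x4 t m) with hf
    have hPn : 0 ≤ P := prod_nonneg fun b _ => hB.g0 b _ _ (he b)
    have hRne : R ≠ 0 := prod_ne_zero_iff.2 fun b _ => dv_ne_zero (he b)
    have h1 : ∑ m ∈ (PP z y).divisors.filter (fun m => V < m ∧ m ≤ Y),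
        HG g L κ (Function.update e i m) =
        P * RR L κ i e * ∑ m ∈ ((PP z y).divisors.filter (fun m => m.Coprime R)).filter
          (fun m => V < m ∧ m ≤ Y), f m := by
      rw [filter_filter, mul_sum]
      have h2 : (PP z y).divisors.filter (fun m => m.Coprime R ∧ V < m ∧ m ≤ Y) =
          ((PP z y).divisors.filter (fun m => V < m ∧ m ≤ Y)).filter (fun m => m.Coprime R) := by
        rw [filter_filter]
        apply filter_congr
        intro m _
        tauto
      rw [h2]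
      symm
      rw [sum_filter]
      apply sum_congr rfl
      intro m hm
      rw [ht m (mem_filter.1 hm).1]
    set D := (PP z y).divisors.filter (fun m => m.Coprime R) with hD
    have hDs : D ⊆ (PP z y).divisors := filter_subset _ _
    have h3 : ∑ m ∈ D.filter (fun m => V < m ∧ m ≤ Y), f m =
        ∑ m ∈ D, f m - ∑ m ∈ D.filter (fun m => m ≤ V), f m - ∑ m ∈ D.filter (fun m => Y < m), f m := by
      have e1 : ∑ m ∈ D.filter (fun m => V < m ∧ m ≤ Y), f m + ∑ m ∈ D.filter (fun m => Y < m), f m =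
          ∑ m ∈ D.filter (fun m => ¬ m ≤ V), f m := by
        rw [← sum_union]
        · apply sum_congr _ (fun _ _ => rfl)
          ext m
          simp only [mem_union, mem_filter]
          constructor
          · rintro (⟨h1, h2, h3⟩ | ⟨h1, h2⟩)
            · exact ⟨h1, by omega⟩
            · exact ⟨h1, by omega⟩
          · rintro ⟨h1, h2⟩
            by_cases h3 : m ≤ Y
            · exact Or.inl ⟨h1, by omega, h3⟩
            · exact Or.inr ⟨h1, by omega⟩
        · rw [disjoint_filter]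
          intro m _ h1 h2
          omega
      have e2 := sum_filter_add_sum_filter_not D (fun m => m ≤ V) f
      linarith
    have hfa : ∀ m ∈ (PP z y).divisors, |f m| ≤ g i m * hh m := by
      intro m hm
      have g0 := hB.g0 i _ _ hm
      rw [hf]
      simp only
      rw [abs_mul, abs_of_nonneg g0]
      have : |Jr m (lk L i e) * Jr (κ i) m * x4 t m| ≤ 1 := by
        rw [abs_mul, abs_mul]
        exact mul_le_one₀ (mul_le_one₀ (abs_Jr_le _ _) (abs_nonneg _) (abs_Jr_le _ _)) (abs_nonneg _)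
          (abs_x4_le _ _)
      calc g i m * |Jr m (lk L i e) * Jr (κ i) m * x4 t m| ≤ g i m * 1 :=
            mul_le_mul_of_nonneg_left this g0
        _ ≤ g i m * hh m := mul_le_mul_of_nonneg_left (one_le_hh m) g0
    have hnn : ∀ m ∈ (PP z y).divisors, 0 ≤ g i m * hh m := fun m hm =>
      mul_nonneg (hB.g0 i _ _ hm) (hh_nonneg _)
    have h4 : |∑ m ∈ D.filter (fun m => m ≤ V), f m| ≤ C * (Real.log V) ^ (ex i) := by
      refine (abs_sum_le_sum_abs _ _).trans ?_
      refine le_trans ?_ (hB.F2 i y V hy hV)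
      calc ∑ m ∈ D.filter (fun m => m ≤ V), |f m| ≤ ∑ m ∈ D.filter (fun m => m ≤ V),
            g i m * hh m := sum_le_sum fun m hm => hfa m (hDs (mem_filter.1 hm).1)
        _ ≤ _ := sum_le_sum_of_subset_of_nonneg (filter_subset_filter _ hDs)
          fun m hm _ => hnn m (mem_filter.1 hm).1
    have h5 : |∑ m ∈ D.filter (fun m => Y < m), f m| ≤
        C * Real.exp (-(Real.log Y / Real.log y)) * (Real.log y) ^ N := by
      refine (abs_sum_le_sum_abs _ _).trans ?_
      refine le_trans ?_ (hB.F3 i y Y hy (by omega))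
      calc ∑ m ∈ D.filter (fun m => Y < m), |f m| ≤ ∑ m ∈ D.filter (fun m => Y < m),
            g i m * hh m := sum_le_sum fun m hm => hfa m (hDs (mem_filter.1 hm).1)
        _ ≤ _ := sum_le_sum_of_subset_of_nonneg (filter_subset_filter _ hDs)
          fun m hm _ => hnn m (mem_filter.1 hm).1
    have h6 : |∑ m ∈ D, f m| ≤ (C * (Real.log y) ^ (ex i) * ∑ t : Bool,
        ph h (w i) (κ i) z y (lk L i e) t) * hh R := by
      refine (hE i y R (lk L i e) t hy hRne).trans ?_
      apply mul_le_mul_of_nonneg_right _ (hh_nonneg _)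
      apply mul_le_mul_of_nonneg_left _ (by positivity)
      exact single_le_sum (f := fun t : Bool => ph h (w i) (κ i) z y (lk L i e) t)
        (fun t _ => (ph_pos _ _ _ _ _ _ _).le) (mem_univ t)
    have h7 : hh R ≤ ∏ b ∈ univ.erase i, hh (e b) :=
      hh_prod_le _ _ fun b _ => dv_ne_zero (he b)
    have h8 : (1 : ℝ) ≤ ∏ b ∈ univ.erase i, hh (e b) := by
      calc (1 : ℝ) = ∏ b ∈ univ.erase i, (1 : ℝ) := by simp
        _ ≤ _ := prod_le_prod (fun _ _ => zero_le_one) fun b _ => one_le_hh _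
    have hRR := abs_RR_le L κ i e
    rw [h1, abs_mul, abs_mul, abs_of_nonneg hPn, prod_mul_distrib]
    set H := ∏ b ∈ univ.erase i, hh (e b) with hH
    have h9 : |∑ m ∈ D.filter (fun m => V < m ∧ m ≤ Y), f m| ≤
        H * (C * (Real.log y) ^ (ex i) * ∑ t : Bool, ph h (w i) (κ i) z y (lk L i e) t + C * (Real.log V) ^ (ex i) +
          C * Real.exp (-(Real.log Y / Real.log y)) * (Real.log y) ^ N) := by
      rw [h3]
      have a1 : |∑ m ∈ D, f m - ∑ m ∈ D.filter (fun m => m ≤ V), f m -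
          ∑ m ∈ D.filter (fun m => Y < m), f m| ≤ |∑ m ∈ D, f m| +
          |∑ m ∈ D.filter (fun m => m ≤ V), f m| + |∑ m ∈ D.filter (fun m => Y < m), f m| := by
        refine (abs_sub _ _).trans ?_
        have := abs_sub (∑ m ∈ D, f m) (∑ m ∈ D.filter (fun m => m ≤ V), f m)
        linarith
      have b1 : 0 ≤ C * (Real.log y) ^ (ex i) * ∑ t : Bool, ph h (w i) (κ i) z y (lk L i e) t := by positivity
      have b2 : 0 ≤ C * (Real.log V) ^ (ex i) := by positivity
      have b3 : 0 ≤ C * Real.exp (-(Real.log Y / Real.log y)) * (Real.log y) ^ N := by positivity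
      have a2 : |∑ m ∈ D, f m| ≤ H * (C * (Real.log y) ^ (ex i) * ∑ t : Bool, ph h (w i) (κ i) z y (lk L i e) t) := by
        refine h6.trans ?_
        rw [mul_comm]
        exact mul_le_mul_of_nonneg_right h7 b1
      have a3 := le_mul_of_one_le_left b2 h8
      have a4 := le_mul_of_one_le_left b3 h8
      calc _ ≤ _ := a1
        _ ≤ H * (C * (Real.log y) ^ (ex i) * ∑ t : Bool, ph h (w i) (κ i) z y (lk L i e) t) + H * (C * (Real.log V) ^ (ex i)) +
            H * (C * Real.exp (-(Real.log Y / Real.log y)) * (Real.log y) ^ N) := by linarith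
        _ = _ := by ring
    calc P * |RR L κ i e| * |∑ m ∈ D.filter (fun m => V < m ∧ m ≤ Y), f m|
        ≤ P * 1 * (H * (C * (Real.log y) ^ (ex i) * ∑ t : Bool, ph h (w i) (κ i) z y (lk L i e) t + C * (Real.log V) ^ (ex i) +
          C * Real.exp (-(Real.log Y / Real.log y)) * (Real.log y) ^ N)) := by
          apply mul_le_mul (mul_le_mul_of_nonneg_left hRR hPn) h9 (abs_nonneg _)
          positivity
      _ = _ := by ring

end AG

end Pool.Agent.U214.PT
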