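import Mathlib
import Pool.Agent.U214.PT.AT3

/-! # The abstract bound with general weights: small linked variables -/

set_option autoImplicit false

namespace Pool.Agent.U214.PT

open Finset Pool.Agent.W262.RK
open Pool.Agent.W262.RK.AT (VV YY BW lg cl cell cell_sub cell_zero cell_one cell_two cell_three
  patterns one_le_log three_le_VV VV_le_YY VV_ge VV_le log_YY_ge log_YY_le log_VV_pow_le exp_neg_pow
  one_le_log_VV sum_others hh_mul_le hh_prod_le)

namespace AG

variable {ι : Type} [Fintype ι] [DecidableEq ι]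

variable {g : ι → ℕ → ℝ} {h : ℕ → ℝ} {w ex : ι → ℝ} {L : ι → ι → Bool} {κ : ι → ℤ} {N z : ℕ}
  {C : ℝ}

/-- the saving properties -/
structure SS (h : ℕ → ℝ) (w : ι → ℝ) (z : ℕ) (θ c δ C3 : ℝ) : Prop where
  C0 : 0 ≤ C3
  sv : ∀ (i : ι) (ψ : ℕ → ℝ), (∀ p, |ψ p| ≤ 1) → ∀ V y m0 : ℕ, z < y → 1 ≤ m0 →
    (V : ℝ) ^ θ ≤ Real.log y →
    ∑ m ∈ (PP z y).divisors.filter (fun m => 1 < m ∧ m0 ≤ m ∧ m ≤ V), hh m / m *
      Real.exp (-(w i * ∑ p ∈ PS z y, h p * (1 - ψ p * Jr p m))) ≤ C3 * (m0 : ℝ) ^ (-c)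
  tl : ∀ y : ℕ, ∑ m ∈ (PP z y).divisors, hh m / m * (m : ℝ) ^ (-δ) ≤ C3

/-- the small variables: the largest one -/
lemma mx_split {z y V Y : ℕ} (π : ι → Fin 4) (S1 : Finset ι) (hS1 : S1.Nonempty)
    (hS : ∀ b ∈ S1, π b = 1) (g : ι → ℕ → ℝ) (L : ι → ι → Bool) (κ : ι → ℤ) :
    ∑ d ∈ Fintype.piFinset (fun b => cell z y V Y (π b)), HG g L κ d =
      ∑ j ∈ S1, ∑ d ∈ Fintype.piFinset (fun b => cell z y V Y (π b)),
        (if ∀ b ∈ S1, d b ≤ d j then HG g L κ d else 0) := by
  rw [sum_comm]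
  refine sum_congr rfl fun d hd => ?_
  by_cases hc : ∀ i j, i ≠ j → (d i).Coprime (d j)
  · obtain ⟨j, hj, hmax⟩ := S1.exists_max_image d hS1
    rw [sum_eq_single_of_mem j hj]
    · rw [if_pos hmax]
    · intro j' hj' hne
      rw [if_neg]
      intro h
      have h1 := hmax j' hj'
      have h2 := h j hj
      have h3 : d j = d j' := le_antisymm h2 h1
      have h4 := hc j' j hne
      rw [h3, Nat.coprime_self] at h4
      have h5 := Fintype.mem_piFinset.1 hd j'
      rw [hS j' hj'] at h5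
      have := (cell_one h5).1
      omega
  · simp [HG_zero hc]

lemma main_in (hB : Bd g ex N z C) {θ c δ C3 : ℝ} (hS : SS h w z θ c δ C3) {i j : ι} (hji : j ≠ i)
    (hij : L i j ≠ L j i) {y V Y : ℕ} (hy : z < y) (hV : (V : ℝ) ^ θ ≤ Real.log y)
    (S1 : Finset ι) {e : ι → ℕ} (he : ∀ b, e b ∈ (PP z y).divisors) :
    ∑ m ∈ cell z y V Y 1, (if ∀ b ∈ S1, Function.update e j m b ≤ Function.update e j m j then
      (∏ b ∈ univ.erase i, g b (Function.update e j m b) * hh (Function.update e j m b)) *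
        ∑ t : Bool, ph h (w i) (κ i) z y (lk L i (Function.update e j m)) t else 0) ≤
      (∏ b ∈ (univ.erase i).erase j, g b (e b) * hh (e b)) *
        (2 * C3 * ((max 1 ((S1.erase j).sup e) : ℕ) : ℝ) ^ (-c)) := by
  obtain ⟨m0, hm0⟩ : ∃ m0, m0 = max 1 ((S1.erase j).sup e) := ⟨_, rfl⟩
  obtain ⟨P, hP⟩ : ∃ P, P = ∏ b ∈ (univ.erase i).erase j, g b (e b) * hh (e b) := ⟨_, rfl⟩
  obtain ⟨q, hq⟩ : ∃ q, q = ∏ b ∈ ((univ.erase i).filter (fun b => L i b ≠ L b i)).erase j, e b :=
    ⟨_, rfl⟩
  rw [← hm0, ← hP]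
  have hP0 : 0 ≤ P := by
    rw [hP]
    exact prod_nonneg fun b _ => gk_nonneg hB b (he b)
  have hq0 : q ≠ 0 := by
    rw [hq]
    exact prod_ne_zero_iff.2 fun b _ => dv_ne_zero (he b)
  have hjm : j ∈ univ.erase i := mem_erase.2 ⟨hji, mem_univ j⟩
  have hjf : j ∈ (univ.erase i).filter (fun b => L i b ≠ L b i) := mem_filter.2 ⟨hjm, hij⟩
  have hlk : ∀ m, lk L i (Function.update e j m) = m * q := by
    intro m
    unfold lk
    rw [← mul_prod_erase _ _ hjf, Function.update_self, hq]
    congr 1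
    exact prod_congr rfl fun b hb => Function.update_of_ne (mem_erase.1 hb).1 _ _
  have hpr : ∀ m, ∏ b ∈ univ.erase i, g b (Function.update e j m b) *
      hh (Function.update e j m b) = g j m * hh m * P := by
    intro m
    rw [← mul_prod_erase _ _ hjm, Function.update_self, hP]
    congr 1
    exact prod_congr rfl fun b hb => by rw [Function.update_of_ne (mem_erase.1 hb).1]
  obtain ⟨ψ, hψ⟩ : ∃ ψ : Bool → ℕ → ℝ, ψ = fun (t : Bool) (p : ℕ) => Jr p q * Jr (κ i) p * x4 t p := ⟨_, rfl⟩
  have hψ1 : ∀ t p, |ψ t p| ≤ 1 := by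
    intro t p
    rw [hψ]
    simp only
    rw [abs_mul, abs_mul]
    exact mul_le_one₀ (mul_le_one₀ (abs_Jr_le _ _) (abs_nonneg _) (abs_Jr_le _ _)) (abs_nonneg _)
      (abs_x4_le _ _)
  have hph : ∀ m, m ≠ 0 → ∀ t, ph h (w i) (κ i) z y (m * q) t =
      Real.exp (-(w i * ∑ p ∈ PS z y, h p * (1 - ψ t p * Jr p m))) := by
    intro m hm t
    unfold ph
    have : ∑ p ∈ PS z y, h p * (1 - Jr p (m * q) * Jr (κ i) p * x4 t p) =
        ∑ p ∈ PS z y, h p * (1 - ψ t p * Jr p m) := by
      refine sum_congr rfl fun p _ => ?_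
      rw [Jr_mul_right _ hm hq0, hψ]
      ring
    rw [this]
  obtain ⟨G, hG⟩ : ∃ G : ℕ → ℝ, G = fun m => P * ∑ t : Bool, (hh m / m *
    Real.exp (-(w i * ∑ p ∈ PS z y, h p * (1 - ψ t p * Jr p m)))) := ⟨_, rfl⟩
  have hG0 : ∀ m, 0 ≤ G m := by
    intro m
    rw [hG]
    refine mul_nonneg hP0 (sum_nonneg fun t _ => mul_nonneg (div_nonneg (hh_nonneg m)
      (Nat.cast_nonneg m)) (Real.exp_pos _).le)
  calc ∑ m ∈ cell z y V Y 1, (if ∀ b ∈ S1, Function.update e j m b ≤ Function.update e j m j then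
      (∏ b ∈ univ.erase i, g b (Function.update e j m b) * hh (Function.update e j m b)) *
        ∑ t : Bool, ph h (w i) (κ i) z y (lk L i (Function.update e j m)) t else 0)
      ≤ ∑ m ∈ cell z y V Y 1, (if m0 ≤ m then G m else 0) := by
        refine sum_le_sum fun m hm => ?_
        have hmd := cell_sub _ _ _ _ _ hm
        by_cases hc : ∀ b ∈ S1, Function.update e j m b ≤ Function.update e j m j
        · have h1 : m0 ≤ m := by
            rw [hm0, max_le_iff]
            refine ⟨(cell_one hm).1.le, Finset.sup_le fun b hb => ?_⟩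
            have h2 := hc b (mem_erase.1 hb).2
            rwa [Function.update_of_ne (mem_erase.1 hb).1, Function.update_self] at h2
          rw [if_pos hc, if_pos h1, hpr, hlk, hG]
          have h3 : g j m * hh m ≤ hh m / m := by
            have h4 := hB.gl j _ _ hmd
            calc g j m * hh m ≤ 1 / (m : ℝ) * hh m :=
                  mul_le_mul_of_nonneg_right h4 (hh_nonneg m)
              _ = hh m / m := by ring
          have h5 : ∑ t : Bool, ph h (w i) (κ i) z y (m * q) t =
              ∑ t : Bool, Real.exp (-(w i * ∑ p ∈ PS z y, h p * (1 - ψ t p * Jr p m))) :=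
            sum_congr rfl fun t _ => hph m (dv_ne_zero hmd) t
          rw [h5]
          simp only
          rw [← mul_sum]
          have h6 : 0 ≤ ∑ t : Bool,
              Real.exp (-(w i * ∑ p ∈ PS z y, h p * (1 - ψ t p * Jr p m))) :=
            sum_nonneg fun t _ => (Real.exp_pos _).le
          calc _ = P * (g j m * hh m * ∑ t : Bool,
                Real.exp (-(w i * ∑ p ∈ PS z y, h p * (1 - ψ t p * Jr p m)))) := by ring
            _ ≤ _ := mul_le_mul_of_nonneg_left (mul_le_mul_of_nonneg_right h3 h6) hP0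
        · rw [if_neg hc]
          split_ifs
          · exact hG0 m
          · exact le_refl _
    _ = ∑ m ∈ (cell z y V Y 1).filter (fun m => m0 ≤ m), G m := by rw [sum_filter]
    _ ≤ ∑ m ∈ (PP z y).divisors.filter (fun m => 1 < m ∧ m0 ≤ m ∧ m ≤ V), G m := by
        refine sum_le_sum_of_subset_of_nonneg ?_ fun m _ _ => hG0 m
        intro m hm
        rw [mem_filter] at hm ⊢
        have h1 := cell_one hm.1
        exact ⟨cell_sub _ _ _ _ _ hm.1, h1.1, hm.2, h1.2⟩
    _ = P * ∑ t : Bool, ∑ m ∈ (PP z y).divisors.filter (fun m => 1 < m ∧ m0 ≤ m ∧ m ≤ V),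
          (hh m / m * Real.exp (-(w i * ∑ p ∈ PS z y, h p * (1 - ψ t p * Jr p m)))) := by
        rw [hG, ← mul_sum, sum_comm]
    _ ≤ P * ∑ t : Bool, C3 * (m0 : ℝ) ^ (-c) := by
        refine mul_le_mul_of_nonneg_left (sum_le_sum fun t _ => ?_) hP0
        exact hS.sv i (ψ t) (hψ1 t) V y m0 hy (by rw [hm0]; exact le_max_left _ _) hV
    _ = _ := by
        simp only [Fintype.sum_bool]
        ring

lemma m0_le {δ : ℝ} (hδ : 0 ≤ δ) (s : Finset ι) (e : ι → ℕ) (he : ∀ b, 0 < e b) :
    ((max 1 (s.sup e) : ℕ) : ℝ) ^ (-(δ * Fintype.card ι)) ≤ ∏ b ∈ s, (e b : ℝ) ^ (-δ) := by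
  obtain ⟨m0, hm0⟩ : ∃ m0, m0 = max 1 (s.sup e) := ⟨_, rfl⟩
  rw [← hm0]
  have h1 : 1 ≤ m0 := by rw [hm0]; exact le_max_left _ _
  have h1' : (1 : ℝ) ≤ m0 := by exact_mod_cast h1
  have hb : ∀ b ∈ s, (m0 : ℝ) ^ (-δ) ≤ (e b : ℝ) ^ (-δ) := by
    intro b hb
    refine Real.rpow_le_rpow_of_nonpos (by exact_mod_cast he b) ?_ (by linarith)
    have h2 : e b ≤ m0 := by
      rw [hm0]
      exact le_trans (le_sup (f := e) hb) (le_max_right _ _)
    exact_mod_cast h2
  calc (m0 : ℝ) ^ (-(δ * Fintype.card ι)) ≤ (m0 : ℝ) ^ (-(δ * s.card)) := by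
        refine Real.rpow_le_rpow_of_exponent_le h1' ?_
        have h3 : (s.card : ℝ) ≤ Fintype.card ι := by
          exact_mod_cast (card_le_card (subset_univ s)).trans (le_of_eq card_univ)
        have := mul_le_mul_of_nonneg_left h3 hδ
        linarith
    _ = ∏ b ∈ s, (m0 : ℝ) ^ (-δ) := by
        rw [prod_const, ← Real.rpow_natCast, ← Real.rpow_mul (by linarith)]
        congr 1
        ring
    _ ≤ _ := prod_le_prod (fun b _ => by positivity) hb

/-- the main term -/
lemma main_sum (hB : Bd g ex N z C) {θ δ C3 : ℝ} (hδ : 0 ≤ δ)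
    (hS : SS h w z θ (δ * Fintype.card ι) δ C3) (π : ι → Fin 4) (h3 : ∀ k, π k ≠ 3) {i j : ι}
    (hi : π i = 2) (hj : π j = 1) (hij : L i j ≠ L j i) {y V Y : ℕ} (hy : z < y)
    (hV : (V : ℝ) ^ θ ≤ Real.log y) :
    ∑ e ∈ Fintype.piFinset (Function.update (fun b => cell z y V Y (π b)) i {1}),
      (if ∀ b ∈ univ.filter (fun k => π k = 1), e b ≤ e j then
        (∏ b ∈ univ.erase i, g b (e b) * hh (e b)) *
          ∑ t : Bool, ph h (w i) (κ i) z y (lk L i e) t else 0) ≤
      2 * C3 * (C + C3) ^ (Fintype.card ι) *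
        (Real.log y) ^ (∑ k ∈ (univ.erase i).filter (fun k => π k = 2), ex k) := by
  classical
  have hC0 : 0 ≤ C := zero_le_one.trans hB.C1
  have hC30 := hS.C0
  have hly := one_le_log hB.z2 hy
  have hly0 : 0 < Real.log y := by linarith
  have hji : j ≠ i := by rintro rfl; rw [hi] at hj; exact absurd hj (by decide)
  obtain ⟨S1, hS1⟩ : ∃ S1, S1 = univ.filter (fun k => π k = 1) := ⟨_, rfl⟩
  rw [← hS1]
  rw [sum_update (Function.update (fun b => cell z y V Y (π b)) i {1}) j,
    Function.update_of_ne hji]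
  simp only [hj]
  obtain ⟨t'', ht''⟩ : ∃ t'' : ι → Finset ℕ, t'' = Function.update
    (Function.update (fun b => cell z y V Y (π b)) i {1}) j {1} := ⟨_, rfl⟩
  rw [← ht'']
  have hti : t'' i = {1} := by rw [ht'', Function.update_of_ne hji.symm, Function.update_self]
  have htj : t'' j = {1} := by rw [ht'', Function.update_self]
  have htb : ∀ b, b ≠ i → b ≠ j → t'' b = cell z y V Y (π b) := by
    intro b h1 h2
    rw [ht'', Function.update_of_ne h2, Function.update_of_ne h1]
  obtain ⟨f, hf⟩ : ∃ f : ι → ℕ → ℝ, f = fun b m => if b = i ∨ b = j then 1 else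
    (g b m * hh m) * (if π b = 1 then (m : ℝ) ^ (-δ) else 1) := ⟨_, rfl⟩
  have hstep : ∀ e ∈ Fintype.piFinset t'',
      ∑ m ∈ cell z y V Y 1, (if ∀ b ∈ S1, Function.update e j m b ≤ Function.update e j m j then
      (∏ b ∈ univ.erase i, g b (Function.update e j m b) * hh (Function.update e j m b)) *
        ∑ t : Bool, ph h (w i) (κ i) z y (lk L i (Function.update e j m)) t else 0) ≤
      2 * C3 * ∏ b, f b (e b) := by
    intro e he
    have he' : ∀ b, e b ∈ (PP z y).divisors := by
      intro b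
      have h1 := Fintype.mem_piFinset.1 he b
      by_cases hbi : b = i
      · subst hbi
        rw [hti, mem_singleton] at h1
        rw [h1]
        exact one_mem_dv z y
      by_cases hbj : b = j
      · subst hbj
        rw [htj, mem_singleton] at h1
        rw [h1]
        exact one_mem_dv z y
      rw [htb b hbi hbj] at h1
      exact cell_sub _ _ _ _ _ h1
    refine (main_in hB hS hji hij hy hV S1 he').trans ?_
    have h1 := m0_le hδ (S1.erase j) e fun b => dv_pos (he' b)
    have hP0 : 0 ≤ ∏ b ∈ (univ.erase i).erase j, g b (e b) * hh (e b) :=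
      prod_nonneg fun b _ => gk_nonneg hB b (he' b)
    have h2 : (∏ b ∈ (univ.erase i).erase j, g b (e b) * hh (e b)) *
        ∏ b ∈ S1.erase j, (e b : ℝ) ^ (-δ) = ∏ b, f b (e b) := by
      have him : i ∈ (univ : Finset ι) := mem_univ i
      have hjm : j ∈ univ.erase i := mem_erase.2 ⟨hji, mem_univ j⟩
      rw [← mul_prod_erase univ (fun b => f b (e b)) him,
        ← mul_prod_erase (univ.erase i) (fun b => f b (e b)) hjm]
      have e1 : f i (e i) = 1 := by rw [hf]; simp
      have e2 : f j (e j) = 1 := by rw [hf]; simp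
      rw [e1, e2, one_mul, one_mul]
      have e3 : ∏ b ∈ S1.erase j, (e b : ℝ) ^ (-δ) =
          ∏ b ∈ (univ.erase i).erase j, (if π b = 1 then (e b : ℝ) ^ (-δ) else 1) := by
        rw [← prod_filter]
        refine prod_congr ?_ fun _ _ => rfl
        ext b
        rw [hS1]
        simp only [mem_erase, mem_filter, mem_univ, and_true, true_and]
        constructor
        · rintro ⟨h1, h2⟩
          refine ⟨⟨h1, ?_⟩, h2⟩
          rintro rfl
          rw [hi] at h2
          exact absurd h2 (by decide)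
        · rintro ⟨⟨h1, -⟩, h2⟩
          exact ⟨h1, h2⟩
      rw [e3, ← prod_mul_distrib]
      refine prod_congr rfl fun b hb => ?_
      rw [mem_erase, mem_erase] at hb
      rw [hf]
      simp only [hb.1, hb.2.1, or_self, if_false]
    calc (∏ b ∈ (univ.erase i).erase j, g b (e b) * hh (e b)) *
        (2 * C3 * ((max 1 ((S1.erase j).sup e) : ℕ) : ℝ) ^ (-(δ * Fintype.card ι)))
        ≤ (∏ b ∈ (univ.erase i).erase j, g b (e b) * hh (e b)) *
          (2 * C3 * ∏ b ∈ S1.erase j, (e b : ℝ) ^ (-δ)) := by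
          apply mul_le_mul_of_nonneg_left _ hP0
          exact mul_le_mul_of_nonneg_left h1 (by positivity)
      _ = _ := by rw [← h2]; ring
  refine (sum_le_sum hstep).trans ?_
  rw [← mul_sum, ← prod_univ_sum]
  have hfac : ∀ b ∈ (univ : Finset ι), ∑ m ∈ t'' b, f b m ≤
      (C + C3) * (if π b = 2 ∧ b ≠ i then (Real.log y) ^ (ex b) else 1) := by
    intro b _
    have hCC : 1 ≤ C + C3 := by linarith [hB.C1]
    by_cases hbi : b = i
    · subst hbi
      rw [hti, if_neg (by simp), sum_singleton, hf]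
      simpa using hCC
    by_cases hbj : b = j
    · subst hbj
      rw [htj, if_neg (by rw [hj]; rintro ⟨h1, -⟩; exact absurd h1 (by decide)), sum_singleton, hf]
      simpa using hCC
    rw [htb b hbi hbj]
    have hfb : ∀ m, f b m = (g b m * hh m) * (if π b = 1 then (m : ℝ) ^ (-δ) else 1) := by
      intro m
      rw [hf]
      simp only [hbi, hbj, or_self, if_false]
    have hcase : π b = 0 ∨ π b = 1 ∨ π b = 2 := by
      have := h3 b
      revert this
      generalize π b = r
      revert r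
      decide
    rcases hcase with h0 | h0 | h0
    · rw [h0, if_neg (by rintro ⟨h1, -⟩; exact absurd h1 (by decide))]
      calc ∑ m ∈ cell z y V Y 0, f b m ≤ ∑ m ∈ ({1} : Finset ℕ), f b m := by
            apply sum_le_sum_of_subset_of_nonneg
            · intro m hm
              rw [mem_singleton]
              exact cell_zero hm
            · intro m hm _
              rw [mem_singleton] at hm
              rw [hfb, hm, h0, hB.g1, hh_one]
              norm_num
        _ ≤ (C + C3) * 1 := by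
            rw [sum_singleton, hfb, h0, hB.g1, hh_one]
            norm_num
            exact hCC
    · rw [h0, if_neg (by rintro ⟨h1, -⟩; exact absurd h1 (by decide)), mul_one]
      calc ∑ m ∈ cell z y V Y 1, f b m ≤ ∑ m ∈ cell z y V Y 1, hh m / m * (m : ℝ) ^ (-δ) := by
            refine sum_le_sum fun m hm => ?_
            have hmd := cell_sub _ _ _ _ _ hm
            rw [hfb, h0, if_pos rfl]
            refine mul_le_mul_of_nonneg_right ?_ (Real.rpow_nonneg (Nat.cast_nonneg m) _)
            calc g b m * hh m ≤ 1 / (m : ℝ) * hh m :=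
                  mul_le_mul_of_nonneg_right (hB.gl b _ _ hmd) (hh_nonneg m)
              _ = hh m / m := by ring
        _ ≤ ∑ m ∈ (PP z y).divisors, hh m / m * (m : ℝ) ^ (-δ) := by
            refine sum_le_sum_of_subset_of_nonneg (cell_sub _ _ _ _ _) fun m _ _ => ?_
            exact mul_nonneg (div_nonneg (hh_nonneg m) (Nat.cast_nonneg m))
              (Real.rpow_nonneg (Nat.cast_nonneg m) _)
        _ ≤ C3 := hS.tl y
        _ ≤ C + C3 := by linarith
    · rw [if_pos ⟨h0, hbi⟩]
      have hl0 : 0 ≤ (Real.log y) ^ (ex b) := Real.rpow_nonneg hly0.le _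
      calc ∑ m ∈ cell z y V Y (π b), f b m = ∑ m ∈ cell z y V Y (π b), g b m * hh m := by
            refine sum_congr rfl fun m _ => ?_
            rw [hfb, h0, if_neg (by decide), mul_one]
        _ ≤ ∑ m ∈ (PP z y).divisors, g b m * hh m :=
            sum_le_sum_of_subset_of_nonneg (cell_sub _ _ _ _ _) fun m hm _ => gk_nonneg hB b hm
        _ ≤ C * (Real.log y) ^ (ex b) := hB.F1 b y hy
        _ ≤ _ := mul_le_mul_of_nonneg_right (by linarith) hl0
  have hfac0 : ∀ b ∈ (univ : Finset ι), 0 ≤ ∑ m ∈ t'' b, f b m := by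
    intro b _
    refine sum_nonneg fun m hm => ?_
    rw [hf]
    simp only
    split_ifs with h1 h2
    · exact zero_le_one
    · push Not at h1
      rw [htb b h1.1 h1.2] at hm
      exact mul_nonneg (gk_nonneg hB b (cell_sub _ _ _ _ _ hm))
        (Real.rpow_nonneg (Nat.cast_nonneg m) _)
    · push Not at h1
      rw [htb b h1.1 h1.2] at hm
      rw [mul_one]
      exact gk_nonneg hB b (cell_sub _ _ _ _ _ hm)
  have hprod := prod_le_prod hfac0 hfac
  have hcomp : ∏ b, ((C + C3) * (if π b = 2 ∧ b ≠ i then (Real.log y) ^ (ex b) else 1)) =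
      (C + C3) ^ (Fintype.card ι) *
        (Real.log y) ^ (∑ k ∈ (univ.erase i).filter (fun k => π k = 2), ex k) := by
    rw [prod_mul_distrib, prod_const, card_univ, prod_ite, prod_const_one, mul_one,
      ← Real.rpow_sum_of_pos hly0]
    congr 3
    ext b
    simp only [mem_filter, mem_erase, mem_univ, and_true, true_and]
    tauto
  rw [hcomp] at hprod
  calc 2 * C3 * ∏ b, ∑ m ∈ t'' b, f b m ≤ 2 * C3 * ((C + C3) ^ (Fintype.card ι) *
        (Real.log y) ^ (∑ k ∈ (univ.erase i).filter (fun k => π k = 2), ex k)) :=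
        mul_le_mul_of_nonneg_left hprod (by positivity)
    _ = _ := by ring

end AG

end Pool.Agent.U214.PT
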