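import Mathlib
import Pool.Agent.U214.PT.AT4

/-! # The abstract bound with general weights: the theorem -/

set_option autoImplicit false

namespace Pool.Agent.U214.PT

open Finset Pool.Agent.W262.RK
open Pool.Agent.W262.RK.AT (VV YY BW lg cl cell cell_sub cell_zero cell_one cell_two cell_three
  patterns one_le_log three_le_VV VV_le_YY VV_ge VV_le log_YY_ge log_YY_le log_VV_pow_le exp_neg_pow
  one_le_log_VV sum_others hh_mul_le hh_prod_le)

namespace AG

variable {ι : Type} [Fintype ι] [DecidableEq ι]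

variable {g : ι → ℕ → ℝ} {h : ℕ → ℝ} {w ex : ι → ℝ} {L : ι → ι → Bool} {κ : ι → ℤ} {N z : ℕ}
  {C : ℝ}

/-- the small variable `j` is the largest and linked with the large variable `i` -/
lemma one_j (hB : Bd g ex N z C) (hE : EE g h w ex κ z C) (hL : ∀ i, L i i = false) (A : ℕ)
    {K θ δ C3 : ℝ} (hδ : 0 ≤ δ) (hS : SS h w z θ (δ * Fintype.card ι) δ C3)
    (hθ : ∀ y : ℕ, z < y → (VV A (Real.log y) : ℝ) ^ θ ≤ Real.log y) (π : ι → Fin 4)
    (h3 : ∀ k, π k ≠ 3) {i j : ι} (hi : π i = 2) (hj : π j = 1) (hij : L i j ≠ L j i)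
    (hK : ∑ k ∈ univ.filter (fun k => π k = 2), ex k ≤ K) :
    ∃ C' : ℝ, ∀ y, z < y →
      |∑ d ∈ Fintype.piFinset (fun b => cell z y (VV A (Real.log y)) (YY A (Real.log y)) (π b)),
        (if ∀ b ∈ univ.filter (fun k => π k = 1), d b ≤ d j then HG g L κ d else 0)| ≤
        C' * (Real.log y) ^ K := by
  classical
  have hC0 : 0 ≤ C := zero_le_one.trans hB.C1
  have hC30 := hS.C0
  obtain ⟨S, hSS⟩ : ∃ S, S = ∑ k ∈ univ.filter (fun k => π k = 2), ex k := ⟨_, rfl⟩
  obtain ⟨M, hM⟩ : ∃ M, M = Fintype.card ι := ⟨_, rfl⟩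
  obtain ⟨C1, hC1, h1⟩ := log_VV_pow_le A (N * M + N) (hB.w0 i)
  refine ⟨C * (2 * C3 * (C + C3) ^ M) + C ^ M * C1 * (C + C * N.factorial), fun y hy => ?_⟩
  have hly := one_le_log hB.z2 hy
  have hly0 : 0 < Real.log y := by linarith
  obtain ⟨l, hl⟩ : ∃ l, l = Real.log y := ⟨_, rfl⟩
  obtain ⟨V, hV⟩ : ∃ V, V = VV A l := ⟨_, rfl⟩
  obtain ⟨Y, hY⟩ : ∃ Y, Y = YY A l := ⟨_, rfl⟩
  rw [← hl, ← hV, ← hY]
  rw [← hl] at hly hly0
  have hV3 : 3 ≤ V := by rw [hV]; exact three_le_VV A l
  have hVY : V ≤ Y := by rw [hV, hY]; exact VV_le_YY A l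
  have hlV : 1 ≤ Real.log V := by rw [hV]; exact one_le_log_VV A l
  have hlV0 : 0 ≤ Real.log V := by linarith
  obtain ⟨S1, hS1⟩ : ∃ S1, S1 = univ.filter (fun k => π k = 1) := ⟨_, rfl⟩
  have hiS1 : i ∉ S1 := by
    rw [hS1, mem_filter]
    rintro ⟨-, h⟩
    rw [hi] at h
    exact absurd h (by decide)
  have hjS1 : j ∈ S1 := by rw [hS1, mem_filter]; exact ⟨mem_univ j, hj⟩
  have hji : j ≠ i := by rintro rfl; exact hiS1 hjS1
  have hms := main_sum (κ := κ) hB hδ hS π h3 hi hj hij (V := V) (Y := Y) hy (by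
    rw [hV, hl]; exact hθ y hy)
  rw [← hS1] at hms ⊢
  rw [sum_update (fun b => cell z y V Y (π b)) i]
  simp only [hi]
  have hti : cell z y V Y 2 = (PP z y).divisors.filter (fun m => V < m ∧ m ≤ Y) :=
    cell_two (by omega)
  obtain ⟨T', hT'⟩ : ∃ T', T' = Fintype.piFinset
    (Function.update (fun b => cell z y V Y (π b)) i {1}) := ⟨_, rfl⟩
  rw [← hT'] at hms ⊢
  obtain ⟨Q, hQ⟩ : ∃ Q, Q = C * (Real.log V) ^ (ex i) +
    C * Real.exp (-(Real.log Y / l)) * l ^ N := ⟨_, rfl⟩
  have hQ0 : 0 ≤ Q := by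
    rw [hQ]
    positivity
  have hstep : ∀ e ∈ T', |∑ m ∈ cell z y V Y 2, (if ∀ b ∈ S1, Function.update e i m b ≤
      Function.update e i m j then HG g L κ (Function.update e i m) else 0)| ≤
      C * l ^ (ex i) * (if ∀ b ∈ S1, e b ≤ e j then
        (∏ b ∈ univ.erase i, g b (e b) * hh (e b)) *
          ∑ t : Bool, ph h (w i) (κ i) z y (lk L i e) t else 0) +
      (∏ b ∈ univ.erase i, g b (e b) * hh (e b)) * Q := by
    intro e he
    rw [hT'] at he
    have he' : ∀ b, e b ∈ (PP z y).divisors := by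
      intro b
      have h1 := Fintype.mem_piFinset.1 he b
      by_cases hbi : b = i
      · subst hbi
        rw [Function.update_self, mem_singleton] at h1
        rw [h1]
        exact one_mem_dv z y
      · rw [Function.update_of_ne hbi] at h1
        exact cell_sub _ _ _ _ _ h1
    have hP0 : 0 ≤ ∏ b ∈ univ.erase i, g b (e b) * hh (e b) :=
      prod_nonneg fun b _ => gk_nonneg hB b (he' b)
    have hcond : ∀ m, (∀ b ∈ S1, Function.update e i m b ≤ Function.update e i m j) ↔
        ∀ b ∈ S1, e b ≤ e j := by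
      intro m
      constructor
      · intro h b hb
        have hbi : b ≠ i := by rintro rfl; exact hiS1 hb
        have := h b hb
        rwa [Function.update_of_ne hbi, Function.update_of_ne hji] at this
      · intro h b hb
        have hbi : b ≠ i := by rintro rfl; exact hiS1 hb
        rw [Function.update_of_ne hbi, Function.update_of_ne hji]
        exact h b hb
    by_cases hc : ∀ b ∈ S1, e b ≤ e j
    · rw [if_pos hc]
      have h2 : ∑ m ∈ cell z y V Y 2, (if ∀ b ∈ S1, Function.update e i m b ≤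
          Function.update e i m j then HG g L κ (Function.update e i m) else 0) =
          ∑ m ∈ (PP z y).divisors.filter (fun m => V < m ∧ m ≤ Y),
            HG g L κ (Function.update e i m) := by
        rw [hti]
        refine sum_congr rfl fun m _ => ?_
        rw [if_pos ((hcond m).2 hc)]
      rw [h2]
      refine (inner hB hE i (hL i) hy (by omega) hVY he').trans (le_of_eq ?_)
      rw [hQ, ← hl]
      ring
    · rw [if_neg hc, sum_eq_zero fun m _ => if_neg (fun h => hc ((hcond m).1 h)), abs_zero]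
      have := mul_nonneg hP0 hQ0
      linarith
  refine (abs_sum_le_sum_abs _ _).trans ((sum_le_sum hstep).trans ?_)
  rw [sum_add_distrib, ← mul_sum, ← sum_mul, hT',
    sum_others i (fun b => cell z y V Y (π b)) (fun b m => g b m * hh m), ← hT']
  have hPL := prod_low hB hy (V := V) (Y := Y) hV3 π (univ.erase i) fun k _ => h3 k
  have hsum : ∑ k ∈ (univ.erase i).filter (fun k => π k = 2), ex k = S - ex i := by
    have : (univ.erase i).filter (fun k => π k = 2) = (univ.filter (fun k => π k = 2)).erase i := by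
      ext k
      simp only [mem_filter, mem_erase, mem_univ, and_true, true_and]
    rw [this, hSS, ← add_sum_erase _ _ (show i ∈ univ.filter (fun k => π k = 2) by
      rw [mem_filter]; exact ⟨mem_univ i, hi⟩)]
    ring
  rw [hsum, ← hl] at hPL hms
  have hlY : l ≤ Real.log Y / l := by
    rw [le_div_iff₀ hly0]
    have := log_YY_ge A l
    rw [hY]
    nlinarith
  have hbr : Q ≤ (C + C * N.factorial) * (Real.log V) ^ N := by
    have hlVN : 1 ≤ (Real.log V) ^ N := one_le_pow₀ hlV
    have e2 : (Real.log V) ^ (ex i) ≤ (Real.log V) ^ N := by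
      rw [← Real.rpow_natCast]
      exact Real.rpow_le_rpow_of_exponent_le hlV (hB.w1 i)
    have e3 : Real.exp (-(Real.log Y / l)) * l ^ N ≤ N.factorial := by
      have a1 : Real.exp (-(Real.log Y / l)) ≤ Real.exp (-l) := Real.exp_le_exp.2 (by linarith)
      have a2 := exp_neg_pow N hly
      exact (mul_le_mul_of_nonneg_right a1 (by positivity)).trans a2
    have e4 : C * Real.exp (-(Real.log Y / l)) * l ^ N ≤ C * N.factorial * (Real.log V) ^ N := by
      have b1 : C * (Real.exp (-(Real.log Y / l)) * l ^ N) ≤ C * N.factorial :=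
        mul_le_mul_of_nonneg_left e3 hC0
      have b2 : C * N.factorial ≤ C * N.factorial * (Real.log V) ^ N :=
        le_mul_of_one_le_right (by positivity) hlVN
      calc _ = C * (Real.exp (-(Real.log Y / l)) * l ^ N) := by ring
        _ ≤ _ := b1.trans b2
    have e6 := mul_le_mul_of_nonneg_left e2 hC0
    rw [hQ]
    calc _ ≤ C * (Real.log V) ^ N + C * N.factorial * (Real.log V) ^ N := add_le_add e6 e4
      _ = _ := by ring
  have hVp := h1 l hly
  rw [← hV] at hVp
  have hlK : l ^ S ≤ l ^ K := Real.rpow_le_rpow_of_exponent_le hly (by rw [hSS]; exact hK)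
  have hA1 : C * l ^ (ex i) * (2 * C3 * (C + C3) ^ (Fintype.card ι) * l ^ (S - ex i)) =
      C * (2 * C3 * (C + C3) ^ M) * l ^ S := by
    have : l ^ (ex i) * l ^ (S - ex i) = l ^ S := by
      rw [← Real.rpow_add hly0]; congr 1; ring
    rw [← this, hM]
    ring
  have hA2 : (∏ b ∈ univ.erase i, ∑ m ∈ cell z y V Y (π b), g b m * hh m) * Q ≤
      C ^ M * C1 * (C + C * N.factorial) * l ^ S := by
    calc _ ≤ (C ^ M * l ^ (S - ex i) * (Real.log V) ^ (N * M)) *
          ((C + C * N.factorial) * (Real.log V) ^ N) := by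
          refine mul_le_mul ?_ hbr hQ0 (by positivity)
          rw [hM]
          exact hPL
      _ = C ^ M * (C + C * N.factorial) * l ^ (S - ex i) * (Real.log V) ^ (N * M + N) := by
          rw [pow_add]; ring
      _ ≤ C ^ M * (C + C * N.factorial) * l ^ (S - ex i) * (C1 * l ^ (ex i)) :=
          mul_le_mul_of_nonneg_left hVp (by positivity)
      _ = C ^ M * C1 * (C + C * N.factorial) * (l ^ (S - ex i) * l ^ (ex i)) := by ring
      _ = _ := by rw [← Real.rpow_add hly0]; congr 2; ring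
  calc _ ≤ C * l ^ (ex i) * (2 * C3 * (C + C3) ^ (Fintype.card ι) * l ^ (S - ex i)) +
        C ^ M * C1 * (C + C * N.factorial) * l ^ S := by
        refine add_le_add (mul_le_mul_of_nonneg_left hms (by positivity)) hA2
    _ = (C * (2 * C3 * (C + C3) ^ M) + C ^ M * C1 * (C + C * N.factorial)) * l ^ S := by
        rw [hA1]; ring
    _ ≤ _ := mul_le_mul_of_nonneg_left hlK (by positivity)

/-- maximal unlinked large variables and a small variable different from 1 -/
lemma max_case (hB : Bd g ex N z C) (hE : EE g h w ex κ z C) (hL : ∀ i, L i i = false) (A : ℕ)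
    {K θ δ C3 : ℝ} (hδ : 0 ≤ δ) (hS : SS h w z θ (δ * Fintype.card ι) δ C3)
    (hθ : ∀ y : ℕ, z < y → (VV A (Real.log y) : ℝ) ^ θ ≤ Real.log y) (π : ι → Fin 4)
    (h3 : ∀ k, π k ≠ 3) (hne : ∃ j, π j = 1)
    (hlk : ∀ j, π j = 1 → ∃ i, π i = 2 ∧ L i j ≠ L j i)
    (hK : ∑ k ∈ univ.filter (fun k => π k = 2), ex k ≤ K) :
    ∃ C' : ℝ, ∀ y, z < y →
      |∑ d ∈ Fintype.piFinset (fun b => cell z y (VV A (Real.log y)) (YY A (Real.log y)) (π b)),
        HG g L κ d| ≤ C' * (Real.log y) ^ K := by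
  classical
  have hex : ∀ j : ι, ∃ C' : ℝ, j ∈ univ.filter (fun k => π k = 1) → ∀ y, z < y →
      |∑ d ∈ Fintype.piFinset (fun b => cell z y (VV A (Real.log y)) (YY A (Real.log y)) (π b)),
        (if ∀ b ∈ univ.filter (fun k => π k = 1), d b ≤ d j then HG g L κ d else 0)| ≤
        C' * (Real.log y) ^ K := by
    intro j
    by_cases hj : π j = 1
    · obtain ⟨i, hi, hij⟩ := hlk j hj
      obtain ⟨C', h⟩ := one_j hB hE hL A hδ hS hθ π h3 hi hj hij hK
      exact ⟨C', fun _ => h⟩
    · exact ⟨0, fun h => absurd (mem_filter.1 h).2 hj⟩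
  choose C' hC' using hex
  refine ⟨∑ j ∈ univ.filter (fun k => π k = 1), C' j, fun y hy => ?_⟩
  obtain ⟨j0, hj0⟩ := hne
  rw [mx_split π (univ.filter (fun k => π k = 1)) ⟨j0, by simp [hj0]⟩ (fun b hb =>
    (mem_filter.1 hb).2) g L κ, sum_mul]
  exact (abs_sum_le_sum_abs _ _).trans (sum_le_sum fun j hj => hC' j hj y hy)

/-- all patterns -/
lemma pat (hB : Bd g ex N z C) (hE : EE g h w ex κ z C) {C2 : ℝ} {E2 : ℕ} (hC2 : 0 ≤ C2)
    (h2 : BW C2 E2) (hL : ∀ i, L i i = false) {A : ℕ} (hA : 6 * (N * Fintype.card ι + 2 * E2) ≤ A)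
    {K θ δ C3 : ℝ} (hδ : 0 ≤ δ) (hS : SS h w z θ (δ * Fintype.card ι) δ C3)
    (hθ : ∀ y : ℕ, z < y → (VV A (Real.log y) : ℝ) ^ θ ≤ Real.log y)
    (hK : ∀ U : Finset ι, (∀ i ∈ U, ∀ j ∈ U, L i j = L j i) → ∑ i ∈ U, ex i ≤ K)
    (π : ι → Fin 4) : ∃ C' : ℝ, ∀ y, z < y →
      |∑ d ∈ Fintype.piFinset (fun b => cell z y (VV A (Real.log y)) (YY A (Real.log y)) (π b)),
        HG g L κ d| ≤ C' * (Real.log y) ^ K := by
  have hK0 : 0 ≤ K := by simpa using hK ∅ (by simp)
  by_cases h3 : ∃ k, π k = 3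
  · obtain ⟨k, hk⟩ := h3
    exact tail_case hB _ hK0 π hk
  push Not at h3
  by_cases hl : ∃ i j, π i = 2 ∧ π j = 2 ∧ L i j ≠ L j i
  · obtain ⟨i, j, hi, hj, hij⟩ := hl
    exact link_case hB hC2 h2 hL hA hK0 π hi hj hij
  push Not at hl
  have hSm : ∑ k ∈ univ.filter (fun k => π k = 2), ex k ≤ K := by
    apply hK
    intro i hi j hj
    exact hl i j (mem_filter.1 hi).2 (mem_filter.1 hj).2
  rcases hSm.lt_or_eq with hlt | heq
  · exact triv_case hB _ π h3 hlt
  by_cases h1 : ∃ j, π j = 1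
  · refine max_case hB hE hL A hδ hS hθ π h3 h1 (fun j hj => ?_) hSm
    by_contra hcon
    push Not at hcon
    have hjn : j ∉ univ.filter (fun k => π k = 2) := by
      rw [mem_filter, hj]
      rintro ⟨-, h⟩
      exact absurd h (by decide)
    have := hK (insert j (univ.filter (fun k => π k = 2))) (by
      intro a ha b hb
      rw [mem_insert] at ha hb
      rcases ha with rfl | ha
      · rcases hb with rfl | hb
        · rfl
        · exact (hcon b (mem_filter.1 hb).2).symm
      · rcases hb with rfl | hb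
        · exact hcon a (mem_filter.1 ha).2
        · exact hl a b (mem_filter.1 ha).2 (mem_filter.1 hb).2)
    rw [sum_insert hjn, heq] at this
    have := hB.w0 j
    linarith
  · push Not at h1
    refine diag_case hB _ π (fun k => ?_) hSm
    have a1 := h1 k
    have a3 := h3 k
    revert a1 a3
    generalize π k = r
    revert r
    decide

end AG

end Pool.Agent.U214.PT
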