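import Mathlib
import Pool.Agent.W405.RK2.RS
import Pool.Agent.W591.RK2.RVRU
import Pool.Agent.U214.PT.Wt

/-!
# The weighted sums with general weights
-/

set_option autoImplicit false

namespace Pool.Agent.U214.PT

open Finset Pool.Agent.W262.RK

variable {h : ℕ → ℝ} {B C0 M : ℝ} {z : ℕ}

lemma ghn (H : Wt h B C0 M z) {y d : ℕ} (hd : d ∣ PP z y) : 0 ≤ gh h d := by
  unfold gh
  refine prod_nonneg fun p hp => ?_
  have h1 := Nat.prime_of_mem_primeFactors hp
  have h2 : p ∈ PS z y := Pool.Agent.W405.RK2.prime_dvd_PP h1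
    ((Nat.dvd_of_mem_primeFactors hp).trans hd)
  exact H.nn p h1 (mem_PS.1 h2).1.1

section rs

open Pool.Agent.W405.RK2 hiding mem_Tup PP_squarefree PP_ne_zero
open Pool.Agent.W405.RK2 (mem_Tup)

/-- the main inequality -/
lemma main_ineqW (H : Wt h B C0 M z) {Q : ℝ} (hQ : 0 ≤ Q) (J : Type) [Fintype J] [DecidableEq J]
    (y : ℕ) (G : (J → ℕ) → ℝ) (δ : ℝ) (hδ : 0 ≤ δ) (hG : ∀ s, 0 ≤ G s)
    (hg : ∀ s e : J → ℕ, (fun j => s j * e j) ∈ Tup J z y →
      G (fun j => s j * e j) ≤ Q ^ (∑ j, (e j).primeFactors.card) * G s) :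
    ∑ s ∈ Tup J z y, G s * (∏ j, gh h (s j)) * (∏ j, (s j : ℝ)) ^ δ ≤
      (∑ e ∈ Tup J z y, ∏ j, (Q ^ (e j).primeFactors.card * gh h (e j) * HH δ (e j))) *
        ∑ s ∈ Tup J z y, G s * ∏ j, gh h (s j) := by
  classical
  set F : (J → ℕ) × (J → ℕ) → ℝ := fun x =>
    (∏ j, (Q ^ (x.2 j).primeFactors.card * gh h (x.2 j) * HH δ (x.2 j))) *
      (G x.1 * ∏ j, gh h (x.1 j)) with hF
  have hR : (∑ e ∈ Tup J z y, ∏ j, (Q ^ (e j).primeFactors.card * gh h (e j) * HH δ (e j))) *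
        ∑ s ∈ Tup J z y, G s * ∏ j, gh h (s j) = ∑ x ∈ Tup J z y ×ˢ Tup J z y, F x := by
    rw [sum_mul_sum, sum_product, sum_comm]
  have hFn : ∀ x ∈ Tup J z y ×ˢ Tup J z y, 0 ≤ F x := by
    intro x hx
    rw [mem_product] at hx
    have h1 := mem_Tup.1 hx.1
    have h2 := mem_Tup.1 hx.2
    refine mul_nonneg (prod_nonneg fun j _ => ?_) (mul_nonneg (hG _) (prod_nonneg fun j _ => ?_))
    · exact mul_nonneg (mul_nonneg (by positivity) (ghn H (h2.1 j))) (HH_nonneg hδ _)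
    · exact ghn H (h1.1 j)
  -- expansion of the left side
  have hL : ∀ s ∈ Tup J z y, G s * (∏ j, gh h (s j)) * (∏ j, (s j : ℝ)) ^ δ =
      ∑ e ∈ Fintype.piFinset (fun j => (s j).divisors),
        G s * (∏ j, gh h (s j)) * ∏ j, HH δ (e j) := by
    intro s hs
    have h1 := mem_Tup.1 hs
    rw [← mul_sum]
    congr 1
    rw [← Real.finsetProd_rpow _ _ (fun i _ => Nat.cast_nonneg _)]
    rw [← Finset.prod_univ_sum]
    refine prod_congr rfl fun j _ => ?_
    exact rpow_expand δ ((PP_squarefree z y).squarefree_of_dvd (h1.1 j))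
  rw [sum_congr rfl hL, sum_sigma', hR]
  -- facts about the pairs
  have key : ∀ x ∈ (Tup J z y).sigma (fun s => Fintype.piFinset (fun j => (s j).divisors)),
      (∀ j, x.2 j ∣ x.1 j) ∧ (∀ j, x.1 j ∣ PP z y) ∧
      (∀ i j, i ≠ j → (x.1 i).Coprime (x.1 j)) := by
    intro x hx
    rw [mem_sigma] at hx
    have h1 := mem_Tup.1 hx.1
    have h2 := Fintype.mem_piFinset.1 hx.2
    exact ⟨fun j => Nat.dvd_of_mem_divisors (h2 j), h1.1, h1.2⟩
  set φ : (Σ _ : J → ℕ, J → ℕ) → (J → ℕ) × (J → ℕ) := fun x => (fun j => x.1 j / x.2 j, x.2)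
    with hφ
  have hinj : Set.InjOn φ
      ((Tup J z y).sigma (fun s => Fintype.piFinset (fun j => (s j).divisors)) : Set _) := by
    intro x hx x' hx' hxx
    have k1 := key x (Finset.mem_coe.1 hx)
    have k2 := key x' (Finset.mem_coe.1 hx')
    have e2 : x.2 = x'.2 := congrArg Prod.snd hxx
    have e1 : (fun j => x.1 j / x.2 j) = fun j => x'.1 j / x'.2 j := congrArg Prod.fst hxx
    have e3 : x.1 = x'.1 := by
      funext j
      have h3 := congrFun e1 j
      have h4 := Nat.div_mul_cancel (k1.1 j)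
      have h5 := Nat.div_mul_cancel (k2.1 j)
      have h3 : x.1 j / x.2 j = x'.1 j / x'.2 j := h3
      rw [← h4, ← h5, h3, e2]
    cases x; cases x'
    simp only at e2 e3
    subst e2; subst e3; rfl
  have hmaps : ∀ x ∈ (Tup J z y).sigma (fun s => Fintype.piFinset (fun j => (s j).divisors)),
      φ x ∈ Tup J z y ×ˢ Tup J z y := by
    intro x hx
    have k := key x hx
    rw [mem_product]
    constructor
    · rw [mem_Tup]
      refine ⟨fun j => (Nat.div_dvd_of_dvd (k.1 j)).trans (k.2.1 j), fun i j hij => ?_⟩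
      exact Nat.Coprime.coprime_dvd_left (Nat.div_dvd_of_dvd (k.1 i))
        (Nat.Coprime.coprime_dvd_right (Nat.div_dvd_of_dvd (k.1 j)) (k.2.2 i j hij))
    · rw [mem_Tup]
      refine ⟨fun j => (k.1 j).trans (k.2.1 j), fun i j hij => ?_⟩
      exact Nat.Coprime.coprime_dvd_left (k.1 i)
        (Nat.Coprime.coprime_dvd_right (k.1 j) (k.2.2 i j hij))
  have hterm : ∀ x ∈ (Tup J z y).sigma (fun s => Fintype.piFinset (fun j => (s j).divisors)),
      G x.1 * (∏ j, gh h (x.1 j)) * ∏ j, HH δ (x.2 j) ≤ F (φ x) := by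
    intro x hx
    have k := key x hx
    have hm := hmaps x hx
    rw [mem_product] at hm
    have hm1 := mem_Tup.1 hm.1
    have hm2 := mem_Tup.1 hm.2
    have e0 : (fun j => (x.1 j / x.2 j) * x.2 j) = x.1 := by
      funext j
      exact Nat.div_mul_cancel (k.1 j)
    have hx1 : x.1 ∈ Tup J z y := (mem_sigma.1 hx).1
    have h1 : G x.1 ≤ Q ^ (∑ j, (x.2 j).primeFactors.card) * G (fun j => x.1 j / x.2 j) := by
      have := hg (fun j => x.1 j / x.2 j) x.2 (by rw [e0]; exact hx1)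
      rwa [e0] at this
    have h2 : ∏ j, gh h (x.1 j) = (∏ j, gh h (x.1 j / x.2 j)) * ∏ j, gh h (x.2 j) := by
      rw [← prod_mul_distrib]
      refine prod_congr rfl fun j _ => ?_
      have h3 : x.1 j = (x.1 j / x.2 j) * x.2 j := (Nat.div_mul_cancel (k.1 j)).symm
      have hsq : Squarefree ((x.1 j / x.2 j) * x.2 j) := by
        rw [← h3]
        exact (PP_squarefree z y).squarefree_of_dvd (k.2.1 j)
      conv_lhs => rw [h3]
      exact gh_mul h (Nat.coprime_of_squarefree_mul hsq)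
    have n1 : 0 ≤ ∏ j, gh h (x.1 j / x.2 j) := prod_nonneg fun j _ => ghn H (hm1.1 j)
    have n2 : 0 ≤ ∏ j, gh h (x.2 j) := prod_nonneg fun j _ => ghn H (hm2.1 j)
    have n3 : 0 ≤ ∏ j, HH δ (x.2 j) := prod_nonneg fun j _ => HH_nonneg hδ _
    have h4 : F (φ x) = Q ^ (∑ j, (x.2 j).primeFactors.card) * G (fun j => x.1 j / x.2 j) *
        ((∏ j, gh h (x.1 j / x.2 j)) * (∏ j, gh h (x.2 j)) * ∏ j, HH δ (x.2 j)) := by
      simp only [hF, hφ]
      rw [prod_mul_distrib, prod_mul_distrib, Finset.prod_pow_eq_pow_sum]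
      ring
    rw [h4, h2]
    calc G x.1 * ((∏ j, gh h (x.1 j / x.2 j)) * ∏ j, gh h (x.2 j)) * ∏ j, HH δ (x.2 j)
        = G x.1 * ((∏ j, gh h (x.1 j / x.2 j)) * (∏ j, gh h (x.2 j)) * ∏ j, HH δ (x.2 j)) := by
          ring
      _ ≤ _ := mul_le_mul_of_nonneg_right h1 (mul_nonneg (mul_nonneg n1 n2) n3)
  calc ∑ x ∈ (Tup J z y).sigma (fun s => Fintype.piFinset (fun j => (s j).divisors)),
        G x.1 * (∏ j, gh h (x.1 j)) * ∏ j, HH δ (x.2 j)
      ≤ ∑ x ∈ (Tup J z y).sigma (fun s => Fintype.piFinset (fun j => (s j).divisors)), F (φ x) :=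
        sum_le_sum hterm
    _ = ∑ w ∈ ((Tup J z y).sigma (fun s => Fintype.piFinset (fun j => (s j).divisors))).image φ,
          F w := (sum_image hinj).symm
    _ ≤ ∑ x ∈ Tup J z y ×ˢ Tup J z y, F x := by
        refine sum_le_sum_of_subset_of_nonneg ?_ fun x hx _ => hFn x hx
        intro w hw
        obtain ⟨x, hx, rfl⟩ := mem_image.1 hw
        exact hmaps x hx

/-- the bracket -/
lemma bracketW (H : Wt h B C0 M z) {Q : ℝ} (hQ : 0 ≤ Q) (J : Type) [Fintype J] [DecidableEq J]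
    (lam : ℝ) (hz : 2 ≤ z) (hlam : 0 ≤ lam) : ∃ E : ℝ, 0 ≤ E ∧ ∀ y : ℕ, z < y →
    ∑ e ∈ Tup J z y, ∏ j, (Q ^ (e j).primeFactors.card * gh h (e j) *
      HH (lam / Real.log y) (e j)) ≤ E := by
  classical
  have hB := H.B0
  obtain ⟨C1, hC1⟩ := Pool.Agent.Helper256.KM.mertens_log
  set B' : ℝ := Q * B * (lam * Real.exp lam * (1 + |C1|)) with hB'
  have hB0 : 0 ≤ B' := by positivity
  refine ⟨Real.exp B' ^ Fintype.card J, by positivity, fun y hy => ?_⟩
  set c := Fintype.card J with hc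
  have hy3 : 3 ≤ y := by omega
  have hyr : (3 : ℝ) ≤ y := by exact_mod_cast hy3
  have hl1 : 1 < Real.log y := by
    rw [Real.lt_log_iff_exp_lt (by linarith)]
    have := Real.exp_one_lt_d9
    linarith
  set δ : ℝ := lam / Real.log y with hδd
  have hδ : 0 ≤ δ := div_nonneg hlam (by linarith)
  set φ : ℕ → ℝ := fun d => Q ^ d.primeFactors.card * gh h d * HH δ d with hφ
  have hφn : ∀ d ∈ (PP z y).divisors, 0 ≤ φ d := by
    intro d hd
    exact mul_nonneg (mul_nonneg (by positivity)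
      (ghn H (Nat.dvd_of_mem_divisors hd))) (HH_nonneg hδ _)
  have h1 : ∑ e ∈ Tup J z y, ∏ j, φ (e j) ≤
      ∑ e ∈ Fintype.piFinset (fun _ : J => (PP z y).divisors), ∏ j, φ (e j) := by
    unfold Tup
    refine sum_le_sum_of_subset_of_nonneg (filter_subset _ _) fun e he _ => ?_
    exact prod_nonneg fun j _ => hφn _ (Fintype.mem_piFinset.1 he j)
  have h2 : ∑ e ∈ Fintype.piFinset (fun _ : J => (PP z y).divisors), ∏ j, φ (e j) =
      (∑ d ∈ (PP z y).divisors, φ d) ^ c := by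
    rw [← Finset.prod_univ_sum, prod_const, Finset.card_univ]
  set ψ : ℕ → ℝ := fun p => Q * h p * ((p : ℝ) ^ δ - 1) with hψ
  have h3 : ∑ d ∈ (PP z y).divisors, φ d = ∏ p ∈ PS z y, (1 + ψ p) := by
    have := Pool.Agent.W655.RK.sum_mult (PS z y) (fun p hp => Pool.Agent.W655.RK.PS_prime hp) ψ
    rw [← this]
    refine sum_congr rfl fun d _ => ?_
    simp only [hφ, hψ, gh, Pool.Agent.W405.RK2.HH]
    rw [← prod_const, ← prod_mul_distrib, ← prod_mul_distrib]
  have hψn : ∀ p ∈ PS z y, 0 ≤ ψ p ∧ ψ p ≤ Q * B * (δ * Real.exp lam) * (Real.log p / p) := by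
    intro p hp
    have hpz := Pool.Agent.W655.RK.PS_lt hp
    have hpy := Pool.Agent.W655.RK.PS_le hp
    have hpp := Pool.Agent.W655.RK.PS_prime hp
    have hp1' : (1 : ℝ) ≤ p := by exact_mod_cast hpp.one_lt.le
    have hp0 : (0:ℝ) < p := by linarith
    have hlogp : 0 ≤ Real.log p := Real.log_nonneg hp1'
    have hlogy : Real.log p ≤ Real.log y := Real.log_le_log hp0 (by exact_mod_cast hpy)
    have hx : δ * Real.log p ≤ lam := by
      rw [hδd, div_mul_eq_mul_div, div_le_iff₀ (by linarith)]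
      exact mul_le_mul_of_nonneg_left hlogy hlam
    have hge : 1 ≤ (p : ℝ) ^ δ := Real.one_le_rpow hp1' hδ
    have hle : (p : ℝ) ^ δ - 1 ≤ δ * Real.log p * Real.exp lam := by
      rw [Real.rpow_def_of_pos hp0, mul_comm (Real.log p) δ]
      refine exp_sub_one_le.trans ?_
      exact mul_le_mul_of_nonneg_left (Real.exp_le_exp.2 hx) (mul_nonneg hδ hlogp)
    have hn := H.nn p hpp hpz
    have hinv := H.le p hpp hpz
    constructor
    · simp only [hψ]
      exact mul_nonneg (mul_nonneg hQ hn) (by linarith)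
    · simp only [hψ]
      calc Q * h p * ((p : ℝ) ^ δ - 1)
          ≤ Q * (B / p) * (δ * Real.log p * Real.exp lam) := by
            apply mul_le_mul (mul_le_mul_of_nonneg_left hinv hQ) hle (by linarith) (by positivity)
        _ = Q * B * (δ * Real.exp lam) * (Real.log p / p) := by ring
  have h4 : ∏ p ∈ PS z y, (1 + ψ p) ≤ Real.exp (∑ p ∈ PS z y, ψ p) :=
    Pool.Agent.W655.RK.prod_le_exp _ _ fun p hp => by linarith [(hψn p hp).1]
  have h5 : ∑ p ∈ PS z y, ψ p ≤ B' := by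
    have a1 : ∑ p ∈ PS z y, ψ p ≤ ∑ p ∈ PS z y, Q * B * (δ * Real.exp lam) * (Real.log p / p) :=
      sum_le_sum fun p hp => (hψn p hp).2
    rw [← mul_sum] at a1
    have a2 : ∑ p ∈ PS z y, Real.log p / p ≤ ∑ p ∈ (Finset.Icc 1 y).filter Nat.Prime,
        Real.log p / p := by
      refine sum_le_sum_of_subset_of_nonneg ?_ fun p hp _ => ?_
      · intro p hp
        exact mem_filter.2 ⟨mem_Icc.2 ⟨(Pool.Agent.W655.RK.PS_prime hp).one_lt.le,
          Pool.Agent.W655.RK.PS_le hp⟩, Pool.Agent.W655.RK.PS_prime hp⟩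
      · have : (1 : ℝ) ≤ p := by exact_mod_cast (mem_filter.1 hp).2.one_lt.le
        exact div_nonneg (Real.log_nonneg this) (by linarith)
    have a3 := (abs_le.1 (hC1 y (by omega))).2
    have a4 : ∑ p ∈ PS z y, Real.log p / p ≤ Real.log y * (1 + |C1|) := by
      have := le_abs_self C1
      have := abs_nonneg C1
      nlinarith
    have a5 : 0 ≤ Q * B * (δ * Real.exp lam) := by positivity
    calc ∑ p ∈ PS z y, ψ p ≤ Q * B * (δ * Real.exp lam) * ∑ p ∈ PS z y, Real.log p / p := a1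
      _ ≤ Q * B * (δ * Real.exp lam) * (Real.log y * (1 + |C1|)) := mul_le_mul_of_nonneg_left a4 a5
      _ = B' := by
        have : δ * Real.log y = lam := by
          rw [hδd]
          exact div_mul_cancel₀ _ (by linarith)
        rw [hB']
        calc Q * B * (δ * Real.exp lam) * (Real.log y * (1 + |C1|))
            = Q * B * ((δ * Real.log y) * Real.exp lam * (1 + |C1|)) := by ring
          _ = _ := by rw [this]
  have h6 : 0 ≤ ∑ d ∈ (PP z y).divisors, φ d := sum_nonneg hφn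
  calc ∑ e ∈ Tup J z y, ∏ j, φ (e j) ≤ (∑ d ∈ (PP z y).divisors, φ d) ^ c := by
        rw [← h2]; exact h1
    _ ≤ Real.exp B' ^ c := by
        refine pow_le_pow_left₀ h6 ?_ c
        rw [h3]
        exact h4.trans (Real.exp_le_exp.2 h5)

end rs

section rv

open Pool.Agent.W591.RK2 hiding mem_Tup'
open Pool.Agent.W591.RK2 (mem_Tup')

/-- the sum over the squares -/
theorem rvW (H : Wt h B C0 M z) {Q : ℝ} (hQ : 0 ≤ Q) (J : Type) [Fintype J] [DecidableEq J]
    (lam : ℝ) (hz : 2 ≤ z) (hlam : 0 ≤ lam) : ∃ C : ℝ, ∀ y, z < y →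
    ∑ v ∈ Tup J z y, (∏ j, Q ^ (v j).primeFactors.card * (gh h (v j) / v j)) *
      (∏ j, (v j : ℝ)) ^ (lam / Real.log y) ≤ C := by
  have hB := H.B0
  refine ⟨Real.exp (Fintype.card J * (Q * B * Real.exp lam)), fun y hy => ?_⟩
  set c := Fintype.card J with hc
  have hy3 : 3 ≤ y := by omega
  have hyr : (3 : ℝ) ≤ y := by exact_mod_cast hy3
  have hl : 0 < Real.log y := Real.log_pos (by linarith)
  set δ := lam / Real.log y with hδ
  have hδ0 : 0 ≤ δ := div_nonneg hlam hl.le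
  set h' : ℕ → ℝ := fun p => (Q * (h p / p)) * (p : ℝ) ^ δ with hh
  have hpc : ∀ p ∈ PS z y, 0 ≤ h p ∧ h p ≤ B / p ∧ (0 : ℝ) < p := by
    intro p hp
    have h1 := (mem_PS.1 hp).1.1
    have h2 := (mem_PS.1 hp).2
    exact ⟨H.nn p h2 h1, H.le p h2 h1, by exact_mod_cast h2.pos⟩
  have hnn : ∀ p ∈ PS z y, 0 ≤ h' p := by
    intro p hp
    obtain ⟨h1, h2, h3⟩ := hpc p hp
    simp only [hh]
    positivity
  have e : ∀ v ∈ Tup J z y, (∏ j, Q ^ (v j).primeFactors.card * (gh h (v j) / v j)) *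
      (∏ j, (v j : ℝ)) ^ δ = ∏ j, ∏ p ∈ (v j).primeFactors, h' p := by
    intro v hv
    rw [← term hv δ]
    congr 1
    refine prod_congr rfl fun j _ => ?_
    have h1 : ∏ p ∈ (v j).primeFactors, (h p / p) =
        (∏ p ∈ (v j).primeFactors, h p) / ∏ p ∈ (v j).primeFactors, (p : ℝ) :=
      prod_div_distrib _ _
    rw [prod_mul_distrib, prod_const, h1, ← cast_eq (dv_squarefree (mem_Tup' hv j))]
    rfl
  rw [sum_congr rfl e]
  refine (gen J z y h' hnn).trans (Real.exp_le_exp.2 (mul_le_mul_of_nonneg_left ?_ (Nat.cast_nonneg _)))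
  have hb : ∀ p ∈ PS z y, h' p ≤ Q * B * Real.exp lam * (1 / (p : ℝ) ^ 2) := by
    intro p hp
    obtain ⟨h1, h2, h3⟩ := hpc p hp
    have h4 : (p : ℝ) ^ δ ≤ Real.exp lam := by
      have h5 : (p : ℝ) ≤ y := by exact_mod_cast (mem_PS.1 hp).1.2
      calc (p : ℝ) ^ δ ≤ (y : ℝ) ^ δ := Real.rpow_le_rpow h3.le h5 hδ0
        _ = Real.exp lam := by
          rw [Real.rpow_def_of_pos (by linarith), hδ]
          congr 1
          field_simp
    have h6 : Q * (h p / p) ≤ Q * B * (1 / (p : ℝ) ^ 2) := by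
      have h8 : h p / p ≤ (B / p) / p := div_le_div_of_nonneg_right h2 h3.le
      have h9 : (B / (p : ℝ)) / p = B * (1 / (p : ℝ) ^ 2) := by
        field_simp
      have h10 := mul_le_mul_of_nonneg_left (h8.trans h9.le) hQ
      linarith
    calc h' p ≤ (Q * B * (1 / (p : ℝ) ^ 2)) * Real.exp lam :=
          mul_le_mul h6 h4 (by positivity) (by positivity)
      _ = _ := by ring
  calc ∑ p ∈ PS z y, h' p ≤ ∑ p ∈ PS z y, Q * B * Real.exp lam * (1 / (p : ℝ) ^ 2) := sum_le_sum hb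
    _ = Q * B * Real.exp lam * ∑ p ∈ PS z y, 1 / (p : ℝ) ^ 2 := by rw [mul_sum]
    _ ≤ Q * B * Real.exp lam * 1 :=
        mul_le_mul_of_nonneg_left (sum_sq_le z y (by omega)) (by positivity)
    _ = _ := mul_one _

/-- the medium primes -/
theorem ruW {B : ℝ} (hB : 0 ≤ B) (J : Type) [Fintype J] [DecidableEq J] (lam : ℝ) (hlam : 0 ≤ lam) :
    ∃ C : ℝ, ∀ y Y : ℕ, 3 ≤ y → Y ≤ (y + 1) ^ 2 →
    ∑ u ∈ Tup J y Y, (∏ j, B ^ (u j).primeFactors.card / (u j : ℝ)) *
      (∏ j, (u j : ℝ)) ^ (lam / Real.log y) ≤ C := by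
  obtain ⟨C, hC⟩ := sum_inv_le
  refine ⟨Real.exp (Fintype.card J * (B * Real.exp (3 * lam) * C)), fun y Y hy hY => ?_⟩
  have hyr : (3 : ℝ) ≤ y := by exact_mod_cast hy
  have hl : 0 < Real.log y := Real.log_pos (by linarith)
  set δ := lam / Real.log y with hδ
  have hδ0 : 0 ≤ δ := div_nonneg hlam hl.le
  set h : ℕ → ℝ := fun p => (B / (p : ℝ)) * (p : ℝ) ^ δ with hh
  have hnn : ∀ p ∈ PS y Y, 0 ≤ h p := by
    intro p hp
    simp only [hh]
    positivity
  have e : ∀ u ∈ Tup J y Y, (∏ j, B ^ (u j).primeFactors.card / (u j : ℝ)) *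
      (∏ j, (u j : ℝ)) ^ δ = ∏ j, ∏ p ∈ (u j).primeFactors, h p := by
    intro u hu
    rw [← term hu δ]
    congr 1
    refine prod_congr rfl fun j _ => ?_
    rw [prod_div_distrib, prod_const, ← cast_eq (dv_squarefree (mem_Tup' hu j))]
  rw [sum_congr rfl e]
  refine (gen J y Y h hnn).trans (Real.exp_le_exp.2 (mul_le_mul_of_nonneg_left ?_ (Nat.cast_nonneg _)))
  have hb : ∀ p ∈ PS y Y, h p ≤ B * Real.exp (3 * lam) * (1 / (p : ℝ)) := by
    intro p hp
    have h2 : (0 : ℝ) < p := by exact_mod_cast (mem_PS.1 hp).2.pos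
    have h4 : (p : ℝ) ^ δ ≤ Real.exp (3 * lam) := by
      have h5 : (p : ℝ) ≤ (((y + 1) ^ 2 : ℕ) : ℝ) := by
        exact_mod_cast (mem_PS.1 hp).1.2.trans hY
      calc (p : ℝ) ^ δ ≤ ((((y + 1) ^ 2 : ℕ) : ℝ)) ^ δ := Real.rpow_le_rpow h2.le h5 hδ0
        _ ≤ Real.exp (3 * lam) := by
          rw [Real.rpow_def_of_pos (by positivity)]
          refine Real.exp_le_exp.2 ?_
          calc Real.log (((y + 1) ^ 2 : ℕ) : ℝ) * δ ≤ 3 * Real.log y * δ :=
                mul_le_mul_of_nonneg_right (log_bd y hy) hδ0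
            _ = 3 * lam := by
                rw [hδ]
                field_simp
    calc h p ≤ (B / (p : ℝ)) * Real.exp (3 * lam) :=
          mul_le_mul_of_nonneg_left h4 (by positivity)
      _ = _ := by ring
  calc ∑ p ∈ PS y Y, h p ≤ ∑ p ∈ PS y Y, B * Real.exp (3 * lam) * (1 / (p : ℝ)) := sum_le_sum hb
    _ = B * Real.exp (3 * lam) * ∑ p ∈ PS y Y, 1 / (p : ℝ) := by rw [mul_sum]
    _ ≤ B * Real.exp (3 * lam) * C := mul_le_mul_of_nonneg_left (hC y Y hy hY) (by positivity)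

end rv

end Pool.Agent.U214.PT
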