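import Pool.Agent.U214.RM.ExpB
import Pool.Agent.U214.PT.Wt

/-!
# Expansion of the powers of the local counts into symbols, general weights
-/

set_option autoImplicit false

namespace Pool.Agent.U214.PT

open Finset Pool.Agent.W262.RK Pool.Agent.W108.RK Pool.Agent.W762.RK2 Pool.Agent.U214.RM

variable {r : ℕ}

section final

variable {J : Type} [Fintype J] [DecidableEq J] {z y : ℕ}

lemma prod_ghw {ι : Type} [Fintype ι] [DecidableEq ι] (w : ι → ℝ) (h : ℕ → ℝ)
    (l : Pr z y → Option ι) :
    ∏ i, gh (fun p => w i * h p) (Dl l i) = ∏ p : Pr z y, (l p).elim 1 fun i => w i * h p := by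
  have h1 : ∀ i, gh (fun p => w i * h p) (Dl l i) = ∏ p : Pr z y,
      if l p = some i then w i * h p else 1 := by
    intro i
    unfold gh Dl
    rw [prod_pf _ fun p : ℕ => w i * h p]
    simp only [decide_eq_true_eq]
  rw [Finset.prod_congr rfl fun i _ => h1 i, Finset.prod_comm]
  refine Finset.prod_congr rfl fun p _ => ?_
  cases h : l p with
  | none => simp
  | some j => simp

lemma prod_gh1 {ι : Type} [Fintype ι] [DecidableEq ι] (h : ℕ → ℝ)
    (l : Pr z y → Option ι) :
    ∏ i, gh h (Dl l i) = ∏ p : Pr z y, (l p).elim 1 fun _ => h p := by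
  have h1 := prod_ghw (fun _ : ι => (1 : ℝ)) h l
  simpa using h1

/-- the local term -/
noncomputable def Tmg (cls : J → Fin 4) (k : J → Fin 3 → ℤ) (h : ℕ → ℝ)
    (ξ : Pr z y → Option (J × V r)) (p : Pr z y) : ℝ :=
  (ξ p).elim 1 fun a => h p * ((∏ l, ind (LL (cls a.1) (k a.1) true p (a.2 l).1
    (a.2 l).2 (sgn p (D1r ξ l)) (sgn p (D2r ξ l))) + ∏ l, ind (LL (cls a.1) (k a.1) false p
    (a.2 l).1 (a.2 l).2 (sgn p (D1r ξ l)) (sgn p (D2r ξ l)))) / 2)

lemma lhs_eqg (cls : J → Fin 4) (k : J → Fin 3 → ℤ) (h : ℕ → ℝ) :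
    ∑ s ∈ Tup J z y, NBr r cls k s * ∏ j, gh h (s j) =
      ∑ ξ : Pr z y → Option (J × V r), ∏ p, Tmg cls k h ξ p := by
  have h1 : ∀ s ∈ Tup J z y, NBr r cls k s * ∏ j, gh h (s j) =
      ∑ d ∈ DD r (∏ j, s j),
        (∏ p ∈ (∏ j, s j).primeFactors, (∏ l, Il cls k s (d l) true p +
          ∏ l, Il cls k s (d l) false p) / 2) * ∏ j, gh h (s j) := by
    intro s hs
    rw [NBr_eq r cls k hs, Finset.sum_mul]
  rw [Finset.sum_congr rfl h1, sum_bigr fun s d =>
    (∏ p ∈ (∏ j, s j).primeFactors, (∏ l, Il cls k s (d l) true p +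
          ∏ l, Il cls k s (d l) false p) / 2) * ∏ j, gh h (s j)]
  refine Finset.sum_congr rfl fun ξ _ => ?_
  have h2 : ∏ j, gh h (SSr ξ j) = ∏ p : Pr z y, ((ξ p).map Prod.fst).elim 1
      fun _ => h p := prod_gh1 h _
  have h3 : ∏ j, SSr ξ j = nb fun p => ((ξ p).map Prod.fst).isSome := prod_Dl _
  rw [h2, h3, prod_pf _ fun p => (∏ l, Il cls k (SSr ξ) (D1r ξ l, D2r ξ l) true p +
    ∏ l, Il cls k (SSr ξ) (D1r ξ l, D2r ξ l) false p) / 2, ← Finset.prod_mul_distrib]
  refine Finset.prod_congr rfl fun p _ => ?_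
  unfold Tmg
  cases hx : ξ p with
  | none => simp
  | some a =>
    have h4 : ∀ neg l, Il cls k (SSr ξ) (D1r ξ l, D2r ξ l) neg p =
        ind (LL (cls a.1) (k a.1) neg p (a.2 l).1 (a.2 l).2 (sgn p (D1r ξ l))
          (sgn p (D2r ξ l))) := by
      intro neg l
      unfold Il
      have e1 : dv p (D1r ξ l : ℤ) = (a.2 l).1 := by
        have : b1r l (ξ p) = (a.2 l).1 := by rw [hx]; rfl
        rw [← this]
        unfold dv
        rw [Bool.eq_iff_iff, decide_eq_true_iff, Int.natCast_dvd_natCast]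
        exact dvd_nb _ p
      have e2 : dv p (D2r ξ l : ℤ) = (a.2 l).2 := by
        have : b2r l (ξ p) = (a.2 l).2 := by rw [hx]; rfl
        rw [← this]
        unfold dv
        rw [Bool.eq_iff_iff, decide_eq_true_iff, Int.natCast_dvd_natCast]
        exact dvd_nb _ p
      have e3 : ∀ j, (p : ℕ) ∣ SSr ξ j ↔ j = a.1 := by
        intro j
        unfold SSr Dl
        rw [dvd_nb, decide_eq_true_iff]
        show (ξ p).map Prod.fst = some j ↔ j = a.1
        rw [hx]
        simp [eq_comm]
      congr 1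
      simp only [e1, e2, e3, forall_eq]
    simp only [h4]
    simp only [Option.map_some, Option.isSome_some, if_true, Option.elim]
    ring

/-- the local factor -/
noncomputable def Gg (cls : J → Fin 4) (k : J → Fin 3 → ℤ) (h : ℕ → ℝ)
    (ξ : Pr z y → Option (J × V r)) (p : Pr z y) (x : Option (Ir r cls)) : ℝ :=
  x.elim 1 fun i => h p * (w_r cls i * (Jr (κ_r cls k i) p *
    ∏ l, ((if (i.1.2.2 l).1 = true then sg (sgn p (D1r ξ l)) else 1) *
      (if (i.1.2.2 l).2 = true then sg (sgn p (D2r ξ l)) else 1))))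

lemma sum_Gg (cls : J → Fin 4) (k : J → Fin 3 → ℤ) (h : ℕ → ℝ)
    (ξ : Pr z y → Option (J × V r)) (p : Pr z y) (hk : ∀ j i, ¬ ((p : ℕ) : ℤ) ∣ k j i) :
    ∑ x ∈ univ.filter (fun x : Option (Ir r cls) => fgr x = ξ p), Gg cls k h ξ p x =
      Tmg cls k h ξ p := by
  rw [Finset.sum_filter, Fintype.sum_option]
  unfold Tmg
  cases hx : ξ p with
  | none => simp [fgr, Gg]
  | some a =>
    obtain ⟨j, v⟩ := a
    have h0 : (if fgr (none : Option (Ir r cls)) = some (j, v) then Gg cls k h ξ p none
        else 0) = 0 := by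
      rw [if_neg]
      simp [fgr]
    rw [h0, zero_add]
    set F : J × V r × V r → ℝ := fun q : J × V r × V r =>
          if q.1 = j ∧ q.2.1 = v then h p * (wr r (cls q.1) *
            (Jr (kr (cls q.1) (k q.1) q.2.1 q.2.2) p *
            ∏ l, ((if (q.2.2 l).1 = true then sg (sgn p (D1r ξ l)) else 1) *
            (if (q.2.2 l).2 = true then sg (sgn p (D2r ξ l)) else 1)))) else 0 with hF
    have h1 : ∀ i : Ir r cls, (if fgr (some i) = some (j, v) then Gg cls k h ξ p (some i)
        else 0) = F i.1 := by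
      intro i
      refine if_congr ?_ rfl rfl
      simp only [fgr, Option.map_some, Option.some.injEq, Prod.mk.injEq]
    refine (Finset.sum_congr rfl fun i _ => h1 i).trans ((sum_Ir cls F).trans ?_)
    rw [Fintype.sum_prod_type, Finset.sum_eq_single j]
    · rw [Fintype.sum_prod_type, Finset.sum_eq_single v]
      · show _ = h p * _
        rw [loc_r (cls j) (k j) (Pr_prime p) (hk j) v, Finset.mul_sum]
        refine Finset.sum_congr rfl fun x _ => ?_
        simp only [hF, and_self, if_true, mul_ite, mul_zero]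
      · intro v' _ hv'
        refine Finset.sum_eq_zero fun x _ => ?_
        simp [hF, hv']
      · intro h
        exact absurd (Finset.mem_univ _) h
    · intro j' _ hj'
      refine Finset.sum_eq_zero fun x _ => ?_
      simp [hF, hj']
    · intro h
      exact absurd (Finset.mem_univ _) h

lemma rhs_termg (cls : J → Fin 4) (k : J → Fin 3 → ℤ) (h : ℕ → ℝ)
    (ξ : Pr z y → Option (J × V r)) (l : Pr z y → Option (Ir r cls))
    (hl' : ∀ p, fgr (l p) = ξ p) :
    (∏ i, gh (fun p => w_r cls i * h p) (Dl l i)) * Pool.Agent.W262.RK.Sym (L_r cls) (κ_r cls k) (Dl l) =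
      ∏ p, Gg cls k h ξ p (l p) := by
  rw [prod_ghw, Sym_Dl, ← Finset.prod_mul_distrib, ← Finset.prod_mul_distrib]
  refine Finset.prod_congr rfl fun p _ => ?_
  cases hl : l p with
  | none =>
    have h0 : ∀ q, lk (L_r cls) (l q) none = false := by
      intro q
      cases l q <;> rfl
    simp [h0, Gg]
  | some i =>
    have hAl := Ar_orth i.2
    -- the vector of the prime `q`
    have h1 : ∀ q, lk (L_r cls) (l q) (some i) =
        pr i.1.2.2 (fun m => (b1r m (ξ q), b2r m (ξ q))) := by
      intro q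
      rw [← hl' q]
      cases hq : l q with
      | none =>
        have : pr i.1.2.2 (fun m => (b1r m (fgr (none : Option (Ir r cls))),
            b2r m (fgr (none : Option (Ir r cls))))) = false := by
          refine par_false fun m => ?_
          simp [bb, b1r, b2r, fgr]
        rw [this]
        rfl
      | some i' => rfl
    have h2 : ∏ q : Pr z y, (if lk (L_r cls) (l q) (some i) = true then Jr (q : ℕ) p else 1) =
        ∏ m, ((if (i.1.2.2 m).1 = true then sg (sgn p (D1r ξ m)) else 1) *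
      (if (i.1.2.2 m).2 = true then sg (sgn p (D2r ξ m)) else 1)) := by
      have h3 : ∀ a : Bool, ∀ b : Pr z y → Bool, (if a = true then sg (sgn p (nb b : ℤ)) else 1) =
          ∏ q : Pr z y, if a = true then (if q ≠ p ∧ b q = true then Jr (q : ℕ) p else 1)
            else 1 := by
        intro a b
        cases a
        · simp
        · simp only [if_true]
          exact sgn_nb b p
      have h4 : ∀ m, ((if (i.1.2.2 m).1 = true then sg (sgn p (D1r ξ m)) else 1) *
          (if (i.1.2.2 m).2 = true then sg (sgn p (D2r ξ m)) else 1)) =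
          ∏ q : Pr z y, ((if (i.1.2.2 m).1 = true then
            (if q ≠ p ∧ b1r m (ξ q) = true then Jr (q : ℕ) p else 1) else 1) *
            (if (i.1.2.2 m).2 = true then
            (if q ≠ p ∧ b2r m (ξ q) = true then Jr (q : ℕ) p else 1) else 1)) := by
        intro m
        unfold D1r D2r
        rw [h3, h3, ← Finset.prod_mul_distrib]
      rw [prod_congr rfl fun m _ => h4 m, Finset.prod_comm]
      refine Finset.prod_congr rfl fun q _ => ?_
      rw [h1]
      refine bits_r q p _ _ fun hqp => ?_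
      rw [hqp, ← hl' p, hl]
      exact hAl
    rw [h2]
    simp only [Gg, Option.elim]
    ring

end final

/-- the expansion -/
theorem exp_g (J : Type) [Fintype J] [DecidableEq J] (cls : J → Fin 4)
    (κ : J → Fin 3 → ℤ) (h : ℕ → ℝ) (r z y : ℕ) (hκ : ∀ j k, κ j k ≠ 0)
    (hκz : ∀ j k, (κ j k).natAbs ≤ z) :
    ∑ s ∈ Tup J z y, NBr r cls κ s * ∏ j, gh h (s j) =
    ∑ d ∈ Tup (Ir r cls) z y, (∏ i, gh (fun p => w_r cls i * h p) (d i)) *
      Pool.Agent.W262.RK.Sym (L_r cls) (κ_r cls κ) d := by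
  classical
  rw [lhs_eqg, sum_Tup, ← Finset.sum_fiberwise univ
    (fun (l : Pr z y → Option (Ir r cls)) => fun p => fgr (l p))]
  refine Finset.sum_congr rfl fun ξ _ => ?_
  have h1 : (univ.filter fun l : Pr z y → Option (Ir r cls) => (fun p => fgr (l p)) = ξ) =
      Fintype.piFinset (fun p => univ.filter (fun x : Option (Ir r cls) => fgr x = ξ p)) := by
    ext l
    simp only [Finset.mem_filter, Finset.mem_univ, true_and, Fintype.mem_piFinset, funext_iff]
  have hk : ∀ p : Pr z y, ∀ j i, ¬ ((p : ℕ) : ℤ) ∣ κ j i := by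
    intro p j i hd
    have hz : z < p := by
      have := p.2
      unfold PS at this
      exact (Finset.mem_Ioc.1 (Finset.mem_filter.1 this).1).1
    have h3 := Nat.le_of_dvd (Int.natAbs_pos.mpr (hκ j i)) (Int.natCast_dvd.1 hd)
    have h4 := hκz j i
    omega
  rw [h1, Finset.prod_congr rfl fun p _ => (sum_Gg cls κ h ξ p (hk p)).symm, Finset.prod_univ_sum]
  refine Finset.sum_congr rfl fun l hl => ?_
  rw [Fintype.mem_piFinset] at hl
  exact (rhs_termg cls κ h ξ l fun p => (Finset.mem_filter.1 (hl p)).2).symm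

end Pool.Agent.U214.PT
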