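import Mathlib
import Pool.Agent.W358.RK2.GR
import Pool.Agent.U214.RM.Comb
import Pool.Agent.U214.RM.Subr
import Pool.Agent.U214.PT.AT6
import Pool.Agent.U214.PT.Exp
import Pool.Agent.U214.PT.Ant
import Pool.Agent.U214.PT.Rank
import Pool.Agent.H474R2.GE.FA

/-!
# The moments of `2 ^ rank` in the twists by the values of a polynomial
-/

set_option autoImplicit false

namespace Pool.Agent.U214.PT

open Finset Pool.Agent.W262.RK Pool.Agent.W307.RT Pool.Agent.U214.RM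
open Polynomial (derivative)
open Pool.Agent.H474R2.PG (rho)

lemma w_r3 {r : ℕ} (i : Ir r c3) : w_r c3 i = (1 / 4 : ℝ) ^ r := by
  unfold w_r wr Pool.Agent.W762.RK2.wc c3
  simp

/-- the average of the power with the weights `h` -/
theorem ma_g {r : ℕ} {a b : ℤ} (ha : a ≠ 0) (hb : b ≠ 0) (hab : a ≠ b) {h : ℕ → ℝ}
    {B C0 M : ℝ} {z1 : ℕ} (H : Wt h B C0 M z1) (hB : (1 / 4 : ℝ) ^ r * B ≤ 1) :
    ∃ z0 : ℕ, ∀ z, z0 ≤ z → ∃ C : ℝ, ∀ y, z < y →
      ∑ s ∈ Tup Unit z y, NBr r c3 (kab a b) s * ∏ j, gh h (s j) ≤ C * (Real.log y) ^ M := by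
  have hM := H.M0
  obtain ⟨z0, hz0⟩ := at_w (Ir r c3) (w_r c3) (L_r c3) (κ_r c3 (kab a b)) h B C0 M z1 M H
    (fun i => by rw [w_r3]; exact ⟨by positivity, hB⟩) (fun i => Ar_orth i.2) (fun U hU => by
      rw [← sum_mul]
      have h1 := comb_r (r := r) (cls := c3) 0 (fun k hk => by
        rw [card_eq_zero, filter_eq_empty_iff]
        intro j _ hj
        exact hk hj.symm) hU
      simp only [Fintype.card_unit, Nat.cast_one, Nat.cast_zero, zero_mul, add_zero] at h1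
      calc (∑ i ∈ U, w_r c3 i) * M ≤ 1 * M := mul_le_mul_of_nonneg_right h1 hM.le
        _ = M := one_mul M)
  refine ⟨max z0 (a.natAbs + b.natAbs), fun z hz => ?_⟩
  obtain ⟨C, hC⟩ := hz0 z (le_trans (le_max_left _ _) hz)
  refine ⟨C, fun y hy => ?_⟩
  have hz2 : a.natAbs + b.natAbs ≤ z := le_trans (le_max_right _ _) hz
  rw [exp_g Unit c3 (kab a b) h r z y (fun j k => by
    unfold kab
    split_ifs
    · exact ha
    · exact hb
    · exact sub_ne_zero.2 hab) (fun j k => by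
    unfold kab
    have := Int.natAbs_sub_le a b
    split_ifs <;> omega)]
  exact le_trans (le_abs_self _) (hC y hy)

/-- **the summation** for a function with the local bound -/
theorem sum_R {f : Polynomial ℤ} {d z1 Me : ℕ} {C0 C1 : ℝ} (hf : Pg f d z1)
    (H : Wt (hr f) (2 * d) C0 Me z1)
    (hP : ∀ z, z1 ≤ z → ∃ C1 : ℝ, 0 ≤ C1 ∧ ∀ y : ℕ, 3 ≤ y → z < y →
      ∏ p ∈ PS z y, (1 - (rho f p : ℝ) / p) ≤ C1 / (Real.log y) ^ Me)
    {a b : ℤ} (ha : a ≠ 0) (hb : b ≠ 0) (hab : a ≠ b) {r : ℕ}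
    (hr4 : (1 / 4 : ℝ) ^ r * (2 * d) ≤ 1) {D : ℝ} (hD1 : 1 ≤ D) (R : ℕ → ℝ) (hR0 : ∀ t, 0 ≤ R t)
    {z2 y2 : ℕ} (hR : ∀ z, z2 ≤ z → ∃ A : ℝ, 0 ≤ A ∧ ∀ t X y k : ℕ, 1 ≤ t → t ≤ X → y2 ≤ y →
      y ≤ X → X < (y + 1) ^ k → f.eval (t : ℤ) ≠ 0 →
      R t ≤ A * D ^ k * ((4 : ℝ) ^ r) ^ (t2 z y (f.eval (t : ℤ))).primeFactors.card *
        (NL (t1 z y (f.eval (t : ℤ))) (LLs c3 (kab a b) (fun _ => t1 z y (f.eval (t : ℤ)))
          (ngs (f.eval (t : ℤ)) (t1 z y (f.eval (t : ℤ))))) : ℝ) ^ r) :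
    ∃ C : ℝ, ∀ X : ℕ, 1 ≤ X →
      ∑ t ∈ (Icc 1 X).filter (fun t : ℕ => f.eval (t : ℤ) ≠ 0), R t ≤ C * X := by
  classical
  obtain ⟨κ, hκdef⟩ : ∃ κ, κ = kab a b := ⟨_, rfl⟩
  have hκ0 : ∀ j k, κ j k ≠ 0 := by
    intro j k
    rw [hκdef]
    unfold kab
    split_ifs
    · exact ha
    · exact hb
    · exact sub_ne_zero.2 hab
  obtain ⟨z0, hz0⟩ := ma_g ha hb hab H hr4
  obtain ⟨z, hz⟩ : ∃ z, z = z0 + z1 + z2 + a.natAbs + b.natAbs + 2 := ⟨_, rfl⟩
  have hκz : ∀ j k, (κ j k).natAbs ≤ z := by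
    intro j k
    rw [hκdef]
    unfold kab
    have := Int.natAbs_sub_le a b
    split_ifs <;> omega
  have hz2 : 2 ≤ z := by omega
  have Hz := H.mono (show z1 ≤ z by omega)
  have hfz : Pg f d z := ⟨by have := hf.zd; omega, fun p hp h => hf.rho p hp (by omega),
    fun p hp h => hf.der p hp (by omega)⟩
  obtain ⟨C', hC'⟩ := hz0 z (by omega)
  rw [← hκdef] at hC'
  obtain ⟨C1', hC1', hP'⟩ := hP z (by omega)
  obtain ⟨C, K, y0, hC0, hK1, hcn⟩ := cntp hfz hC1' hP'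
  obtain ⟨A, hA0, hA⟩ := hR z (by omega)
  obtain ⟨Q, hQ⟩ : ∃ Q : ℝ, Q = (4 : ℝ) ^ r := ⟨_, rfl⟩
  have hQ0 : 0 ≤ Q := by rw [hQ]; positivity
  have hlogD : 0 ≤ Real.log D := Real.log_nonneg hD1
  obtain ⟨E, hE0, hE⟩ := bracketW Hz hQ0 Unit (16 * (Real.log D + 1)) hz2 (by linarith)
  have hant := antG (J := Unit) (Ω := ℕ) Hz Pool.Agent.W358.RK2.gr
    (f := fun (t : ℕ) (_ : Unit) => f.eval (t : ℤ))
    (T := fun X => (Icc 1 X).filter (fun t : ℕ => f.eval (t : ℤ) ≠ 0))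
    (S := fun X => (X : ℝ)) (G := fun _ s => NBr r c3 κ s) (R := R)
    (C := C * A) (D := D) (A1 := E * |C'|) (Q := Q) (κ := 0)
    (K := K) (y0 := y0 + y2) (Me := Me) hz2 (fun X hX => by exact_mod_cast hX)
    (fun X t ht => by
      rw [mem_filter] at ht
      refine ⟨fun _ => ht.2, fun p hp hzp j l hjl => ?_⟩
      exact absurd (Subsingleton.elim j l) hjl)
    (fun y s => NBr_nonneg r c3 κ s) hR0 (by positivity)
    hD1 hK1 hQ0 le_rfl (fun y hy => ?_) ?_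
  · obtain ⟨C2, hC2⟩ := hant
    refine ⟨C2, fun X hX => ?_⟩
    have := hC2 X hX
    simpa using this
  · have hy3 : 3 ≤ y := by omega
    have hyr : (3 : ℝ) ≤ y := by exact_mod_cast hy3
    have hl1 : 1 < Real.log y := by
      rw [Real.lt_log_iff_exp_lt (by linarith)]
      have := Real.exp_one_lt_d9
      linarith
    have hδ : 0 ≤ 16 * (Real.log D + 1) / Real.log y := div_nonneg (by linarith) (by linarith)
    have hm := main_ineqW Hz hQ0 Unit y (NBr r c3 κ) (16 * (Real.log D + 1) / Real.log y)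
      hδ (NBr_nonneg r c3 κ)
      (fun s e hse => by
        rw [hQ]
        exact subb_r Pool.Agent.W125.RK2.sub4 Pool.Agent.W342.RK2.xcl r Unit c3 κ z y hz2
          hκ0 hκz s e hse)
    refine hm.trans ?_
    have hn0 : 0 ≤ ∑ s ∈ Tup Unit z y, NBr r c3 κ s * ∏ j, gh (hr f) (s j) := by
      refine sum_nonneg fun s hs => mul_nonneg (NBr_nonneg r c3 κ s) (prod_nonneg fun j _ => ?_)
      exact gh_nn Hz hs j
    have h1 : ∑ s ∈ Tup Unit z y, NBr r c3 κ s * ∏ j, gh (hr f) (s j) ≤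
        |C'| * (Real.log y) ^ Me := by
      refine (hC' y hy).trans ?_
      rw [Real.rpow_natCast]
      exact mul_le_mul_of_nonneg_right (le_abs_self _) (by positivity)
    calc _ ≤ E * ∑ s ∈ Tup Unit z y, NBr r c3 κ s * ∏ j, gh (hr f) (s j) :=
          mul_le_mul_of_nonneg_right (hE y hy) hn0
      _ ≤ E * (|C'| * (Real.log y) ^ Me) := mul_le_mul_of_nonneg_left h1 hE0
      _ = _ := by rw [Real.rpow_zero]; ring
  intro X y Y k hy0 hzy hyK hk s hs v hv u hu h8 T' hT' hT2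
  have hyX : y ≤ X := le_trans (Nat.le_self_pow (by omega) y) hyK
  have hX1 : 1 ≤ X := by omega
  have hs' : s () ∈ (PP z y).divisors := Pool.Agent.W591.RK2.mem_Tup' hs ()
  have hv' : v () ∈ (PP z y).divisors := Pool.Agent.W591.RK2.mem_Tup' hv ()
  have hu' : u () ∈ (PP y Y).divisors := Pool.Agent.W591.RK2.mem_Tup' hu ()
  obtain ⟨g, hg⟩ : ∃ g : Finset ℕ → ℝ, g = fun E => (NL (s ()) (LLs c3 κ s E) : ℝ) := ⟨_, rfl⟩
  have hg0 : ∀ E, 0 ≤ g E := fun E => by rw [hg]; exact Nat.cast_nonneg _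
  have hgd : ∀ t ∈ T', t1 z y (f.eval (t : ℤ)) = s () ∧ t2 z y (f.eval (t : ℤ)) = v () ∧
      ((u () : ℕ) : ℤ) ∣ f.eval (t : ℤ) := by
    intro t ht
    obtain ⟨hts, htv, htu⟩ := hT2 t ht
    exact ⟨congrFun hts (), congrFun htv (), htu ()⟩
  have h1 : ∀ t ∈ T', R t ≤ A * D ^ k * Q ^ (v ()).primeFactors.card *
      g (ngs (f.eval (t : ℤ)) (s ())) ^ r := by
    intro t ht
    have ht' := mem_filter.1 (hT' ht)
    obtain ⟨hts, htv, _⟩ := hgd t ht
    have htI := mem_Icc.1 ht'.1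
    have h2 := hA t X y k htI.1 htI.2 (by omega) hyX hk ht'.2
    rw [hts, htv, ← hQ, ← hκdef] at h2
    have h3 : (fun _ : Unit => s ()) = s := by funext j; rfl
    rw [h3] at h2
    rw [hg]
    exact h2
  have hneg : ∀ t ∈ T', ngs (f.eval (t : ℤ)) (s ()) ∈ (s ()).primeFactors.powerset := by
    intro t _
    rw [mem_powerset]
    exact filter_subset _ _
  have h2 : ∑ t ∈ T', g (ngs (f.eval (t : ℤ)) (s ())) ^ r =
      ∑ E ∈ (s ()).primeFactors.powerset,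
        ((T'.filter (fun t : ℕ => ngs (f.eval (t : ℤ)) (s ()) = E)).card : ℝ) * g E ^ r := by
    rw [← sum_fiberwise_of_maps_to hneg]
    refine sum_congr rfl fun E _ => ?_
    rw [← nsmul_eq_mul, ← sum_const]
    refine sum_congr rfl fun t ht => ?_
    rw [(mem_filter.1 ht).2]
  obtain ⟨W, hW⟩ : ∃ W : ℝ, W = C * X * (1 / 2) ^ (s ()).primeFactors.card * gh (hr f) (s ()) *
        (gh (hr f) (v ()) / (v () : ℕ)) * ((d : ℝ) ^ (u ()).primeFactors.card / (u () : ℕ)) /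
        (Real.log y) ^ Me := ⟨_, rfl⟩
  have h3 : ∀ E ∈ (s ()).primeFactors.powerset,
      ((T'.filter (fun t : ℕ => ngs (f.eval (t : ℤ)) (s ()) = E)).card : ℝ) * g E ^ r ≤
        W * g E ^ r := by
    intro E _
    refine mul_le_mul_of_nonneg_right ?_ (pow_nonneg (hg0 E) r)
    rw [hW]
    refine le_trans ?_ (hcn X y Y (by omega) hzy hyK (s ()) hs' (v ()) hv' (u ()) hu'
      (by simpa using h8) E)
    have h4 : T'.filter (fun t : ℕ => ngs (f.eval (t : ℤ)) (s ()) = E) ⊆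
        (Icc 1 X).filter (fun t : ℕ => t1 z y (f.eval (t : ℤ)) = s () ∧
          t2 z y (f.eval (t : ℤ)) = v () ∧ ((u () : ℕ) : ℤ) ∣ f.eval (t : ℤ) ∧
          ngs (f.eval (t : ℤ)) (s ()) = E) := by
      intro t ht
      rw [mem_filter] at ht
      obtain ⟨hts, htv, htu⟩ := hgd t ht.1
      rw [mem_filter]
      exact ⟨(mem_filter.1 (hT' ht.1)).1, hts, htv, htu, ht.2⟩
    exact_mod_cast card_le_card h4
  have hNB : NBr r c3 κ s = (1 / 2) ^ (s ()).primeFactors.card *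
      ∑ E ∈ (s ()).primeFactors.powerset, g E ^ r := by
    unfold NBr
    rw [P3u, hg]
    simp
  have hd2 : (d : ℝ) ^ (u ()).primeFactors.card / (u () : ℕ) ≤
      (2 * (d : ℝ)) ^ (u ()).primeFactors.card / (u () : ℕ) := by
    apply div_le_div_of_nonneg_right _ (Nat.cast_nonneg _)
    apply pow_le_pow_left₀ (Nat.cast_nonneg _)
    have : (0 : ℝ) ≤ d := Nat.cast_nonneg d
    linarith
  have hgs0 := gh_nn Hz hs ()
  have hgv0 := gh_nn Hz hv ()
  have hNB0 := NBr_nonneg r c3 κ s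
  have hly : 0 ≤ Real.log y := Real.log_natCast_nonneg y
  calc ∑ t ∈ T', R t ≤ ∑ t ∈ T', A * D ^ k * Q ^ (v ()).primeFactors.card *
          g (ngs (f.eval (t : ℤ)) (s ())) ^ r := sum_le_sum h1
    _ = A * D ^ k * Q ^ (v ()).primeFactors.card * ∑ E ∈ (s ()).primeFactors.powerset,
        ((T'.filter (fun t : ℕ => ngs (f.eval (t : ℤ)) (s ()) = E)).card : ℝ) * g E ^ r := by
        rw [← mul_sum, h2]
    _ ≤ A * D ^ k * Q ^ (v ()).primeFactors.card * ∑ E ∈ (s ()).primeFactors.powerset,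
        W * g E ^ r := mul_le_mul_of_nonneg_left (sum_le_sum h3) (by positivity)
    _ = C * A * D ^ k * X * (NBr r c3 κ s * gh (hr f) (s ())) *
          (Q ^ (v ()).primeFactors.card * (gh (hr f) (v ()) / (v () : ℕ))) *
          ((d : ℝ) ^ (u ()).primeFactors.card / (u () : ℕ)) / (Real.log y) ^ Me := by
        rw [← mul_sum, hNB, hW]
        ring
    _ ≤ C * A * D ^ k * X * (NBr r c3 κ s * gh (hr f) (s ())) *
          (Q ^ (v ()).primeFactors.card * (gh (hr f) (v ()) / (v () : ℕ))) *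
          ((2 * (d : ℝ)) ^ (u ()).primeFactors.card / (u () : ℕ)) / (Real.log y) ^ Me := by
        apply div_le_div_of_nonneg_right _ (by positivity)
        apply mul_le_mul_of_nonneg_left hd2 (by positivity)
    _ = _ := by simp

end Pool.Agent.U214.PT
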