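import Mathlib
import Pool.Agent.Y700.VC
import Pool.Agent.U214.PT.MainP
import Pool.Agent.U214.PT.Mert

/-!
# The moments of `2 ^ rank` in the twists by the values of a polynomial: assembly
-/

set_option autoImplicit false

namespace Pool.Agent.U214.PT

open Finset Pool.Agent.W262.RK Pool.Agent.W307.RT Pool.Agent.U214.RM
open Polynomial

/-- `2 ^ rank` -/
noncomputable def tr (A B : ℤ) : ℝ := (2 : ℝ) ^ Module.finrank ℤ (EAB A B).toAffine.Point

lemma one_le_tr (A B : ℤ) : 1 ≤ tr A B := one_le_pow₀ (by norm_num)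

lemma tr_sq {A B u : ℤ} (hA : A ≠ 0) (hB : B ≠ 0) (hAB : A ≠ B) (hu : u ≠ 0) :
    tr (u ^ 2 * A) (u ^ 2 * B) = tr A B := by
  have hAq : (A : ℚ) ≠ 0 := by exact_mod_cast hA
  have hBq : (B : ℚ) ≠ 0 := by exact_mod_cast hB
  have hABq : (A : ℚ) - B ≠ 0 := by
    rw [sub_ne_zero]
    exact_mod_cast hAB
  have h : Pool.Agent.Y700.VR (EAB (u ^ 2 * A) (u ^ 2 * B)) (EAB A B) (u : ℚ) 0 0 0 := by
    refine ⟨by exact_mod_cast hu, ?_, ?_, ?_, ?_, ?_⟩ <;> simp only [EAB] <;> push_cast <;> ring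
  have hD : (EAB A B).Δ ≠ 0 := by
    have e : (EAB A B).Δ = 16 * ((A : ℚ) * B * ((A : ℚ) - B)) ^ 2 := by
      simp only [EAB, WeierstrassCurve.Δ, WeierstrassCurve.b₂, WeierstrassCurve.b₄,
        WeierstrassCurve.b₆, WeierstrassCurve.b₈]
      ring
    rw [e]
    exact mul_ne_zero (by norm_num) (pow_ne_zero 2 (mul_ne_zero (mul_ne_zero hAq hBq) hABq))
  unfold tr
  rw [(h.equiv hD).toIntLinearEquiv.finrank_eq]

/-- the twist depends on the class modulo squares -/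
lemma tr_cls {a b F G c g : ℤ} (ha : a ≠ 0) (hb : b ≠ 0) (hab : a ≠ b) (hF : F ≠ 0)
    (hc : c ≠ 0) (hg : g ≠ 0) (h : c ^ 2 * F = g ^ 2 * G) :
    tr (a * F) (b * F) = tr (a * G) (b * G) := by
  have hG : G ≠ 0 := by
    rintro rfl
    rw [mul_zero] at h
    exact mul_ne_zero (pow_ne_zero 2 hc) hF h
  rw [← tr_sq (mul_ne_zero ha hF) (mul_ne_zero hb hF)
      (fun h' => hab (mul_right_cancel₀ hF h')) hc,
    ← tr_sq (mul_ne_zero ha hG) (mul_ne_zero hb hG)
      (fun h' => hab (mul_right_cancel₀ hG h')) hg,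
    show c ^ 2 * (a * F) = g ^ 2 * (a * G) by linear_combination a * h,
    show c ^ 2 * (b * F) = g ^ 2 * (b * G) by linear_combination b * h]

/-- the twists by a separable polynomial, away from the zeros -/
theorem half_sep {f : ℤ[X]} (hs : Sep f) (hd : 0 < f.natDegree) {a b : ℤ} (ha : a ≠ 0)
    (hb : b ≠ 0) (hab : a ≠ b) (r : ℕ) : ∃ C : ℝ, ∀ X : ℕ, 1 ≤ X →
      ∑ t ∈ (Icc 1 X).filter (fun t : ℕ => f.eval (t : ℤ) ≠ 0),
        tr (a * f.eval (t : ℤ)) (b * f.eval (t : ℤ)) ^ r ≤ C * X := by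
  classical
  obtain ⟨z1, Me, C0, hPg, H, hP⟩ := pg_wt hs hd
  obtain ⟨K, hK1, hK⟩ := Pool.Agent.H474R2.GE.eval_bound f
  obtain ⟨d, hdd⟩ : ∃ d, d = f.natDegree := ⟨_, rfl⟩
  rw [← hdd] at hPg H hK hd
  obtain ⟨r', hr'⟩ : ∃ r', r' = r + 2 * d := ⟨_, rfl⟩
  obtain ⟨y2, hy2⟩ := exists_nat_ge K
  have hr4 : (1 / 4 : ℝ) ^ r' * (2 * d) ≤ 1 := by
    have h1 : (2 * d : ℕ) < 4 ^ r' := lt_of_lt_of_le Nat.lt_two_pow_self
      ((Nat.pow_le_pow_left (by norm_num) _).trans (Nat.pow_le_pow_right (by norm_num) (by omega)))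
    have h2 : (2 * d : ℝ) ≤ 4 ^ r' := by exact_mod_cast h1.le
    rw [one_div, inv_pow]
    rw [inv_mul_le_iff₀ (by positivity), mul_one]
    exact h2
  have hmain := sum_R (C1 := 0) (D := ((4 : ℝ) ^ (d + 1)) ^ r') hPg H hP ha hb hab hr4
    (one_le_pow₀ (one_le_pow₀ (by norm_num)))
    (fun t : ℕ => tr (a * f.eval (t : ℤ)) (b * f.eval (t : ℤ)) ^ r')
    (fun t => pow_nonneg (le_trans zero_le_one (one_le_tr _ _)) _)
    (z2 := 2 + a.natAbs + b.natAbs) (y2 := max 1 y2) (fun z hz => ?_)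
  · obtain ⟨C, hC⟩ := hmain
    refine ⟨C, fun X hX => le_trans (sum_le_sum fun t _ => ?_) (hC X hX)⟩
    exact pow_le_pow_right₀ (one_le_tr _ _) (by omega)
  refine ⟨((4 : ℝ) ^ (z + 2)) ^ r', by positivity, fun t X y k ht htX hy2y hyX hk h0 => ?_⟩
  have hB : Bab a b z := by
    refine ⟨by omega, fun p hp hzp => ?_⟩
    have hnd : ∀ m : ℤ, m ≠ 0 → m.natAbs ≤ a.natAbs + b.natAbs → ¬ (p : ℤ) ∣ m := by
      intro m hm hle h
      have := Nat.le_of_dvd (Int.natAbs_pos.2 hm) (Int.natCast_dvd.1 h)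
      omega
    exact ⟨hnd a ha (by omega), hnd b hb (by omega),
      hnd (a - b) (sub_ne_zero.2 hab) (Int.natAbs_sub_le a b)⟩
  have hF : (f.eval (t : ℤ)).natAbs ≤ X ^ (d + 1) := by
    have hXr : (1 : ℝ) ≤ X := by exact_mod_cast (by omega : 1 ≤ X)
    have h1 := hK (t : ℤ) X hXr (by
      rw [Int.cast_natCast, abs_of_nonneg (Nat.cast_nonneg t)]
      exact_mod_cast htX)
    have h2 : K ≤ X := hy2.trans (by exact_mod_cast (le_trans (le_max_right 1 y2) (hy2y.trans hyX)))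
    have h3 : (((f.eval (t : ℤ)).natAbs : ℕ) : ℝ) ≤ (X : ℝ) ^ (d + 1) := by
      rw [Nat.cast_natAbs, Int.cast_abs]
      refine h1.trans ?_
      rw [pow_succ, mul_comm ((X : ℝ) ^ d)]
      exact mul_le_mul_of_nonneg_right h2 (by positivity)
    exact_mod_cast h3
  have h5 := rankP hB ha hb hab h0 hF (by omega) (le_trans (le_max_left 1 y2) hy2y) hk
  have h6 : tr (a * f.eval (t : ℤ)) (b * f.eval (t : ℤ)) ≤
      (4 : ℝ) ^ (z + 2) * (4 ^ (d + 1)) ^ k * 4 ^ (t2 z y (f.eval (t : ℤ))).primeFactors.card *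
        (NL (t1 z y (f.eval (t : ℤ))) (LLs c3 (kab a b) (fun _ => t1 z y (f.eval (t : ℤ)))
          (ngs (f.eval (t : ℤ)) (t1 z y (f.eval (t : ℤ))))) : ℝ) := by
    unfold tr
    exact_mod_cast h5
  refine (pow_le_pow_left₀ (le_trans zero_le_one (one_le_tr _ _)) h6 r').trans (le_of_eq ?_)
  rw [mul_pow, mul_pow, mul_pow, pow_right_comm _ k r',
    pow_right_comm _ (t2 z y (f.eval (t : ℤ))).primeFactors.card r']

/-- the twists by a separable polynomial, all positive `t` -/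
theorem half_all {f : ℤ[X]} (hf : f ≠ 0) {a b : ℤ} (r : ℕ)
    (h : ∃ C : ℝ, ∀ X : ℕ, 1 ≤ X →
      ∑ t ∈ (Icc 1 X).filter (fun t : ℕ => f.eval (t : ℤ) ≠ 0),
        tr (a * f.eval (t : ℤ)) (b * f.eval (t : ℤ)) ^ r ≤ C * X) :
    ∃ C : ℝ, ∀ X : ℕ, 1 ≤ X → ∑ t ∈ Icc 1 X,
        tr (a * f.eval (t : ℤ)) (b * f.eval (t : ℤ)) ^ r ≤ C * X := by
  classical
  obtain ⟨C, hC⟩ := h
  obtain ⟨Z, hZ⟩ : ∃ Z : Finset ℕ, ∀ t : ℕ, f.eval (t : ℤ) = 0 → t ∈ Z := by
    refine ⟨f.roots.toFinset.image Int.natAbs, fun t ht => ?_⟩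
    rw [mem_image]
    refine ⟨(t : ℤ), ?_, Int.natAbs_natCast t⟩
    rw [Multiset.mem_toFinset, mem_roots hf]
    exact ht
  obtain ⟨R, hR⟩ : ∃ R : ℕ → ℝ, R = fun t : ℕ => tr (a * f.eval (t : ℤ)) (b * f.eval (t : ℤ)) ^ r :=
    ⟨_, rfl⟩
  have hR0 : ∀ t, 0 ≤ R t := fun t => by
    rw [hR]
    exact pow_nonneg (le_trans zero_le_one (one_le_tr _ _)) _
  refine ⟨C + ∑ t ∈ Z, R t, fun X hX => ?_⟩
  have hXr : (1 : ℝ) ≤ X := by exact_mod_cast hX
  have h1 := hC X hX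
  have h2 : ∑ t ∈ (Icc 1 X).filter (fun t : ℕ => ¬ f.eval (t : ℤ) ≠ 0), R t ≤ ∑ t ∈ Z, R t := by
    refine sum_le_sum_of_subset_of_nonneg ?_ (fun t _ _ => hR0 t)
    intro t ht
    rw [mem_filter] at ht
    exact hZ t (not_not.1 ht.2)
  have h3 : ∑ t ∈ Z, R t ≤ (∑ t ∈ Z, R t) * X :=
    le_mul_of_one_le_right (sum_nonneg fun t _ => hR0 t) hXr
  have h4 := sum_filter_add_sum_filter_not (Icc 1 X) (fun t : ℕ => f.eval (t : ℤ) ≠ 0) R
  have h5 : ∑ t ∈ Icc 1 X, R t ≤ (C + ∑ t ∈ Z, R t) * X := by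
    rw [← h4, add_mul]
    refine add_le_add ?_ (h2.trans h3)
    rw [hR]
    exact h1
  calc _ = ∑ t ∈ Icc 1 X, R t := by rw [hR]
    _ ≤ _ := h5

/-- the change of the sign of the variable -/
lemma Sep.neg {f : ℤ[X]} (hs : Sep f) : Sep (f.comp (-X)) := by
  obtain ⟨N, hN, A, B, h⟩ := hs
  refine ⟨N, hN, A.comp (-X), -(B.comp (-X)), ?_⟩
  have h1 := congrArg (fun g : ℤ[X] => g.comp (-X)) h
  simp only [add_comp, mul_comp, C_comp] at h1
  rw [derivative_comp, derivative_neg, derivative_X]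
  linear_combination h1

lemma eval_neg_comp (f : ℤ[X]) (t : ℤ) : (f.comp (-X)).eval t = f.eval (-t) := by
  rw [eval_comp, eval_neg, eval_X]

lemma clear (u : ℚ[X]) : ∃ (n : ℤ) (u0 : ℤ[X]), n ≠ 0 ∧
    u0.map (Int.castRingHom ℚ) = C (n : ℚ) * u := by
  obtain ⟨b, hb1, hb⟩ := IsLocalization.integerNormalization_spec (nonZeroDivisors ℤ) u
  refine ⟨b, IsLocalization.integerNormalization (nonZeroDivisors ℤ) u,
    nonZeroDivisors.ne_zero hb1, ?_⟩
  rw [show (Int.castRingHom ℚ) = algebraMap ℤ ℚ from rfl, hb]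
  ext i
  simp

/-- the decomposition: a polynomial is separable up to squares -/
theorem sep_sq (n : ℕ) : ∀ D : ℤ[X], D.natDegree = n → D ≠ 0 → ∃ (c : ℤ) (g f : ℤ[X]), c ≠ 0 ∧
    g ≠ 0 ∧ f ≠ 0 ∧ Sep f ∧ C (c ^ 2) * D = g ^ 2 * f := by
  induction n using Nat.strong_induction_on with
  | _ n ih =>
    intro D hDn hD
    have hinj : Function.Injective (Polynomial.map (Int.castRingHom ℚ)) :=
      map_injective _ Int.cast_injective
    have hP0 : D.map (Int.castRingHom ℚ) ≠ 0 := fun h => hD (hinj (by rw [h, Polynomial.map_zero]))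
    by_cases hsq : Squarefree (D.map (Int.castRingHom ℚ))
    · refine ⟨1, 1, D, one_ne_zero, one_ne_zero, hD, ?_, by simp⟩
      obtain ⟨u, v, huv⟩ := PerfectField.separable_iff_squarefree.2 hsq
      obtain ⟨m, u0, hm, hu0⟩ := clear u
      obtain ⟨n', v0, hn', hv0⟩ := clear v
      refine ⟨m * n', mul_ne_zero hm hn', C n' * u0, C m * v0, hinj ?_⟩
      simp only [Polynomial.map_add, Polynomial.map_mul, Polynomial.map_C, hu0, hv0,
        ← Polynomial.derivative_map, Int.coe_castRingHom, Int.cast_mul, C_mul]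
      linear_combination (C (m : ℚ) * C (n' : ℚ)) * huv
    · unfold Squarefree at hsq
      push Not at hsq
      obtain ⟨q, ⟨h, hq⟩, hqu⟩ := hsq
      obtain ⟨n', q0, hn', hq0⟩ := clear q
      obtain ⟨m, h0, hm, hh0⟩ := clear h
      have hqne : q ≠ 0 := by
        rintro rfl
        exact hP0 (by rw [hq]; ring)
      have hhne : h ≠ 0 := by
        rintro rfl
        exact hP0 (by rw [hq]; ring)
      have hq1 : 1 ≤ q.natDegree := by
        rw [Nat.one_le_iff_ne_zero]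
        intro h1
        exact hqu (isUnit_iff_degree_eq_zero.2 (by rw [degree_eq_natDegree hqne, h1]; rfl))
      have hnQ : (n' : ℚ) ≠ 0 := by exact_mod_cast hn'
      have hmQ : (m : ℚ) ≠ 0 := by exact_mod_cast hm
      have hq0ne : q0 ≠ 0 := by
        rintro rfl
        rw [Polynomial.map_zero] at hq0
        exact mul_ne_zero (C_ne_zero.2 hnQ) hqne hq0.symm
      have hh0ne : h0 ≠ 0 := by
        rintro rfl
        rw [Polynomial.map_zero] at hh0
        exact mul_ne_zero (C_ne_zero.2 hmQ) hhne hh0.symm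
      have hdeg : (C m * h0).natDegree < n := by
        have e1 : (C m * h0).natDegree = h.natDegree := by
          rw [natDegree_C_mul hm, ← natDegree_map_eq_of_injective
            (RingHom.injective_int (Int.castRingHom ℚ)) h0, hh0, natDegree_C_mul hmQ]
        have e2 : n = q.natDegree + q.natDegree + h.natDegree := by
          rw [← hDn, ← natDegree_map_eq_of_injective
            (RingHom.injective_int (Int.castRingHom ℚ)) D, hq, natDegree_mul
            (mul_ne_zero hqne hqne) hhne, natDegree_mul hqne hqne]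
        omega
      obtain ⟨c1, g1, f, hc1, hg1, hf, hs, he⟩ := ih _ hdeg (C m * h0) rfl
        (mul_ne_zero (C_ne_zero.2 hm) hh0ne)
      refine ⟨c1 * (n' * m), q0 * g1, f, mul_ne_zero hc1 (mul_ne_zero hn' hm),
        mul_ne_zero hq0ne hg1, hf, hs, ?_⟩
      have hkey : C ((n' * m) ^ 2) * D = q0 ^ 2 * (C m * h0) := by
        apply hinj
        simp only [Polynomial.map_mul, Polynomial.map_pow, Polynomial.map_C, hq0, hh0,
          Int.coe_castRingHom, Int.cast_mul, Int.cast_pow, C_mul, C_pow, hq]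
        ring
      have e3 : C ((c1 * (n' * m)) ^ 2) * D = C (c1 ^ 2) * (C ((n' * m) ^ 2) * D) := by
        simp only [C_mul, C_pow]
        ring
      rw [e3, hkey]
      linear_combination q0 ^ 2 * he

/-- **all the moments of `2 ^ rank` of the twists by the values of a polynomial**, positive `t` -/
theorem half_D {D : ℤ[X]} (hD : D ≠ 0) {a b : ℤ} (ha : a ≠ 0) (hb : b ≠ 0) (hab : a ≠ b) (r : ℕ) :
    ∃ C : ℝ, ∀ X : ℕ, 1 ≤ X → ∑ t ∈ Icc 1 X,
        tr (a * D.eval (t : ℤ)) (b * D.eval (t : ℤ)) ^ r ≤ C * X := by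
  classical
  refine half_all hD r ?_
  obtain ⟨c, g, f, hc, hg, hf, hs, he⟩ := sep_sq _ D rfl hD
  have hev : ∀ t : ℤ, c ^ 2 * D.eval t = (g.eval t) ^ 2 * f.eval t := by
    intro t
    have := congrArg (eval t) he
    simpa only [eval_mul, eval_C, eval_pow] using this
  have hne : ∀ t : ℤ, D.eval t ≠ 0 → g.eval t ≠ 0 ∧ f.eval t ≠ 0 := by
    intro t ht
    have h1 := hev t
    constructor
    · intro h
      rw [h] at h1
      have : c ^ 2 * D.eval t = 0 := by rw [h1]; ring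
      exact mul_ne_zero (pow_ne_zero 2 hc) ht this
    · intro h
      rw [h] at h1
      have : c ^ 2 * D.eval t = 0 := by rw [h1]; ring
      exact mul_ne_zero (pow_ne_zero 2 hc) ht this
  have heq : ∀ t : ℤ, D.eval t ≠ 0 → tr (a * D.eval t) (b * D.eval t) =
      tr (a * f.eval t) (b * f.eval t) := fun t ht =>
    tr_cls ha hb hab ht hc (hne t ht).1 (hev t)
  obtain ⟨C, hC⟩ : ∃ C : ℝ, ∀ X : ℕ, 1 ≤ X →
      ∑ t ∈ (Icc 1 X).filter (fun t : ℕ => f.eval (t : ℤ) ≠ 0),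
        tr (a * f.eval (t : ℤ)) (b * f.eval (t : ℤ)) ^ r ≤ C * X := by
    rcases Nat.eq_zero_or_pos f.natDegree with h | h
    · obtain ⟨k, rfl⟩ := natDegree_eq_zero.1 h
      refine ⟨tr (a * k) (b * k) ^ r, fun X hX => ?_⟩
      simp only [eval_C]
      rw [sum_const, nsmul_eq_mul, mul_comm]
      refine mul_le_mul_of_nonneg_left ?_ (pow_nonneg (le_trans zero_le_one (one_le_tr _ _)) _)
      have := card_filter_le (Icc 1 X) (fun _ : ℕ => k ≠ 0)
      rw [Nat.card_Icc] at this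
      exact_mod_cast this
    · exact half_sep hs h ha hb hab r
  refine ⟨C, fun X hX => le_trans ?_ (hC X hX)⟩
  rw [sum_congr rfl (fun t ht => by rw [heq t (mem_filter.1 ht).2])]
  refine sum_le_sum_of_subset_of_nonneg ?_
    (fun t _ _ => pow_nonneg (le_trans zero_le_one (one_le_tr _ _)) _)
  intro t ht
  rw [mem_filter] at ht ⊢
  exact ⟨ht.1, (hne t ht.2).2⟩

/-- **all the moments of `2 ^ rank` of the twists by the values of a polynomial** -/
theorem all_D {D : ℤ[X]} (hD : D ≠ 0) {a b : ℤ} (ha : a ≠ 0) (hb : b ≠ 0) (hab : a ≠ b) (r : ℕ) :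
    ∃ C : ℝ, ∀ X : ℕ, 1 ≤ X → ∑ t ∈ Icc (-(X : ℤ)) X,
        tr (a * D.eval t) (b * D.eval t) ^ r ≤ C * X := by
  classical
  obtain ⟨C1, hC1⟩ := half_D hD ha hb hab r
  have hD' : D.comp (-X) ≠ 0 := by
    intro h
    apply hD
    have h1 := congrArg (fun g : ℤ[X] => g.comp (-X)) h
    simp only [zero_comp] at h1
    rw [comp_assoc, neg_comp, X_comp, neg_neg, comp_X] at h1
    exact h1
  obtain ⟨C2, hC2⟩ := half_D hD' ha hb hab r
  set P : ℤ → ℝ := fun t => tr (a * D.eval t) (b * D.eval t) ^ r with hP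
  have hP0 : ∀ t, 0 ≤ P t := fun t => pow_nonneg (le_trans zero_le_one (one_le_tr _ _)) _
  refine ⟨C1 + C2 + P 0, fun X hX => ?_⟩
  have hXr : (1 : ℝ) ≤ X := by exact_mod_cast hX
  have e1 : ∑ t ∈ Icc 1 X, P (t : ℤ) ≤ C1 * X := hC1 X hX
  have e2 : ∑ t ∈ Icc 1 X, P (-(t : ℤ)) ≤ C2 * X := by
    have h := hC2 X hX
    simp only [eval_neg_comp] at h
    exact h
  have hsub : Icc (-(X : ℤ)) X ⊆ ((Icc 1 X).image (fun t : ℕ => (t : ℤ)) ∪
      (Icc 1 X).image (fun t : ℕ => -(t : ℤ))) ∪ {0} := by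
    intro t ht
    rw [mem_Icc] at ht
    rw [mem_union, mem_union, mem_image, mem_image, mem_singleton]
    rcases lt_trichotomy t 0 with h | h | h
    · left; right
      exact ⟨t.natAbs, mem_Icc.2 (by omega), by omega⟩
    · right; exact h
    · left; left
      exact ⟨t.natAbs, mem_Icc.2 (by omega), by omega⟩
  have hun : ∀ S T : Finset ℤ, ∑ t ∈ S ∪ T, P t ≤ ∑ t ∈ S, P t + ∑ t ∈ T, P t := by
    intro S T
    rw [← sum_union_inter]
    exact le_add_of_nonneg_right (sum_nonneg fun t _ => hP0 t)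
  have e3 : ∑ t ∈ (Icc 1 X).image (fun t : ℕ => (t : ℤ)), P t = ∑ t ∈ Icc 1 X, P (t : ℤ) :=
    sum_image (fun i _ j _ hij => by exact_mod_cast hij)
  have e4 : ∑ t ∈ (Icc 1 X).image (fun t : ℕ => -(t : ℤ)), P t = ∑ t ∈ Icc 1 X, P (-(t : ℤ)) :=
    sum_image (fun i _ j _ hij => by simpa using hij)
  show ∑ t ∈ Icc (-(X : ℤ)) X, P t ≤ (C1 + C2 + P 0) * X
  have h5 := (sum_le_sum_of_subset_of_nonneg hsub (fun t _ _ => hP0 t)).trans
    ((hun _ _).trans (add_le_add (hun _ _) le_rfl))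
  rw [e3, e4, sum_singleton] at h5
  have h6 : P 0 ≤ P 0 * X := le_mul_of_one_le_right (hP0 0) hXr
  linarith

end Pool.Agent.U214.PT
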