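import Mathlib
import Pool.Agent.U214.PT.Asm

/-!
# The moments of an abstract arithmetic function in the twists by the values of a polynomial
-/

set_option autoImplicit false

namespace Pool.Agent.U214.PT

open Finset Pool.Agent.W262.RK Pool.Agent.W307.RT Pool.Agent.U214.RM
open Polynomial

/-- `Q A B` is invariant under the scaling by squares and bounded by the local count -/
structure QB (Q : ℤ → ℤ → ℝ) : Prop where
  nn : ∀ A B, 0 ≤ Q A B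
  sq : ∀ {A B u : ℤ}, A ≠ 0 → B ≠ 0 → A ≠ B → u ≠ 0 → Q (u ^ 2 * A) (u ^ 2 * B) = Q A B
  bd : ∀ {a b : ℤ} {z y X k e : ℕ}, Bab a b z → a ≠ 0 → b ≠ 0 → a ≠ b → ∀ {F : ℤ}, F ≠ 0 →
    F.natAbs ≤ X ^ e → 1 ≤ e → 1 ≤ y → X < (y + 1) ^ k →
    Q (a * F) (b * F) ≤ (4 : ℝ) ^ (z + 2) * (4 ^ e) ^ k * 4 ^ (t2 z y F).primeFactors.card *
        (NL (t1 z y F) (LLs c3 (kab a b) (fun _ => t1 z y F) (ngs F (t1 z y F))) : ℝ)

variable {Q : ℤ → ℤ → ℝ}

/-- the twist depends on the class modulo squares -/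
lemma QB.cls (hQ : QB Q) {a b F G c g : ℤ} (ha : a ≠ 0) (hb : b ≠ 0) (hab : a ≠ b) (hF : F ≠ 0)
    (hc : c ≠ 0) (hg : g ≠ 0) (h : c ^ 2 * F = g ^ 2 * G) :
    Q (a * F) (b * F) = Q (a * G) (b * G) := by
  have hG : G ≠ 0 := by
    rintro rfl
    rw [mul_zero] at h
    exact mul_ne_zero (pow_ne_zero 2 hc) hF h
  rw [← hQ.sq (mul_ne_zero ha hF) (mul_ne_zero hb hF)
      (fun h' => hab (mul_right_cancel₀ hF h')) hc,
    ← hQ.sq (mul_ne_zero ha hG) (mul_ne_zero hb hG)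
      (fun h' => hab (mul_right_cancel₀ hG h')) hg,
    show c ^ 2 * (a * F) = g ^ 2 * (a * G) by linear_combination a * h,
    show c ^ 2 * (b * F) = g ^ 2 * (b * G) by linear_combination b * h]

lemma pow_le_one_add {x : ℝ} (hx : 0 ≤ x) {r s : ℕ} (h : r ≤ s) : x ^ r ≤ 1 + x ^ s := by
  rcases le_total x 1 with h1 | h1
  · have := pow_le_one₀ (n := r) hx h1
    have := pow_nonneg hx s
    linarith
  · have := pow_le_pow_right₀ h1 h
    linarith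

/-- the twists by a separable polynomial, away from the zeros -/
theorem half_sepQ (hQ : QB Q) {f : ℤ[X]} (hs : Sep f) (hd : 0 < f.natDegree) {a b : ℤ} (ha : a ≠ 0)
    (hb : b ≠ 0) (hab : a ≠ b) (r : ℕ) : ∃ C : ℝ, ∀ X : ℕ, 1 ≤ X →
      ∑ t ∈ (Icc 1 X).filter (fun t : ℕ => f.eval (t : ℤ) ≠ 0),
        Q (a * f.eval (t : ℤ)) (b * f.eval (t : ℤ)) ^ r ≤ C * X := by
  classical
  obtain ⟨z1, Me, C0, hPg, H, hP⟩ := pg_wt hs hd
  obtain ⟨K, hK1, hK⟩ := Pool.Agent.H474R2.GE.eval_bound f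
  obtain ⟨d, hdd⟩ : ∃ d, d = f.natDegree := ⟨_, rfl⟩
  rw [← hdd] at hPg H hK hd
  obtain ⟨r', hr'⟩ : ∃ r', r' = r + 2 * d := ⟨_, rfl⟩
  obtain ⟨y2, hy2⟩ := exists_nat_ge K
  have hr4 : (1 / 4 : ℝ) ^ r' * (2 * d) ≤ 1 := by
    have h1 : (2 * d : ℕ) < 4 ^ r' := lt_of_lt_of_le Nat.lt_two_pow_self
      ((Nat.pow_le_pow_left (by norm_num) _).trans (Nat.pow_le_pow_right (by norm_num) (by omega)))
    have h2 : (2 * d : ℝ) ≤ 4 ^ r' := by exact_mod_cast h1.le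
    rw [one_div, inv_pow]
    rw [inv_mul_le_iff₀ (by positivity), mul_one]
    exact h2
  have hmain := sum_R (C1 := 0) (D := ((4 : ℝ) ^ (d + 1)) ^ r') hPg H hP ha hb hab hr4
    (one_le_pow₀ (one_le_pow₀ (by norm_num)))
    (fun t : ℕ => Q (a * f.eval (t : ℤ)) (b * f.eval (t : ℤ)) ^ r')
    (fun t => pow_nonneg (hQ.nn _ _) _)
    (z2 := 2 + a.natAbs + b.natAbs) (y2 := max 1 y2) (fun z hz => ?_)
  · obtain ⟨C, hC⟩ := hmain
    refine ⟨1 + C, fun X hX => le_trans (sum_le_sum fun t _ => pow_le_one_add (hQ.nn _ _)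
      (show r ≤ r' by omega)) ?_⟩
    rw [sum_add_distrib, sum_const, nsmul_eq_mul, mul_one, add_mul, one_mul]
    refine add_le_add ?_ (hC X hX)
    have := card_filter_le (Icc 1 X) (fun t : ℕ => f.eval (t : ℤ) ≠ 0)
    rw [Nat.card_Icc] at this
    exact_mod_cast this
  refine ⟨((4 : ℝ) ^ (z + 2)) ^ r', by positivity, fun t X y k ht htX hy2y hyX hk h0 => ?_⟩
  have hB : Bab a b z := by
    refine ⟨by omega, fun p hp hzp => ?_⟩
    have hnd : ∀ m : ℤ, m ≠ 0 → m.natAbs ≤ a.natAbs + b.natAbs → ¬ (p : ℤ) ∣ m := by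
      intro m hm hle h
      have := Nat.le_of_dvd (Int.natAbs_pos.2 hm) (Int.natCast_dvd.1 h)
      omega
    exact ⟨hnd a ha (by omega), hnd b hb (by omega),
      hnd (a - b) (sub_ne_zero.2 hab) (Int.natAbs_sub_le a b)⟩
  have hF : (f.eval (t : ℤ)).natAbs ≤ X ^ (d + 1) := by
    have hXr : (1 : ℝ) ≤ X := by exact_mod_cast (by omega : 1 ≤ X)
    have h1 := hK (t : ℤ) X hXr (by
      rw [Int.cast_natCast, abs_of_nonneg (Nat.cast_nonneg t)]
      exact_mod_cast htX)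
    have h2 : K ≤ X := hy2.trans (by exact_mod_cast (le_trans (le_max_right 1 y2) (hy2y.trans hyX)))
    have h3 : (((f.eval (t : ℤ)).natAbs : ℕ) : ℝ) ≤ (X : ℝ) ^ (d + 1) := by
      rw [Nat.cast_natAbs, Int.cast_abs]
      refine h1.trans ?_
      rw [pow_succ, mul_comm ((X : ℝ) ^ d)]
      exact mul_le_mul_of_nonneg_right h2 (by positivity)
    exact_mod_cast h3
  have h6 := hQ.bd hB ha hb hab h0 hF (by omega) (le_trans (le_max_left 1 y2) hy2y) hk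
  refine (pow_le_pow_left₀ (hQ.nn _ _) h6 r').trans (le_of_eq ?_)
  rw [mul_pow, mul_pow, mul_pow, pow_right_comm _ k r',
    pow_right_comm _ (t2 z y (f.eval (t : ℤ))).primeFactors.card r']

/-- the twists by a separable polynomial, all positive `t` -/
theorem half_allQ (hQ : QB Q) {f : ℤ[X]} (hf : f ≠ 0) {a b : ℤ} (r : ℕ)
    (h : ∃ C : ℝ, ∀ X : ℕ, 1 ≤ X →
      ∑ t ∈ (Icc 1 X).filter (fun t : ℕ => f.eval (t : ℤ) ≠ 0),
        Q (a * f.eval (t : ℤ)) (b * f.eval (t : ℤ)) ^ r ≤ C * X) :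
    ∃ C : ℝ, ∀ X : ℕ, 1 ≤ X → ∑ t ∈ Icc 1 X,
        Q (a * f.eval (t : ℤ)) (b * f.eval (t : ℤ)) ^ r ≤ C * X := by
  classical
  obtain ⟨C, hC⟩ := h
  obtain ⟨Z, hZ⟩ : ∃ Z : Finset ℕ, ∀ t : ℕ, f.eval (t : ℤ) = 0 → t ∈ Z := by
    refine ⟨f.roots.toFinset.image Int.natAbs, fun t ht => ?_⟩
    rw [mem_image]
    refine ⟨(t : ℤ), ?_, Int.natAbs_natCast t⟩
    rw [Multiset.mem_toFinset, mem_roots hf]
    exact ht
  obtain ⟨R, hR⟩ : ∃ R : ℕ → ℝ, R = fun t : ℕ => Q (a * f.eval (t : ℤ)) (b * f.eval (t : ℤ)) ^ r :=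
    ⟨_, rfl⟩
  have hR0 : ∀ t, 0 ≤ R t := fun t => by
    rw [hR]
    exact pow_nonneg (hQ.nn _ _) _
  refine ⟨C + ∑ t ∈ Z, R t, fun X hX => ?_⟩
  have hXr : (1 : ℝ) ≤ X := by exact_mod_cast hX
  have h1 := hC X hX
  have h2 : ∑ t ∈ (Icc 1 X).filter (fun t : ℕ => ¬ f.eval (t : ℤ) ≠ 0), R t ≤ ∑ t ∈ Z, R t := by
    refine sum_le_sum_of_subset_of_nonneg ?_ (fun t _ _ => hR0 t)
    intro t ht
    rw [mem_filter] at ht
    exact hZ t (not_not.1 ht.2)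
  have h3 : ∑ t ∈ Z, R t ≤ (∑ t ∈ Z, R t) * X :=
    le_mul_of_one_le_right (sum_nonneg fun t _ => hR0 t) hXr
  have h4 := sum_filter_add_sum_filter_not (Icc 1 X) (fun t : ℕ => f.eval (t : ℤ) ≠ 0) R
  have h5 : ∑ t ∈ Icc 1 X, R t ≤ (C + ∑ t ∈ Z, R t) * X := by
    rw [← h4, add_mul]
    refine add_le_add ?_ (h2.trans h3)
    rw [hR]
    exact h1
  calc _ = ∑ t ∈ Icc 1 X, R t := by rw [hR]
    _ ≤ _ := h5

/-- **all the moments of `2 ^ rank` of the twists by the values of a polynomial**, positive `t` -/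
theorem half_DQ (hQ : QB Q) {D : ℤ[X]} (hD : D ≠ 0) {a b : ℤ} (ha : a ≠ 0) (hb : b ≠ 0) (hab : a ≠ b) (r : ℕ) :
    ∃ C : ℝ, ∀ X : ℕ, 1 ≤ X → ∑ t ∈ Icc 1 X,
        Q (a * D.eval (t : ℤ)) (b * D.eval (t : ℤ)) ^ r ≤ C * X := by
  classical
  refine half_allQ hQ hD r ?_
  obtain ⟨c, g, f, hc, hg, hf, hs, he⟩ := sep_sq _ D rfl hD
  have hev : ∀ t : ℤ, c ^ 2 * D.eval t = (g.eval t) ^ 2 * f.eval t := by
    intro t
    have := congrArg (eval t) he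
    simpa only [eval_mul, eval_C, eval_pow] using this
  have hne : ∀ t : ℤ, D.eval t ≠ 0 → g.eval t ≠ 0 ∧ f.eval t ≠ 0 := by
    intro t ht
    have h1 := hev t
    constructor
    · intro h
      rw [h] at h1
      have : c ^ 2 * D.eval t = 0 := by rw [h1]; ring
      exact mul_ne_zero (pow_ne_zero 2 hc) ht this
    · intro h
      rw [h] at h1
      have : c ^ 2 * D.eval t = 0 := by rw [h1]; ring
      exact mul_ne_zero (pow_ne_zero 2 hc) ht this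
  have heq : ∀ t : ℤ, D.eval t ≠ 0 → Q (a * D.eval t) (b * D.eval t) =
      Q (a * f.eval t) (b * f.eval t) := fun t ht =>
    hQ.cls ha hb hab ht hc (hne t ht).1 (hev t)
  obtain ⟨C, hC⟩ : ∃ C : ℝ, ∀ X : ℕ, 1 ≤ X →
      ∑ t ∈ (Icc 1 X).filter (fun t : ℕ => f.eval (t : ℤ) ≠ 0),
        Q (a * f.eval (t : ℤ)) (b * f.eval (t : ℤ)) ^ r ≤ C * X := by
    rcases Nat.eq_zero_or_pos f.natDegree with h | h
    · obtain ⟨k, rfl⟩ := natDegree_eq_zero.1 h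
      refine ⟨Q (a * k) (b * k) ^ r, fun X hX => ?_⟩
      simp only [eval_C]
      rw [sum_const, nsmul_eq_mul, mul_comm]
      refine mul_le_mul_of_nonneg_left ?_ (pow_nonneg (hQ.nn _ _) _)
      have := card_filter_le (Icc 1 X) (fun _ : ℕ => k ≠ 0)
      rw [Nat.card_Icc] at this
      exact_mod_cast this
    · exact half_sepQ hQ hs h ha hb hab r
  refine ⟨C, fun X hX => le_trans ?_ (hC X hX)⟩
  rw [sum_congr rfl (fun t ht => by rw [heq t (mem_filter.1 ht).2])]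
  refine sum_le_sum_of_subset_of_nonneg ?_
    (fun t _ _ => pow_nonneg (hQ.nn _ _) _)
  intro t ht
  rw [mem_filter] at ht ⊢
  exact ⟨ht.1, (hne t ht.2).2⟩

/-- **all the moments of `2 ^ rank` of the twists by the values of a polynomial** -/
theorem all_DQ (hQ : QB Q) {D : ℤ[X]} (hD : D ≠ 0) {a b : ℤ} (ha : a ≠ 0) (hb : b ≠ 0) (hab : a ≠ b) (r : ℕ) :
    ∃ C : ℝ, ∀ X : ℕ, 1 ≤ X → ∑ t ∈ Icc (-(X : ℤ)) X,
        Q (a * D.eval t) (b * D.eval t) ^ r ≤ C * X := by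
  classical
  obtain ⟨C1, hC1⟩ := half_DQ hQ hD ha hb hab r
  have hD' : D.comp (-X) ≠ 0 := by
    intro h
    apply hD
    have h1 := congrArg (fun g : ℤ[X] => g.comp (-X)) h
    simp only [zero_comp] at h1
    rw [comp_assoc, neg_comp, X_comp, neg_neg, comp_X] at h1
    exact h1
  obtain ⟨C2, hC2⟩ := half_DQ hQ hD' ha hb hab r
  set P : ℤ → ℝ := fun t => Q (a * D.eval t) (b * D.eval t) ^ r with hP
  have hP0 : ∀ t, 0 ≤ P t := fun t => pow_nonneg (hQ.nn _ _) _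
  refine ⟨C1 + C2 + P 0, fun X hX => ?_⟩
  have hXr : (1 : ℝ) ≤ X := by exact_mod_cast hX
  have e1 : ∑ t ∈ Icc 1 X, P (t : ℤ) ≤ C1 * X := hC1 X hX
  have e2 : ∑ t ∈ Icc 1 X, P (-(t : ℤ)) ≤ C2 * X := by
    have h := hC2 X hX
    simp only [eval_neg_comp] at h
    exact h
  have hsub : Icc (-(X : ℤ)) X ⊆ ((Icc 1 X).image (fun t : ℕ => (t : ℤ)) ∪
      (Icc 1 X).image (fun t : ℕ => -(t : ℤ))) ∪ {0} := by
    intro t ht
    rw [mem_Icc] at ht
    rw [mem_union, mem_union, mem_image, mem_image, mem_singleton]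
    rcases lt_trichotomy t 0 with h | h | h
    · left; right
      exact ⟨t.natAbs, mem_Icc.2 (by omega), by omega⟩
    · right; exact h
    · left; left
      exact ⟨t.natAbs, mem_Icc.2 (by omega), by omega⟩
  have hun : ∀ S T : Finset ℤ, ∑ t ∈ S ∪ T, P t ≤ ∑ t ∈ S, P t + ∑ t ∈ T, P t := by
    intro S T
    rw [← sum_union_inter]
    exact le_add_of_nonneg_right (sum_nonneg fun t _ => hP0 t)
  have e3 : ∑ t ∈ (Icc 1 X).image (fun t : ℕ => (t : ℤ)), P t = ∑ t ∈ Icc 1 X, P (t : ℤ) :=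
    sum_image (fun i _ j _ hij => by exact_mod_cast hij)
  have e4 : ∑ t ∈ (Icc 1 X).image (fun t : ℕ => -(t : ℤ)), P t = ∑ t ∈ Icc 1 X, P (-(t : ℤ)) :=
    sum_image (fun i _ j _ hij => by simpa using hij)
  show ∑ t ∈ Icc (-(X : ℤ)) X, P t ≤ (C1 + C2 + P 0) * X
  have h5 := (sum_le_sum_of_subset_of_nonneg hsub (fun t _ _ => hP0 t)).trans
    ((hun _ _).trans (add_le_add (hun _ _) le_rfl))
  rw [e3, e4, sum_singleton] at h5
  have h6 : P 0 ≤ P 0 * X := le_mul_of_one_le_right (hP0 0) hXr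
  linarith

end Pool.Agent.U214.PT
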