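import Mathlib
import Pool.Agent.U409.SH.Avg
import Pool.Agent.U409.SH.Inv
import Pool.Agent.U214.PT.AsmQ

/-!
# `2 ^ rank * #Ш[2]` of the twists by the values of a polynomial
-/

set_option autoImplicit false

namespace Pool.Agent.U214.PT

open Finset Pool.Agent.W262.RK
open Pool.Agent.W307.RT (S1 S2)
open Pool.Agent.U409.SH (qq qq_le locl' Qn Qn_VR qq_eq)

/-- `2 ^ rank * #Ш[2]` is bounded by the local count -/
lemma qqP {a b : ℤ} {z y X k e : ℕ} (hB : Bab a b z) (ha : a ≠ 0) (hb : b ≠ 0) (hab : a ≠ b)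
    {F : ℤ} (h0 : F ≠ 0) (hF : F.natAbs ≤ X ^ e) (he : 1 ≤ e) (hy : 1 ≤ y)
    (hk : X < (y + 1) ^ k) :
    qq (a * F) (b * F) ≤
      4 ^ (z + 2) * (4 ^ e) ^ k * 4 ^ (t2 z y F).primeFactors.card *
        NL (t1 z y F) (LLs c3 (kab a b) (fun _ => t1 z y F) (ngs F (t1 z y F))) := by
  have hz2 := hB.1
  have hmd : t1 z y F ∣ PP z y := Nat.dvd_of_mem_divisors (t1_mem F)
  have hPSof : ∀ p : ℕ, p.Prime → p ∣ t1 z y F → p ∈ PS z y := fun p hp h =>
    (prime_dvd_PP hp).1 (h.trans hmd)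
  have hnκ : ∀ p : ℕ, p.Prime → p ∣ t1 z y F → ∀ j k, ¬ (p : ℤ) ∣ kab a b j k := by
    intro p hp h j k
    exact kab_nd hB hp (mem_PS.1 (hPSof p hp h)).1.1 j k
  have hodd : ∀ p : ℕ, p.Prime → p ∣ t1 z y F → p ≠ 2 := by
    intro p hp h
    have h1 := (mem_PS.1 (hPSof p hp h)).1.1
    omega
  have hA : a * F ≠ 0 := mul_ne_zero ha h0
  have hB' : b * F ≠ 0 := mul_ne_zero hb h0
  have hAB : a * F ≠ b * F := fun h => hab (mul_right_cancel₀ h0 h)
  have hd := qq_le (t1 z y F)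
    (LLs c3 (kab a b) (fun _ => t1 z y F) (ngs F (t1 z y F)))
    (a * F) (b * F) hA hB' hAB
    (by
      rw [← Nat.not_even_iff_odd, even_iff_two_dvd]
      intro h
      exact hodd 2 Nat.prime_two h rfl)
    ((PP_squarefree z y).squarefree_of_dvd hmd)
    (fun p hp hpd => ⟨fun j hj => (Pool.Agent.W342.RK2.xcl _ _ _ p hp (hodd p hp hpd)
        (hnκ p hp hpd j)).1,
      fun a1 b1 c1 d1 a2 b2 c2 d2 e1 e2 j hj =>
        (Pool.Agent.W342.RK2.xcl _ _ _ p hp (hodd p hp hpd) (hnκ p hp hpd j)).2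
          a1 b1 c1 d1 a2 b2 c2 d2 (e1 j hj) (e2 j hj)⟩)
    (fun p hp hpd e1 e2 he1 he2 hsol j hj => by
      have hpp : p.Prime := Fact.out
      have hjs := (dvd_t1 hpp).1 hpd
      have hzp := (mem_PS.1 hjs.1).1.1
      refine locl' 3 (kab a b j) _ p _ _ (hodd p hpp hpd)
        (hnκ p hpp hpd j) (locP hB hpp hzp hjs.2.1 hjs.2.2 ?_) e1 e2 he1 he2 hsol
      rw [decide_eq_true_eq]
      unfold ngs
      rw [mem_filter, Nat.mem_primeFactors]
      constructor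
      · exact fun h => h.2
      · intro h5
        exact ⟨⟨hpp, hpd, dv_ne_zero (t1_mem F)⟩, h5⟩)
  refine hd.trans (Nat.mul_le_mul_right _ ?_)
  have hc := badP hB h0 hF he hy hk
  calc 4 ^ (((2 * (a * F) * (b * F) * (a * F - b * F)).natAbs.primeFactors.filter
        (fun q => ¬ q ∣ t1 z y F)).card + 2)
      ≤ 4 ^ ((z + 2) + e * k + (t2 z y F).primeFactors.card) :=
        Nat.pow_le_pow_right (by norm_num) (by omega)
    _ = _ := by
        rw [pow_add, pow_add, pow_mul]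

lemma qq_sq {A B u : ℤ} (hA : A ≠ 0) (hB : B ≠ 0) (hAB : A ≠ B) (hu : u ≠ 0) :
    qq (u ^ 2 * A) (u ^ 2 * B) = qq A B := by
  have hAq : (A : ℚ) ≠ 0 := by exact_mod_cast hA
  have hBq : (B : ℚ) ≠ 0 := by exact_mod_cast hB
  have hABq : (A : ℚ) - B ≠ 0 := by
    rw [sub_ne_zero]
    exact_mod_cast hAB
  have h : Pool.Agent.Y700.VR (Pool.Agent.W262.SH.E (u ^ 2 * A) (u ^ 2 * B))
      (Pool.Agent.W262.SH.E A B) (u : ℚ) 0 0 0 := by
    refine ⟨by exact_mod_cast hu, ?_, ?_, ?_, ?_, ?_⟩ <;> simp only [Pool.Agent.W262.SH.E] <;>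
      push_cast <;> ring
  have hD : (Pool.Agent.W262.SH.E A B).Δ ≠ 0 := by
    have e : (Pool.Agent.W262.SH.E A B).Δ = 16 * ((A : ℚ) * B * ((A : ℚ) - B)) ^ 2 := by
      simp only [Pool.Agent.W262.SH.E, WeierstrassCurve.Δ, WeierstrassCurve.b₂,
        WeierstrassCurve.b₄, WeierstrassCurve.b₆, WeierstrassCurve.b₈]
      ring
    rw [e]
    exact mul_ne_zero (by norm_num) (pow_ne_zero 2 (mul_ne_zero (mul_ne_zero hAq hBq) hABq))
  rw [qq_eq, qq_eq, Qn_VR h hD]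

theorem qq_QB : QB (fun A B => (qq A B : ℝ)) where
  nn := fun _ _ => Nat.cast_nonneg _
  sq := fun hA hB hAB hu => by
    show (qq _ _ : ℝ) = (qq _ _ : ℝ)
    rw [qq_sq hA hB hAB hu]
  bd := fun hB ha hb hab F h0 hF he hy hk => by
    have := qqP hB ha hb hab h0 hF he hy hk
    exact_mod_cast this

end Pool.Agent.U214.PT
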