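import Mathlib
import Pool.Agent.U213.SM.Prod

/-!
# The elements killed by a power of two
-/

set_option autoImplicit false

namespace Pool.Agent.U214.PT

open Pool.Agent.U213.SM
open Pool.Agent.TH841.SH.D (ShaTor rk)

lemma tor_step {G : Type} [AddCommGroup G] (n : ℕ) [Finite {x : G // n • x = 0}]
    [Finite {x : G // 2 • x = 0}] : Finite {x : G // (n * 2) • x = 0} ∧
    Nat.card {x : G // (n * 2) • x = 0} ≤
      Nat.card {x : G // n • x = 0} * Nat.card {x : G // 2 • x = 0} := by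
  classical
  let f : {x : G // (n * 2) • x = 0} → {x : G // n • x = 0} := fun x => ⟨2 • x.1, by
    rw [← mul_nsmul']
    exact x.2⟩
  let s : {x : G // n • x = 0} → {x : G // (n * 2) • x = 0} := fun y =>
    if h : ∃ x, f x = y then h.choose else ⟨0, smul_zero _⟩
  have hs : ∀ x, f (s (f x)) = f x := by
    intro x
    have h : ∃ x', f x' = f x := ⟨x, rfl⟩
    show f (if h : ∃ x', f x' = f x then h.choose else ⟨0, smul_zero _⟩) = f x
    rw [dif_pos h]
    exact h.choose_spec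
  let g : {x : G // (n * 2) • x = 0} → {x : G // n • x = 0} × {x : G // 2 • x = 0} := fun x =>
    (f x, ⟨x.1 - (s (f x)).1, by
      have h := congrArg Subtype.val (hs x)
      have h2 : 2 • (s (f x)).1 = 2 • x.1 := h
      rw [smul_sub, h2, sub_self]⟩)
  have hg : Function.Injective g := by
    intro x y h
    have h1 : f x = f y := congrArg Prod.fst h
    have h2 : x.1 - (s (f x)).1 = y.1 - (s (f y)).1 := congrArg (fun z => z.2.1) h
    rw [h1] at h2
    exact Subtype.ext (sub_left_injective h2)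
  refine ⟨Finite.of_injective g hg, ?_⟩
  have h := Nat.card_le_card_of_injective g hg
  rwa [Nat.card_prod] at h

lemma tor_pow {G : Type} [AddCommGroup G] (h2 : Finite {x : G // 2 • x = 0}) (k : ℕ) :
    Finite {x : G // (2 ^ k) • x = 0} ∧
    Nat.card {x : G // (2 ^ k) • x = 0} ≤ Nat.card {x : G // 2 • x = 0} ^ k := by
  induction k with
  | zero =>
    have h : ∀ x : {x : G // (2 ^ 0) • x = 0}, x = ⟨0, smul_zero _⟩ := by
      rintro ⟨x, hx⟩
      apply Subtype.ext
      rw [pow_zero, one_smul] at hx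
      exact hx
    haveI : Unique {x : G // (2 ^ 0) • x = 0} := ⟨⟨⟨0, smul_zero _⟩⟩, h⟩
    exact ⟨inferInstance, by rw [Nat.card_unique, pow_zero]⟩
  | succ k ih =>
    haveI := ih.1
    obtain ⟨h3, h4⟩ := tor_step (G := G) (2 ^ k)
    rw [pow_succ, pow_succ]
    exact ⟨h3, h4.trans (Nat.mul_le_mul_right _ ih.2)⟩

variable {N : ℕ}

/-- `2 ^ (k rank A(ℚ)) * #Ш(A/ℚ)[2 ^ k]` for `A = W 1 × ... × W N` -/
noncomputable def MPk (k : ℕ) (W : Fin N → WeierstrassCurve ℚ) : ℕ :=
  2 ^ (k * rkP W) * Nat.card (ShaTorP W (2 ^ k))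

lemma MPk_le (k : ℕ) (W : Fin N → WeierstrassCurve ℚ) (h : Finite (ShaTorP W 2)) :
    Finite (ShaTorP W (2 ^ k)) ∧ MPk k W ≤ MP W ^ k := by
  obtain ⟨h1, h2⟩ := tor_pow (G := ShaP W) h k
  refine ⟨h1, ?_⟩
  unfold MPk MP
  rw [mul_pow, ← pow_mul, mul_comm (rkP W) k]
  exact Nat.mul_le_mul_left _ h2

end Pool.Agent.U214.PT
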